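import Pool.Agent.T9h94.Iso.Def
import Pool.Agent.T9h75.Iso.PolyT

/-!
# The sentence for the membership is computable in polynomial time
-/

set_option autoImplicit false

namespace Pool.Agent.NPC.T9h94M1

open Pool.Agent.NPC Pool.Agent.NPC.ER Pool.Agent.NPC.H612 Pool.Agent.T9h94.Iso
open Pool.Agent.T9h94.Iso.Red Pool.Agent.NPC.T9h75Iso
open Pool.Agent.NPC.R537HD (poly_sqT poly_subT)

theorem upoly_n : UPoly (fun I : IInst => I.1.length) := UPoly.length (Poly.fst Poly.id)

theorem poly_okB : Poly okB := by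
  refine Poly.all (p := fun (I : IInst) (t : Tok) =>
    !decide (t.code.1 = 0) || decide (t.code.2 < I.1.length)) (fm_toks (Poly.snd Poly.id)) ?_
  have hc : Poly (fun x : IInst × Tok => x.2.code) := poly_tok_code sn
  exact Poly.or (Poly.not (Poly.decide_eq (Poly.fst hc) (Poly.const 0)))
    (Poly.decide_lt (Poly.snd hc) (up upoly_n.toPoly))

theorem poly_mE : Poly mE :=
  Poly.map (F := fun (I : IInst) i => I.1.length + i)
    (UPoly.add upoly_n (UPoly.const 1)).range (Poly.add (up upoly_n.toPoly) sn)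

theorem poly_var1 : Poly (fun q : IInst × ℕ => Tm.var q.2) := poly_tvar sn

theorem poly_var2 : Poly (fun q : IInst × ℕ => Tm.var (q.1.1.length + q.2)) :=
  poly_tvar (Poly.add (up upoly_n.toPoly) sn)

theorem poly_mEq : Poly mEq :=
  poly_conj (Poly.map (F := fun (I : IInst) i => Fm.eq (Tm.var i) (Tm.var (I.1.length + i)))
    upoly_n.range (poly_feq poly_var1 poly_var2))

theorem poly_vε : Poly (fun I : IInst => Tm.var (I.1.length + I.1.length)) :=
  poly_tvar (Poly.add upoly_n.toPoly upoly_n.toPoly)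

theorem poly_mLt : Poly mLt :=
  poly_flt (poly_sumT (Poly.map (F := fun (I : IInst) i =>
    Pool.Agent.NPC.R537HD.sqT (Pool.Agent.NPC.R537HD.subT (Tm.var i)
      (Tm.var (I.1.length + i)))) upoly_n.range (poly_sqT (poly_subT poly_var1 poly_var2))))
    (poly_sqT poly_vε)

theorem poly_mS : Poly mS :=
  poly_fand (poly_flt (Poly.const _) poly_vε)
    (poly_fand (poly_for (poly_fnot poly_mEq) (Poly.snd Poly.id))
      (poly_for (poly_fnot (poly_fand (Poly.snd Poly.id) poly_mLt)) poly_mEq))

theorem stmtM1 : StmtM1 :=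
  Poly.ite (Poly.decide_eq poly_okB (Poly.const true)) (Poly.pair poly_mE poly_mS)
    (Poly.const (([] : List ℕ), Fm.ff))

end Pool.Agent.NPC.T9h94M1
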