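import Pool.Agent.T9h94.Iso.Form

/-!
# The estimates of the normal form
-/

set_option autoImplicit false

namespace Pool.Agent.T9h94.Iso

open Finset Filter Topology Pool.Agent.NPC Pool.Agent.R537.RN

variable {n l : ℕ} (loc : ℕ → Fin n ⊕ (Fin 0 ⊕ Fin l)) (S : List ER.Con)

/-- The exponent of the first constant. -/
def u1 (n l s : ℕ) : ℕ := q1 n l s + kp l s + qd l (kp l s) + n + 5

/-- The exponent of the second constant. -/
def u2 (n l s : ℕ) : ℕ := q2 n l s (u1 n l s)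

theorem two_le_qd (l κ : ℕ) : 2 ≤ qd l κ := by unfold qd; omega

theorem pen_nonneg (l κ : ℕ) (y : ℕ → ℝ) (t : ℝ) : 0 ≤ pen l κ y t := by
  unfold pen
  have : 0 ≤ ∑ j ∈ range κ, (hc l y (j + 1) * t - hc l y j ^ 2) ^ 2 :=
    Finset.sum_nonneg fun _ _ => sq_nonneg _
  positivity

/-- **The case of a false sentence.** -/
theorem F_part (hS : ¬ TrueS loc S) (X : Fin n → ℝ) (hX : ∀ j, |X j| ≤ 2) :
    ∃ y : ℕ → ℝ, (∀ a < qd l (kp l S.length), y a ^ 2 ≤ qd l (kp l S.length)) ∧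
      Gt loc S (kp l S.length) (2 ^ 2 ^ u1 n l S.length) (2 * 2 ^ 2 ^ u2 n l S.length)
        (2 ^ 2 ^ (u2 n l S.length + 2)) X y 1 ≤ 0 := by
  obtain ⟨h, Y, hh, hY, hle⟩ := gap_of_false loc S hS (u1 n l S.length) X hX
  set κ := kp l S.length with hκ
  have hκ1 : 1 ≤ κ := two_le_kp _ _
  obtain ⟨y0, hy0⟩ : ∃ y0 : ℕ → ℝ, y0 = fun a => if a = 0 then h else if ha : 1 ≤ a ∧ a ≤ l then
      Y ⟨a - 1, by omega⟩ else if a = l + 1 then 0 else h ^ (2 ^ (a - l - 1)) := ⟨_, rfl⟩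
  have hy1 : ∀ a, |y0 a| ≤ 1 := by
    intro a
    rw [hy0]
    dsimp only
    split_ifs
    · exact hh
    · exact hY _
    · simp
    · rw [abs_pow]
      exact pow_le_one₀ (abs_nonneg _) hh
  have hsq : ∀ a, y0 a ^ 2 ≤ 1 := fun a => by
    rw [← sq_abs]
    exact pow_le_one₀ (abs_nonneg _) (hy1 a)
  have hsum : ∑ a ∈ range (qd l κ), y0 a ^ 2 ≤ qd l κ := by
    calc ∑ a ∈ range (qd l κ), y0 a ^ 2 ≤ ∑ _a ∈ range (qd l κ), (1 : ℝ) :=
          Finset.sum_le_sum fun a _ => hsq a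
      _ = qd l κ := by simp
  set g : ℝ := Real.sqrt (qd l κ - ∑ a ∈ range (qd l κ), y0 a ^ 2) with hg
  have hg2 : g ^ 2 = qd l κ - ∑ a ∈ range (qd l κ), y0 a ^ 2 := Real.sq_sqrt (by linarith)
  obtain ⟨y, hy⟩ : ∃ y : ℕ → ℝ, y = Function.update y0 (l + 1) g := ⟨_, rfl⟩
  have hyg : y (l + 1) = g := by rw [hy]; simp
  have hyo : ∀ a, a ≠ l + 1 → y a = y0 a := fun a ha => by
    rw [hy, Function.update_of_ne ha]
  have hmem : l + 1 ∈ range (qd l κ) := mem_range.2 (by unfold qd; omega)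
  have hy0g : y0 (l + 1) = 0 := by
    rw [hy0]
    dsimp only
    rw [if_neg (by omega), dif_neg (by omega), if_pos rfl]
  have hysum : ∑ a ∈ range (qd l κ), y a ^ 2 = qd l κ := by
    rw [← Finset.add_sum_erase _ _ hmem, hyg, hg2]
    have h1 : ∑ a ∈ (range (qd l κ)).erase (l + 1), y a ^ 2 =
        ∑ a ∈ (range (qd l κ)).erase (l + 1), y0 a ^ 2 :=
      Finset.sum_congr rfl fun a ha => by rw [hyo a (Finset.ne_of_mem_erase ha)]
    have h2 := Finset.add_sum_erase (range (qd l κ)) (fun a => y0 a ^ 2) hmem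
    simp only [hy0g] at h2
    rw [h1]
    linarith
  have hyh : y 0 = h := by
    rw [hyo 0 (by omega), hy0]
    simp
  have hyY : (fun j : Fin l => y (j + 1)) = Y := by
    funext j
    have hj := j.2
    rw [hyo _ (by omega), hy0]
    dsimp only
    rw [if_neg (by omega), dif_pos ⟨by omega, by omega⟩]
    congr 1
  have hhc : ∀ j, hc l y j = h ^ (2 ^ j) := by
    intro j
    unfold hc
    split_ifs with h0
    · rw [h0, hyh]; simp
    · rw [hyo _ (by omega), hy0]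
      dsimp only
      rw [if_neg (by omega), dif_neg (by omega), if_neg (by omega)]
      congr 2
      omega
  refine ⟨y, ?_, ?_⟩
  · intro a ha
    have h1 := Finset.single_le_sum (f := fun a => y a ^ 2) (fun _ _ => sq_nonneg _)
      (mem_range.2 ha)
    rw [hysum] at h1
    exact h1
  · have hpen : pen l κ y 1 = 0 := by
      unfold pen
      rw [hysum]
      have : ∑ j ∈ range κ, (hc l y (j + 1) * 1 - hc l y j ^ 2) ^ 2 = 0 :=
        Finset.sum_eq_zero fun j _ => by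
          rw [hhc, hhc, ← pow_mul, ← pow_succ]
          ring
      rw [this]
      ring
    unfold Gt
    rw [hpen, hyY, hyh, hhc]
    have hε : (1 / 2 : ℝ) ^ 2 ^ q2 n l S.length (u1 n l S.length) =
        (2 ^ 2 ^ u2 n l S.length)⁻¹ := by
      rw [one_div, inv_pow]; rfl
    rw [hε] at hle
    have hpos : (0 : ℝ) < 2 ^ 2 ^ u2 n l S.length := by positivity
    have h3 : 2 * 2 ^ 2 ^ u2 n l S.length * (2 ^ 2 ^ u1 n l S.length *
        qsum (pick loc (fun j => h * (2 ^ 2 ^ u1 n l S.length * X j)) (fun _ => 0) Y) h S -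
        h ^ 2 ^ κ * 1 ^ 3 + 2 ^ 2 ^ (u2 n l S.length + 2) * 0) ≤
        2 * 2 ^ 2 ^ u2 n l S.length * (-(2 ^ 2 ^ u2 n l S.length)⁻¹) := by
      apply mul_le_mul_of_nonneg_left _ (by positivity)
      linarith
    have h4 : 2 * 2 ^ 2 ^ u2 n l S.length * (-(2 ^ 2 ^ u2 n l S.length : ℝ)⁻¹) = -2 := by
      field_simp
    rw [h4] at h3
    linarith

theorem le_two_pow' (k : ℕ) : k + 1 ≤ 2 ^ k := Nat.lt_two_pow_self

theorem le_Gx (N a : ℕ) : a ≤ Gx N a := by
  unfold Gx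
  nlinarith [Nat.zero_le N, Nat.zero_le a, Nat.zero_le (a * N)]

theorem cond_a (n l s : ℕ) : (2 * qd l (kp l s)) ^ (2 ^ kp l s) * 2 ^ 2 ^ q1 n l s ≤
    2 ^ 2 ^ u1 n l s := by
  set q := qd l (kp l s)
  set κ := kp l s
  have h1 : 2 * q ≤ 2 ^ (q + 1) := by
    have := le_two_pow' q
    rw [pow_succ]; omega
  calc (2 * q) ^ (2 ^ κ) * 2 ^ 2 ^ q1 n l s
      ≤ (2 ^ (q + 1)) ^ (2 ^ κ) * 2 ^ 2 ^ q1 n l s :=
        Nat.mul_le_mul_right _ (Nat.pow_le_pow_left h1 _)
    _ = 2 ^ ((q + 1) * 2 ^ κ + 2 ^ q1 n l s) := by rw [← pow_mul, ← pow_add]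
    _ ≤ 2 ^ 2 ^ u1 n l s := by
      apply Nat.pow_le_pow_right (by norm_num)
      have h2 : (q + 1) * 2 ^ κ ≤ 2 ^ (q + κ) := by
        rw [pow_add]
        exact Nat.mul_le_mul_right _ (le_two_pow' q)
      have h3 : 2 ^ (q + κ) ≤ 2 ^ (q1 n l s + κ + q + n + 4) :=
        Nat.pow_le_pow_right (by norm_num) (by omega)
      have h4 : 2 ^ q1 n l s ≤ 2 ^ (q1 n l s + κ + q + n + 4) :=
        Nat.pow_le_pow_right (by norm_num) (by omega)
      have h5 : 2 ^ u1 n l s = 2 * 2 ^ (q1 n l s + κ + q + n + 4) := by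
        unfold u1
        rw [← pow_succ']
      omega

theorem cond_b (n l s : ℕ) : 8 * (n + 1) * 2 ^ 2 ^ q1 n l s ≤ 2 ^ 2 ^ u1 n l s := by
  have h1 : 8 * (n + 1) ≤ 2 ^ (n + 3) := by
    have := le_two_pow' n
    rw [pow_add]; omega
  calc 8 * (n + 1) * 2 ^ 2 ^ q1 n l s ≤ 2 ^ (n + 3) * 2 ^ 2 ^ q1 n l s :=
        Nat.mul_le_mul_right _ h1
    _ = 2 ^ (n + 3 + 2 ^ q1 n l s) := (pow_add _ _ _).symm
    _ ≤ 2 ^ 2 ^ u1 n l s := by
      apply Nat.pow_le_pow_right (by norm_num)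
      have h2 := le_two_pow' (n + 3)
      have h3 : 2 ^ (n + 3) ≤ 2 ^ (q1 n l s + kp l s + qd l (kp l s) + n + 4) :=
        Nat.pow_le_pow_right (by norm_num) (by omega)
      have h4 : 2 ^ q1 n l s ≤ 2 ^ (q1 n l s + kp l s + qd l (kp l s) + n + 4) :=
        Nat.pow_le_pow_right (by norm_num) (by omega)
      have h5 : 2 ^ u1 n l s = 2 * 2 ^ (q1 n l s + kp l s + qd l (kp l s) + n + 4) := by
        unfold u1
        rw [← pow_succ']
      omega

theorem cond_c (n l s : ℕ) : (2 * (2 * qd l (kp l s)) ^ (2 ^ kp l s) + 1) ^ kp l s ≤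
    2 ^ 2 ^ u2 n l s := by
  have hu : u1 n l s + kp l s + s + 6 ≤ u2 n l s := by
    unfold u2 q2
    exact (le_Gx _ _).trans (le_Gx _ _)
  have hu1 : q1 n l s + kp l s + qd l (kp l s) + n + 5 = u1 n l s := rfl
  set q := qd l (kp l s)
  set κ := kp l s
  have h1 : 2 * q ≤ 2 ^ (q + 1) := by
    have := le_two_pow' q
    rw [pow_succ]; omega
  have h2 : 2 * (2 * q) ^ (2 ^ κ) + 1 ≤ 2 ^ ((q + 1) * 2 ^ κ + 2) := by
    have h3 : (2 * q) ^ (2 ^ κ) ≤ 2 ^ ((q + 1) * 2 ^ κ) := by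
      rw [pow_mul]
      exact Nat.pow_le_pow_left h1 _
    have h4 : 1 ≤ 2 ^ ((q + 1) * 2 ^ κ) := Nat.one_le_two_pow
    rw [pow_add]; omega
  calc (2 * (2 * q) ^ (2 ^ κ) + 1) ^ κ ≤ (2 ^ ((q + 1) * 2 ^ κ + 2)) ^ κ :=
        Nat.pow_le_pow_left h2 _
    _ = 2 ^ (((q + 1) * 2 ^ κ + 2) * κ) := (pow_mul _ _ _).symm
    _ ≤ 2 ^ 2 ^ u2 n l s := by
      apply Nat.pow_le_pow_right (by norm_num)
      have h5 : (q + 1) * 2 ^ κ + 2 ≤ 2 ^ (q + κ + 2) := by
        have h6 : (q + 1) * 2 ^ κ ≤ 2 ^ (q + κ) := by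
          rw [pow_add]
          exact Nat.mul_le_mul_right _ (le_two_pow' q)
        have h7 : 1 ≤ 2 ^ (q + κ) := Nat.one_le_two_pow
        rw [pow_add 2 (q + κ)]; omega
      calc ((q + 1) * 2 ^ κ + 2) * κ ≤ 2 ^ (q + κ + 2) * 2 ^ κ :=
            Nat.mul_le_mul h5 (by have := le_two_pow' κ; omega)
        _ = 2 ^ (q + κ + 2 + κ) := (pow_add _ _ _).symm
        _ ≤ 2 ^ u2 n l s := Nat.pow_le_pow_right (by norm_num) (by omega)

/-- The error of the chain. -/
theorem chain_err (l κ : ℕ) (y : ℕ → ℝ) (ρ e : ℝ) (hρ : 1 ≤ ρ) (he : 0 ≤ e)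
    (hy : ∀ j ≤ κ, |hc l y j| ≤ ρ) (hy0 : |y 0| ≤ ρ)
    (hj : ∀ j < κ, |hc l y (j + 1) * 1 - hc l y j ^ 2| ≤ e) :
    ∀ j ≤ κ, |hc l y j - y 0 ^ (2 ^ j)| ≤ (2 * ρ ^ (2 ^ κ) + 1) ^ j * e := by
  have hρK : 1 ≤ ρ ^ (2 ^ κ) := one_le_pow₀ hρ
  intro j
  induction j with
  | zero => intro _; simpa [hc] using he
  | succ j ih =>
    intro hjκ
    have h1 := ih (by omega)
    have h2 := hj j (by omega)
    have h3 := hy j (by omega)
    have h4 : |y 0 ^ (2 ^ j)| ≤ ρ ^ (2 ^ κ) := by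
      rw [abs_pow]
      calc |y 0| ^ (2 ^ j) ≤ ρ ^ (2 ^ j) := pow_le_pow_left₀ (abs_nonneg _) hy0 _
        _ ≤ ρ ^ (2 ^ κ) := pow_le_pow_right₀ hρ (Nat.pow_le_pow_right (by norm_num) (by omega))
    have h5 : ρ ≤ ρ ^ (2 ^ κ) := le_self_pow₀ hρ (by positivity)
    have h6 : hc l y (j + 1) - y 0 ^ (2 ^ (j + 1)) = (hc l y (j + 1) * 1 - hc l y j ^ 2) +
        (hc l y j - y 0 ^ (2 ^ j)) * (hc l y j + y 0 ^ (2 ^ j)) := by
      rw [pow_succ 2 j, pow_mul]; ring
    rw [h6]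
    have h7 : |hc l y j + y 0 ^ (2 ^ j)| ≤ 2 * ρ ^ (2 ^ κ) :=
      (abs_add_le _ _).trans (by linarith)
    have h8 : 0 ≤ (2 * ρ ^ (2 ^ κ) + 1) ^ j * e := by positivity
    calc |(hc l y (j + 1) * 1 - hc l y j ^ 2) +
        (hc l y j - y 0 ^ (2 ^ j)) * (hc l y j + y 0 ^ (2 ^ j))| ≤
        |hc l y (j + 1) * 1 - hc l y j ^ 2| +
          |hc l y j - y 0 ^ (2 ^ j)| * |hc l y j + y 0 ^ (2 ^ j)| := by
          rw [← abs_mul]; exact abs_add_le _ _
      _ ≤ e + ((2 * ρ ^ (2 ^ κ) + 1) ^ j * e) * (2 * ρ ^ (2 ^ κ)) :=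
          add_le_add h2 (mul_le_mul h1 h7 (abs_nonneg _) h8)
      _ ≤ (2 * ρ ^ (2 ^ κ) + 1) ^ j * e + ((2 * ρ ^ (2 ^ κ) + 1) ^ j * e) *
          (2 * ρ ^ (2 ^ κ)) := by
          have h9 : (1 : ℝ) ≤ (2 * ρ ^ (2 ^ κ) + 1) ^ j := one_le_pow₀ (by linarith)
          nlinarith
      _ = (2 * ρ ^ (2 ^ κ) + 1) ^ (j + 1) * e := by rw [pow_succ]; ring

/-- The main estimate in the case of a true sentence. -/
theorem T_core (D D1 E : ℝ) (hDp : 1 ≤ D) (h2E : 2 ≤ E)
    (ca' : (2 * (qd l (kp l S.length) : ℝ)) ^ (2 ^ kp l S.length) * D1 ≤ D)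
    (cb' : 8 * ((n : ℝ) + 1) * D1 ≤ D)
    (cc' : (2 * (2 * (qd l (kp l S.length) : ℝ)) ^ (2 ^ kp l S.length) + 1) ^ kp l S.length ≤ E)
    (x : Fin n → ℝ) (hx : ∀ j, |x j| ≤ D1) (hA : ∀ (h : ℝ) (Y : Fin l → ℝ),
      |h| ≤ 1 → (∀ j, |Y j| ≤ 1) → h ^ (2 ^ kp l S.length) ≤ D1 *
        qsum (pick loc (fun j => h * x j) (fun _ => 0) Y) h S) :
    ∃ X₀ : Fin n → ℝ, ∑ b, X₀ b ^ 2 ≤ 1 / 64 ∧ ∀ y : ℕ → ℝ, 1 / 2 ≤
      Gt loc S (kp l S.length) D (2 * E) (E ^ 4) X₀ y 1 := by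
  have hκ1 : 1 ≤ kp l S.length := two_le_kp _ _
  generalize hκ : kp l S.length = κ at *
  obtain ⟨q, hq⟩ : ∃ q, q = qd l κ := ⟨_, rfl⟩
  rw [← hq] at ca' cc'
  have hq2 : 2 ≤ q := by rw [hq]; exact two_le_qd _ _
  have hEp : 1 ≤ E := by linarith
  have hqr : (2 : ℝ) ≤ q := by exact_mod_cast hq2
  refine ⟨fun j => x j / D, ?_, fun y => ?_⟩
  · have h1 : ∀ j, (x j / D) ^ 2 ≤ 1 / (64 * ((n : ℝ) + 1) ^ 2) := by
      intro j
      have h2 : |x j / D| ≤ 1 / (8 * ((n : ℝ) + 1)) := by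
        rw [abs_div, abs_of_pos (by linarith : 0 < D), div_le_div_iff₀ (by linarith)
          (by positivity)]
        have := hx j
        nlinarith [abs_nonneg (x j)]
      calc (x j / D) ^ 2 = |x j / D| ^ 2 := (sq_abs _).symm
        _ ≤ (1 / (8 * ((n : ℝ) + 1))) ^ 2 := pow_le_pow_left₀ (abs_nonneg _) h2 2
        _ = 1 / (64 * ((n : ℝ) + 1) ^ 2) := by
          rw [div_pow, one_pow, mul_pow]; norm_num
    calc ∑ b, (x b / D) ^ 2 ≤ ∑ _b : Fin n, 1 / (64 * ((n : ℝ) + 1) ^ 2) :=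
          Finset.sum_le_sum fun b _ => h1 b
      _ = n * (1 / (64 * ((n : ℝ) + 1) ^ 2)) := by simp
      _ ≤ 1 / 64 := by
        rw [mul_one_div, div_le_div_iff₀ (by positivity) (by norm_num)]
        nlinarith [(Nat.cast_nonneg n : (0 : ℝ) ≤ n)]
  · -- the form at the point
    have hpk : (fun j => y 0 * (D * (x j / D))) = fun j => y 0 * x j := by
      funext j
      field_simp
    unfold Gt
    rw [hpk]
    obtain ⟨A, hAdef⟩ : ∃ A, A = qsum (pick loc (fun j => y 0 * x j) (fun _ => 0)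
      (fun j : Fin l => y (j + 1))) (y 0) S := ⟨_, rfl⟩
    rw [← hAdef]
    have hA0 : 0 ≤ A := by rw [hAdef]; exact qsum_nonneg _ _ _
    have hp0 := pen_nonneg l κ y 1
    have hmain : -(1 / (4 * E)) ≤ D * A - hc l y κ * 1 ^ 3 + E ^ 4 * pen l κ y 1 := by
      obtain ⟨s, hs⟩ : ∃ s, s = ∑ a ∈ range q, y a ^ 2 := ⟨_, rfl⟩
      have hs0 : 0 ≤ s := by rw [hs]; exact Finset.sum_nonneg fun _ _ => sq_nonneg _
      have hpen1 : (s - q) ^ 2 ≤ pen l κ y 1 := by
        unfold pen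
        rw [← hq, ← hs]
        have : 0 ≤ ∑ j ∈ range κ, (hc l y (j + 1) * 1 - hc l y j ^ 2) ^ 2 :=
          Finset.sum_nonneg fun _ _ => sq_nonneg _
        have e : (s - (q : ℝ) * 1 ^ 2) ^ 2 = (s - q) ^ 2 := by ring
        linarith
      have hcsq : ∀ j ≤ κ, hc l y j ^ 2 ≤ s := by
        intro j hj
        unfold hc
        rw [hs]
        split_ifs
        · exact Finset.single_le_sum (f := fun a => y a ^ 2) (fun _ _ => sq_nonneg _)
            (mem_range.2 (by omega))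
        · exact Finset.single_le_sum (f := fun a => y a ^ 2) (fun _ _ => sq_nonneg _)
            (mem_range.2 (by rw [hq]; unfold qd; omega))
      have hE4 : 1 ≤ E ^ 4 := one_le_pow₀ hEp
      have hneg : -(1 / (4 * E)) ≤ 0 := by
        have : 0 < 1 / (4 * E) := by positivity
        linarith
      rcases le_total (2 * (q : ℝ)) s with h2 | h2
      · have h3 := hcsq κ le_rfl
        have h4 : hc l y κ ≤ s := by
          by_contra hcon
          push Not at hcon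
          nlinarith
        have hE16 : 4 ≤ E ^ 4 := by
          have := pow_le_pow_left₀ (by norm_num : (0:ℝ) ≤ 2) h2E 4
          norm_num at this
          linarith
        have h5 : s ^ 2 / 4 ≤ pen l κ y 1 := by
          refine le_trans ?_ hpen1
          nlinarith
        have h6 : s ≤ E ^ 4 * pen l κ y 1 := by
          calc s ≤ 4 * (s ^ 2 / 4) := by nlinarith
            _ ≤ E ^ 4 * pen l κ y 1 := mul_le_mul hE16 h5 (by positivity) (by positivity)
        have h7 : 0 ≤ D * A := by positivity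
        linarith
      · -- the bounded case
        obtain ⟨ρ, hρ⟩ : ∃ ρ : ℝ, ρ = 2 * q := ⟨_, rfl⟩
        rw [← hρ] at ca' cc'
        have hρ1 : 1 ≤ ρ := by linarith
        have hya : ∀ a < q, |y a| ≤ ρ := by
          intro a ha
          have h3 := Finset.single_le_sum (f := fun a => y a ^ 2) (fun _ _ => sq_nonneg _)
            (mem_range.2 ha)
          have h4 : y a ^ 2 ≤ ρ ^ 2 := by
            have : y a ^ 2 ≤ s := by rw [hs]; exact h3
            nlinarith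
          exact abs_le_of_sq_le_sq h4 (by linarith)
        have hhc : ∀ j ≤ κ, |hc l y j| ≤ ρ := by
          intro j hj
          unfold hc
          split_ifs
          · exact hya 0 (by omega)
          · exact hya _ (by rw [hq]; unfold qd; omega)
        have hsqrt : ∀ j < κ, |hc l y (j + 1) * 1 - hc l y j ^ 2| ≤
            Real.sqrt (pen l κ y 1) := by
          intro j hj
          rw [← Real.sqrt_sq_eq_abs]
          apply Real.sqrt_le_sqrt
          have h3 := Finset.single_le_sum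
            (f := fun j => (hc l y (j + 1) * 1 - hc l y j ^ 2) ^ 2) (fun _ _ => sq_nonneg _)
            (mem_range.2 hj)
          refine h3.trans ?_
          unfold pen
          have : 0 ≤ (∑ a ∈ range (qd l κ), y a ^ 2 - (qd l κ : ℝ) * 1 ^ 2) ^ 2 := sq_nonneg _
          linarith
        have herr := chain_err l κ y ρ (Real.sqrt (pen l κ y 1)) hρ1 (Real.sqrt_nonneg _) hhc
          (hya 0 (by omega)) hsqrt κ le_rfl
        have hAK : y 0 ^ (2 ^ κ) ≤ D * A := by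
          have h3 := hA (y 0 / ρ) (fun j => y (j + 1) / ρ) (by
            rw [abs_div, abs_of_pos (by linarith : 0 < ρ), div_le_one (by linarith)]
            exact hya 0 (by omega)) (fun j => by
            rw [abs_div, abs_of_pos (by linarith : 0 < ρ), div_le_one (by linarith)]
            exact hya _ (by have := j.2; rw [hq]; unfold qd; omega))
          have h4 : (pick loc (fun j => y 0 * x j) (fun _ => 0) (fun j : Fin l => y (j + 1))) =
              fun i => ρ * pick loc (fun j => y 0 / ρ * x j) (fun _ => 0)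
                (fun j : Fin l => y (j + 1) / ρ) i := by
            funext i
            rw [pick_scale]
            congr 1
            · funext j; field_simp
            · funext j; ring
            · funext j; field_simp
          have h5 : y 0 = ρ * (y 0 / ρ) := by field_simp
          have h6 : A = ρ ^ 4 * qsum (pick loc (fun j => y 0 / ρ * x j) (fun _ => 0)
              (fun j : Fin l => y (j + 1) / ρ)) (y 0 / ρ) S := by
            rw [hAdef, h4]
            conv_lhs => rw [h5]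
            rw [qsum_scale]
            have : ρ * (y 0 / ρ) / ρ = y 0 / ρ := by field_simp
            rw [this]
          have hA'0 : 0 ≤ qsum (pick loc (fun j => y 0 / ρ * x j) (fun _ => 0)
              (fun j : Fin l => y (j + 1) / ρ)) (y 0 / ρ) S := qsum_nonneg _ _ _
          generalize qsum (pick loc (fun j => y 0 / ρ * x j) (fun _ => 0)
              (fun j : Fin l => y (j + 1) / ρ)) (y 0 / ρ) S = A' at h3 h6 hA'0
          have h7 : y 0 ^ (2 ^ κ) = ρ ^ (2 ^ κ) * (y 0 / ρ) ^ (2 ^ κ) := by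
            rw [← mul_pow, ← h5]
          rw [h7]
          have h8 : 0 < ρ ^ (2 ^ κ) := by positivity
          calc ρ ^ (2 ^ κ) * (y 0 / ρ) ^ (2 ^ κ) ≤ ρ ^ (2 ^ κ) * (D1 * A') :=
                mul_le_mul_of_nonneg_left h3 h8.le
            _ = (ρ ^ (2 ^ κ) * D1) * A' := by ring
            _ ≤ D * A' := mul_le_mul_of_nonneg_right ca' hA'0
            _ ≤ D * A := by
              apply mul_le_mul_of_nonneg_left _ (by linarith)
              rw [h6]
              have : 1 ≤ ρ ^ 4 := one_le_pow₀ hρ1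
              nlinarith
        obtain ⟨r, hr⟩ : ∃ r, r = Real.sqrt (pen l κ y 1) := ⟨_, rfl⟩
        rw [← hr] at herr
        have hr2 : r ^ 2 = pen l κ y 1 := by rw [hr]; exact Real.sq_sqrt hp0
        have hr0 : 0 ≤ r := by rw [hr]; exact Real.sqrt_nonneg _
        have h9 : hc l y κ ≤ y 0 ^ (2 ^ κ) + E * r := by
          have h10 := (le_abs_self _).trans herr
          have h11 : (2 * ρ ^ (2 ^ κ) + 1) ^ κ * r ≤ E * r :=
            mul_le_mul_of_nonneg_right cc' hr0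
          linarith
        rw [← hr2]
        have h12 : -(1 / (4 * E)) ≤ -(E * r) + E ^ 4 * r ^ 2 := by
          have h13 : 0 ≤ (E ^ 2 * r - 1 / (2 * E)) ^ 2 := sq_nonneg _
          have h14 : (E ^ 2 * r - 1 / (2 * E)) ^ 2 = E ^ 4 * r ^ 2 - E * r + 1 / (4 * E ^ 2) := by
            field_simp
            ring
          have h15 : 1 / (4 * E ^ 2) ≤ 1 / (4 * E) := by
            apply one_div_le_one_div_of_le (by positivity)
            nlinarith
          linarith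
        linarith
    have h16 : 2 * E * (-(1 / (4 * E))) = -(1 / 2) := by
      field_simp
      norm_num
    have h17 := mul_le_mul_of_nonneg_left hmain (by positivity : 0 ≤ 2 * E)
    rw [h16] at h17
    linarith

theorem pow_aux (a : ℕ) : (2 : ℝ) ^ 2 ^ (a + 2) = (2 ^ 2 ^ a) ^ 4 := by
  rw [← pow_mul]
  congr 1
  rw [pow_add]
  norm_num

/-- **The case of a true sentence.** -/
theorem T_part (hS : TrueS loc S) :
    ∃ X₀ : Fin n → ℝ, ∑ b, X₀ b ^ 2 ≤ 1 / 64 ∧ ∀ y : ℕ → ℝ, 1 / 2 ≤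
      Gt loc S (kp l S.length) (2 ^ 2 ^ u1 n l S.length) (2 * 2 ^ 2 ^ u2 n l S.length)
        (2 ^ 2 ^ (u2 n l S.length + 2)) X₀ y 1 := by
  obtain ⟨x, hx, hA⟩ := exists_point_of_true loc S hS
  have ca := cond_a n l S.length
  have cb := cond_b n l S.length
  have cc := cond_c n l S.length
  rw [pow_aux]
  refine T_core loc S _ (2 ^ 2 ^ q1 n l S.length) _
    (one_le_pow₀ (by norm_num)) (le_self_pow₀ (by norm_num) (by positivity)) ?_ ?_ ?_ x hx hA
  · exact_mod_cast ca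
  · exact_mod_cast cb
  · exact_mod_cast cc

end Pool.Agent.T9h94.Iso
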