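import Pool.Agent.T9h94.Iso.Sys
import Pool.Agent.T9h94.Iso.NF3
import Pool.Agent.R537.HD.PolyT

/-!
# The instance of the reduction
-/

set_option autoImplicit false

namespace Pool.Agent.T9h94.Iso

open Pool.Agent.NPC Pool.Agent.NPC.ER Pool.Agent.NPC.H612
open Pool.Agent.NPC.R537HD (numT sqT subT eval_numT eval_sqT eval_subT)
open Pool.Agent.R537.RN (pick qsum cerr Gx kap)

/-- A sentence `∃ x ∀ y, φ`. -/
abbrev Inp : Type := List ℕ × Fm

/-- A pair of terms: a value and a derivative. -/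
abbrev P2 : Type := Tm × Tm

/-! ### Pairs of terms -/

/-- Constant. -/
def dcst (t : Tm) : P2 := (t, Tm.zero)
/-- Sum. -/
def dadd (a b : P2) : P2 := (Tm.add a.1 b.1, Tm.add a.2 b.2)
/-- Difference. -/
def dsub (a b : P2) : P2 := (subT a.1 b.1, subT a.2 b.2)
/-- Product. -/
def dmul (a b : P2) : P2 := (Tm.mul a.1 b.1, Tm.add (Tm.mul a.1 b.2) (Tm.mul a.2 b.1))
/-- Square. -/
def dsq (a : P2) : P2 := dmul a a
/-- Sum of a list. -/
def dsum (l : List P2) : P2 := (sumT (l.map Prod.fst), sumT (l.map Prod.snd))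
/-- Power. -/
def tpow (t : Tm) (d : ℕ) : Tm := prodT (List.replicate d t)
/-- Power. -/
def dpow (a : P2) (d : ℕ) : P2 :=
  (tpow a.1 d, Tm.mul (Tm.mul (numT d) (tpow a.1 (d - 1))) a.2)

/-- The value of a pair of terms, a dual number. -/
noncomputable def ev2 (v : ℕ → ℝ) (a : P2) : DualNumber ℝ :=
  TrivSqZeroExt.inl (a.1.eval v) + TrivSqZeroExt.inr (a.2.eval v)

@[simp] theorem ev2_fst (v : ℕ → ℝ) (a : P2) : (ev2 v a).fst = a.1.eval v := by simp [ev2]
@[simp] theorem ev2_snd (v : ℕ → ℝ) (a : P2) : (ev2 v a).snd = a.2.eval v := by simp [ev2]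

theorem ev2_dcst (v : ℕ → ℝ) (t : Tm) : ev2 v (dcst t) = TrivSqZeroExt.inl (t.eval v) := by
  simp [ev2, dcst, Tm.eval]

theorem ev2_dadd (v : ℕ → ℝ) (a b : P2) : ev2 v (dadd a b) = ev2 v a + ev2 v b := by
  apply TrivSqZeroExt.ext <;> simp [dadd, Tm.eval]

theorem ev2_dsub (v : ℕ → ℝ) (a b : P2) : ev2 v (dsub a b) = ev2 v a - ev2 v b := by
  apply TrivSqZeroExt.ext <;> simp [dsub]

theorem ev2_dmul (v : ℕ → ℝ) (a b : P2) : ev2 v (dmul a b) = ev2 v a * ev2 v b := by
  apply TrivSqZeroExt.ext <;> simp [dmul, Tm.eval, mul_comm]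

theorem ev2_dsq (v : ℕ → ℝ) (a : P2) : ev2 v (dsq a) = ev2 v a ^ 2 := by
  rw [dsq, ev2_dmul, sq]

theorem ev2_dsum (v : ℕ → ℝ) (l : List P2) : ev2 v (dsum l) = (l.map (ev2 v)).sum := by
  induction l with
  | nil => apply TrivSqZeroExt.ext <;> simp [dsum, sumT, Tm.eval]
  | cons a l ih =>
    have h : ev2 v (dsum (a :: l)) = ev2 v a + ev2 v (dsum l) := by
      apply TrivSqZeroExt.ext <;> simp [dsum, eval_sumT]
    rw [h, ih]
    simp

theorem eval_tpow (v : ℕ → ℝ) (t : Tm) (d : ℕ) : (tpow t d).eval v = t.eval v ^ d := by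
  unfold tpow
  rw [eval_prodT]
  simp

theorem ev2_dpow (v : ℕ → ℝ) (a : P2) (d : ℕ) : ev2 v (dpow a d) = ev2 v a ^ d := by
  apply TrivSqZeroExt.ext
  · simp [dpow, eval_tpow]
  · rw [TrivSqZeroExt.snd_pow]
    simp [dpow, Tm.eval, eval_tpow]
    ring

theorem sum_range_list {M : Type} [AddCommMonoid M] (f : ℕ → M) (n : ℕ) :
    ((List.range n).map f).sum = ∑ i ∈ Finset.range n, f i := by
  induction n with
  | zero => simp
  | succ n ih => rw [List.range_succ, List.map_append, List.sum_append, ih,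
      Finset.sum_range_succ]; simp

theorem ev2_dsum_range (v : ℕ → ℝ) (f : ℕ → P2) (n : ℕ) :
    ev2 v (dsum ((List.range n).map f)) = ∑ i ∈ Finset.range n, ev2 v (f i) := by
  rw [ev2_dsum, List.map_map]
  exact sum_range_list _ n

/-! ### The sizes -/

section

variable (p : Inp)

/-- The system of constraints. -/
def nS : List ER.Con := sysOf (Fm.not p.2)
/-- Its variables. -/
def vS : List ℕ := (nS p).flatMap Con.vars
/-- The size of the first block. -/
def dn : ℕ := p.1.length
/-- The size of the second block. -/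
def dl : ℕ := (vS p).length + 1
/-- The number of the constraints. -/
def ds : ℕ := (nS p).length
/-- The exponent. -/
def dk : ℕ := kp (dl p) (ds p)
/-- The number of universal variables. -/
def dq : ℕ := qd (dl p) (dk p)
/-- The number of directions. -/
def dS0 : ℕ := (dn p + 1) * (dn p + 1) * dq p + 1
/-- The number of parameters. -/
def dL : ℕ := dn p + dS0 p * dq p * (2 * (dn p + 1))
/-- The number of bits. -/
def dnb : ℕ := dL p * (((dn p + 1) * (dq p + 1) * (2 * dn p + 2) + 2 * dn p + 40) *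
  (dL p + 1) + 1) + (dn p + 1) * dS0 p * (dn p + 1 + (dn p + 1) * (dq p + 1)) + 1
/-- First constant. -/
def U1 : ℕ := u1 (dn p) (dl p) (ds p)
/-- Second constant. -/
def U2 : ℕ := u2 (dn p) (dl p) (ds p)
/-- Third constant. -/
def U3 : ℕ := dq p * (dn p + 3) + 4
/-- Fourth constant. -/
def U4 : ℕ := U3 p + (dnb p + dL p + 2 * (dn p + 1) * (dq p + dS0 p * dq p + 1))

/-- The places of the variables. -/
def loc (i : ℕ) : Fin (dn p) ⊕ (Fin 0 ⊕ Fin (dl p)) :=
  if h : i % 2 = 0 ∧ i / 2 ∈ p.1 then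
    Sum.inl ⟨p.1.idxOf (i / 2), List.idxOf_lt_length_iff.2 h.2⟩
  else Sum.inr (Sum.inr ⟨(vS p).idxOf i, Nat.lt_succ_of_le List.idxOf_le_length⟩)

/-- The data of the reduction. -/
noncomputable def dat : Dat where
  n := dn p
  l := dl p
  loc := loc p
  S := nS p
  S0 := dS0 p
  D := 2 ^ 2 ^ U1 p
  C := 2 * 2 ^ 2 ^ U2 p
  B := 2 ^ 2 ^ (U2 p + 2)
  β := (1 / 2) ^ 2 ^ U3 p

/-! ### The indices -/

/-- Index of the value. -/
def iV : ℕ := dn p + (dn p + 1) * dq p
/-- Index of the weights. -/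
def iW : ℕ := iV p + 1
/-- Index of the large constants. -/
def iA : ℕ := iW p + (dn p + 1)
/-- Index of the small constants. -/
def iB : ℕ := iA p + (U2 p + 2 + 1)
/-- Index of the bits. -/
def iC : ℕ := iB p + (U4 p + 1)
/-- Index of the powers of two. -/
def iP : ℕ := iC p + dL p * dnb p
/-- Index of the mode. -/
def iM : ℕ := iP p + (dnb p + 1)
/-- Index of the height. -/
def iT : ℕ := iM p + 1
/-- Index of the cone. -/
def iZ : ℕ := iT p + 1
/-- The dimension. -/
def dim : ℕ := iZ p + dq p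

/-! ### The terms -/

/-- The parameters. -/
def cT (k : ℕ) : Tm := Tm.mul (Tm.var (iB p + U4 p)) (sumT ((List.range (dnb p)).map fun r =>
  Tm.mul (Tm.var (iP p + r)) (Tm.var (iC p + k * dnb p + r))))

/-- Constant `D`. -/
def tD : P2 := dcst (Tm.var (iA p + U1 p))
/-- Constant `C`. -/
def tC : P2 := dcst (Tm.add (Tm.var (iA p + U2 p)) (Tm.var (iA p + U2 p)))
/-- Constant `B`. -/
def tB : P2 := dcst (Tm.var (iA p + (U2 p + 2)))
/-- Constant `β`. -/
def tβ : P2 := dcst (Tm.var (iB p + U3 p))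

/-- The variable `X b`, differentiated in the direction `k`. -/
def tX (k b : ℕ) : P2 := (Tm.var b, if b = k then Tm.one else Tm.zero)
/-- The variable `y i a`, differentiated in the direction `k`. -/
def tY (i k a : ℕ) : P2 := (Tm.var (dn p + i * dq p + a), if dn p + a = k then Tm.one else Tm.zero)
/-- The variable `z a`. -/
def tZ (a : ℕ) : P2 := dcst (Tm.var (iZ p + a))

/-- The block of the variables: `none` for the cone. -/
def tU (o : Option ℕ) (k a : ℕ) : P2 := match o with
  | none => tZ p a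
  | some i => tY p i k a

variable (o : Option ℕ) (k : ℕ)

/-- The values of the variables of the system. -/
def tPick (i : ℕ) : P2 :=
  if i % 2 = 0 ∧ i / 2 ∈ p.1 then dmul (tU p o k 0) (dmul (tD p) (tX k (p.1.idxOf (i / 2))))
  else tU p o k ((vS p).idxOf i + 1)

/-- The form of a constraint. -/
def tCerr (c : ER.Con) : P2 :=
  if c.code.1 = 0 then dmul (tU p o k 0) (dsub (tPick p o k c.code.2.1) (tU p o k 0))
  else if c.code.1 = 1 then dmul (tU p o k 0)
    (dsub (dadd (tPick p o k c.code.2.1) (tPick p o k c.code.2.2.1))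
      (tPick p o k c.code.2.2.2))
  else dsub (dmul (tPick p o k c.code.2.1) (tPick p o k c.code.2.2.1))
    (dmul (tU p o k 0) (tPick p o k c.code.2.2.2))

/-- The sum of squares. -/
def tQ : P2 := dsum ((nS p).map fun c => dsq (tCerr p o k c))

/-- The chain. -/
def tH (j : ℕ) : P2 := if j = 0 then tU p o k 0 else tU p o k (dl p + 1 + j)

/-- The penalty. -/
def tPen (t : P2) : P2 :=
  dadd (dsq (dsub (dsum ((List.range (dq p)).map fun a => dsq (tU p o k a)))
    (dmul (dcst (numT (dq p))) (dsq t))))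
    (dsum ((List.range (dk p)).map fun j =>
      dsq (dsub (dmul (tH p o k (j + 1)) t) (dsq (tH p o k j)))))

/-- The main polynomial. -/
def tG (t : P2) : P2 :=
  dadd (dsq (dsq t)) (dmul (tC p) (dadd (dsub (dmul (tD p) (tQ p o k))
    (dmul (tH p o k (dk p)) (dmul t (dsq t)))) (dmul (tB p) (tPen p o k t))))

/-- The linear forms. -/
def tZs (s : ℕ) : P2 :=
  dsum ((List.range (dq p)).map fun b => dmul (dcst (tpow (numT s) (min b (dq p)))) (tU p o k b))

/-- The monomials. -/
def tMn (a : ℕ) : P2 := if a = 0 then dcst Tm.one else tU p o k a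

/-- The perturbation. -/
def tPc : P2 :=
  dsum ((List.range (dS0 p)).map fun s => dsum ((List.range (dq p)).map fun a =>
    dsum ((List.range (2 * (dn p + 1))).map fun d =>
      dmul (dcst (cT p (dn p + ((s * dq p + a) * (2 * (dn p + 1)) + d))))
        (dmul (tMn p o k a) (dpow (tZs p o k s) (min d (2 * (dn p + 1))))))))

/-- The part without parameters. -/
def tF0 : P2 :=
  dsub (dadd (tG p o k (dcst Tm.one)) (dmul (tβ p) (dsum ((List.range (dq p)).map fun a =>
    dpow (tU p o k a) (2 * dn p + 4))))) (dsum ((List.range (dn p)).map fun b => dsq (tX k b)))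

/-- The perturbed polynomial. -/
def tF : P2 :=
  dadd (tF0 p o k) (dadd (dsum ((List.range (dn p)).map fun b =>
    dmul (dcst (cT p b)) (tX k b))) (tPc p o k))

/-! ### The formula -/

/-- A chain of squares. -/
def chain (b k : ℕ) : List Fm :=
  (List.range k).map fun j => Fm.eq (Tm.var (b + j + 1)) (sqT (Tm.var (b + j)))

/-- Doubling. -/
def dbl (b k : ℕ) : List Fm :=
  (List.range k).map fun j => Fm.eq (Tm.var (b + j + 1)) (Tm.add (Tm.var (b + j)) (Tm.var (b + j)))

/-- The constants, the bits and the bounds. -/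
def fC : List Fm :=
  Fm.eq (Tm.var (iA p)) (Tm.add Tm.one Tm.one) :: (chain (iA p) (U2 p + 2) ++
    Fm.eq (Tm.add (Tm.var (iB p)) (Tm.var (iB p))) Tm.one :: (chain (iB p) (U4 p) ++
      Fm.eq (Tm.var (iP p)) Tm.one :: (dbl (iP p) (dnb p) ++
        ((List.range (dL p * dnb p)).map (fun r =>
          Fm.eq (sqT (Tm.var (iC p + r))) (Tm.var (iC p + r))) ++
          (List.range (dn p)).map fun b => Fm.le (sqT (Tm.var b)) (numT 4)))))

/-- The critical system with `j + 1` points. -/
def fJ (j : ℕ) : List Fm :=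
  Fm.eq (sumT ((List.range (dn p + 1)).map fun i => Tm.var (iW p + i))) Tm.one ::
    ((List.range (dn p + 1)).map (fun i => if i ≤ j then
        conj (Fm.eq (tF p (some i) (dn p + dq p)).1 (Tm.var (iV p)) ::
          (List.range (dq p)).map fun a => Fm.eq (tF p (some i) (dn p + a)).2 Tm.zero)
      else conj (Fm.eq (Tm.var (iW p + i)) Tm.zero ::
          (List.range (dq p)).map fun a => Fm.eq (Tm.var (dn p + i * dq p + a)) Tm.zero)) ++
    (List.range (dn p)).map fun b => Fm.eq (sumT ((List.range (dn p + 1)).map fun i =>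
      Tm.mul (Tm.var (iW p + i)) (tF p (some i) b).2)) Tm.zero)

/-- The discrete set. -/
def fD : Fm :=
  conj (fC p ++
    (Fm.eq (prodT ((List.range (dn p + 1)).map fun j => subT (Tm.var (iM p)) (numT j))) Tm.zero ::
      (List.range (dn p + 1)).map fun j =>
        Fm.or (Fm.not (Fm.eq (Tm.var (iM p)) (numT j))) (conj (fJ p j))))

/-- The cone. -/
def fK : Fm :=
  Fm.or (conj (Fm.eq (Tm.var (iT p)) Tm.zero ::
      (List.range (dq p)).map fun a => Fm.eq (Tm.var (iZ p + a)) Tm.zero))
    (conj (Fm.lt Tm.zero (Tm.var (iT p)) ::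
      (Fm.le (tG p none (dn p + dq p) (dcst (Tm.var (iT p)))).1 Tm.zero ::
        (List.range (dq p)).map fun a => Fm.le (sqT (Tm.var (iZ p + a)))
          (Tm.mul (numT (dq p)) (sqT (Tm.var (iT p)))))))

/-- The formula. -/
def fS : Fm := Fm.and (fD p) (fK p)

/-- An instance: the dimension (written in unary) and a quantifier-free formula. -/
abbrev IInst : Type := List Unit × Fm

/-- The instance of the reduction. -/
def inst : IInst := (List.replicate (dim p) (), fS p)

end

end Pool.Agent.T9h94.Iso
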