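import Pool.Agent.T9h94.Iso.Top3

/-!
# The problem ISOLATED-POINT-EXISTENCE, and the sentence for the membership
-/

set_option autoImplicit false

namespace Pool.Agent.T9h94.Iso.Red

open Pool.Agent.NPC Pool.Agent.NPC.ER Pool.Agent.NPC.H612
open Pool.Agent.NPC.R537HD (asg semi numT sqT subT eval_numT eval_sqT eval_subT)

/-- The variables of the formula are among `x₀, …, x_{n-1}`. -/
def InDim (n : ℕ) (φ : Fm) : Prop := ∀ i, Tok.var i ∈ φ.toks → i < n

/-- ISOLATED-POINT-EXISTENCE: the variables of the formula are among `x₀, …, x_{n-1}`, and the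
semialgebraic set in `ℝⁿ` given by the formula has an isolated point. -/
def IPE (I : IInst) : Prop := InDim I.1.length I.2 ∧ HasIso I.1.length I.2

/-! ### The sentence for the membership: the variables `x₀, …, x_{n-1}` are the point `y`
(universally quantified), `x_n, …, x_{2n-1}` is the isolated point, `x_{2n}` is the radius. -/

/-- The test of `InDim`. -/
def okB (I : IInst) : Bool :=
  I.2.toks.all fun t => !decide (t.code.1 = 0) || decide (t.code.2 < I.1.length)

/-- The existentially quantified variables. -/
def mE (I : IInst) : List ℕ := (List.range (I.1.length + 1)).map fun i => I.1.length + i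

/-- `y = x` -/
def mEq (I : IInst) : Fm :=
  conj ((List.range I.1.length).map fun i => Fm.eq (Tm.var i) (Tm.var (I.1.length + i)))

/-- `|y - x|² < ε²` -/
def mLt (I : IInst) : Fm :=
  Fm.lt (sumT ((List.range I.1.length).map fun i => sqT (subT (Tm.var i)
    (Tm.var (I.1.length + i))))) (sqT (Tm.var (I.1.length + I.1.length)))

/-- `ε > 0`, `y = x → φ(y)`, `φ(y) ∧ |y - x|² < ε² → y = x` -/
def mS (I : IInst) : Fm :=
  Fm.and (Fm.lt Tm.zero (Tm.var (I.1.length + I.1.length)))
    (Fm.and (Fm.or (Fm.not (mEq I)) I.2) (Fm.or (Fm.not (Fm.and I.2 (mLt I))) (mEq I)))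

/-- The sentence. -/
def mF (I : IInst) : List ℕ × Fm := if okB I = true then (mE I, mS I) else ([], Fm.ff)

/-- (M1) to prove: polynomial time -/
def StmtM1 : Prop := Poly mF

/-- (M2) to prove: the meaning of the sentence -/
def StmtM2 : Prop := ∀ I : IInst, IPE I ↔ EAR (mF I)

/-- (M3) to prove: the variables of the formula of the reduction -/
def StmtM3 : Prop := ∀ p : Inp, InDim (dim p) (fS p)

theorem inEAR_of (h1 : StmtM1) (h2 : StmtM2) : InEAR (lang IPE) := InEAR.of_poly h1 h2

end Pool.Agent.T9h94.Iso.Red
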