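import Pool.Agent.T9h94.Iso.Build

/-!
# The values of the terms of the reduction
-/

set_option autoImplicit false

namespace Pool.Agent.T9h94.Iso

open Pool.Agent.NPC Pool.Agent.NPC.ER Pool.Agent.NPC.H612
open Pool.Agent.NPC.R537HD (numT sqT subT eval_numT eval_sqT eval_subT)
open Pool.Agent.R537.RN (pick qsum cerr Gx kap)

variable (p : Inp) (o : Option ℕ) (k : ℕ) (v : ℕ → ℝ)

/-- The values of the variables. -/
noncomputable def eU (a : ℕ) : DualNumber ℝ := ev2 v (tU p o k a)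

theorem ev2_tPick (i : ℕ) : ev2 v (tPick p o k i) =
    pick (loc p) (fun j => eU p o k v 0 * (ev2 v (tD p) * ev2 v (tX k j))) (fun _ => 0)
      (fun j => eU p o k v (j + 1)) i := by
  unfold tPick pick loc
  by_cases h1 : i % 2 = 0 ∧ i / 2 ∈ p.1
  · rw [if_pos h1, dif_pos h1]
    simp only [Sum.elim_inl, ev2_dmul]
    rfl
  · rw [if_neg h1, dif_neg h1]
    rfl

theorem ev2_tCerr (c : ER.Con) : ev2 v (tCerr p o k c) =
    cerr (fun i => ev2 v (tPick p o k i)) (eU p o k v 0) c := by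
  cases c <;> simp [tCerr, Con.code, cerr, ev2_dmul, ev2_dsub, ev2_dadd, eU]

theorem ev2_tQ : ev2 v (tQ p o k) =
    qsum (fun i => ev2 v (tPick p o k i)) (eU p o k v 0) (nS p) := by
  unfold tQ qsum
  rw [ev2_dsum, List.map_map]
  congr 1
  refine List.map_congr_left fun c _ => ?_
  simp [ev2_dsq, ev2_tCerr]

theorem ev2_tH (j : ℕ) : ev2 v (tH p o k j) = hc (dl p) (eU p o k v) j := by
  unfold tH hc
  split_ifs <;> rfl

theorem ev2_num (n : ℕ) : ev2 v (dcst (numT n)) = (n : DualNumber ℝ) := by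
  rw [ev2_dcst, eval_numT, TrivSqZeroExt.inl_natCast]

theorem ev2_one : ev2 v (dcst Tm.one) = 1 := by
  rw [ev2_dcst]; simp [Tm.eval]

theorem ev2_tPen (t : P2) : ev2 v (tPen p o k t) =
    pen (dl p) (dk p) (eU p o k v) (ev2 v t) := by
  unfold tPen pen
  simp only [ev2_dadd, ev2_dsq, ev2_dsub, ev2_dmul, ev2_dsum_range, ev2_tH, ev2_num]
  rfl

theorem ev2_tG (t : P2) : ev2 v (tG p o k t) =
    Gt (loc p) (nS p) (dk p) (ev2 v (tD p)) (ev2 v (tC p)) (ev2 v (tB p))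
      (fun b => ev2 v (tX k b)) (eU p o k v) (ev2 v t) := by
  unfold tG Gt
  simp only [ev2_dadd, ev2_dsq, ev2_dsub, ev2_dmul, ev2_tH, ev2_tPen, ev2_tQ]
  have h : (fun i => ev2 v (tPick p o k i)) =
      pick (loc p) (fun j => eU p o k v 0 * (ev2 v (tD p) * ev2 v (tX k j))) (fun _ => 0)
      (fun j => eU p o k v (j + 1)) := funext (ev2_tPick p o k v)
  rw [h]
  ring

theorem ev2_tZs (s : ℕ) : ev2 v (tZs p o k s) = zs (dq p) s (eU p o k v) := by
  unfold tZs zs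
  rw [ev2_dsum_range]
  refine Finset.sum_congr rfl fun b hb => ?_
  have hb' := Finset.mem_range.1 hb
  rw [ev2_dmul, ev2_dcst, eval_tpow, eval_numT, min_eq_left hb'.le]
  have h1 : (TrivSqZeroExt.inl ((s : ℝ) ^ b) : DualNumber ℝ) = (s : DualNumber ℝ) ^ b := by
    rw [← TrivSqZeroExt.inl_natCast, ← TrivSqZeroExt.inl_pow]
  rw [h1]
  rfl

theorem ev2_tMn (a : ℕ) : ev2 v (tMn p o k a) = mn a (eU p o k v) := by
  unfold tMn mn
  split_ifs
  · exact ev2_one v
  · rfl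

theorem ev2_tPc : ev2 v (tPc p o k) =
    Pc (dq p) (dn p + 1) (dS0 p) (fun i => ev2 v (dcst (cT p (dn p + i)))) (eU p o k v) := by
  unfold tPc Pc
  rw [ev2_dsum_range]
  refine Finset.sum_congr rfl fun s _ => ?_
  rw [ev2_dsum_range]
  refine Finset.sum_congr rfl fun a _ => ?_
  rw [ev2_dsum_range]
  refine Finset.sum_congr rfl fun d hd => ?_
  have hd' := Finset.mem_range.1 hd
  rw [ev2_dmul, ev2_dmul, ev2_dpow, min_eq_left hd'.le, ev2_tZs, ev2_tMn]

theorem ev2_tF0 : ev2 v (tF0 p o k) =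
    F0 (loc p) (nS p) (dk p) (ev2 v (tD p)) (ev2 v (tC p)) (ev2 v (tB p)) (ev2 v (tβ p))
      (fun b => ev2 v (tX k b)) (eU p o k v) := by
  unfold tF0 F0
  simp only [ev2_dadd, ev2_dsub, ev2_dmul, ev2_dsum_range, ev2_dpow, ev2_dsq, ev2_tG, ev2_one]
  rw [Fin.sum_univ_eq_sum_range (fun b => ev2 v (tX k b) ^ 2)]
  rfl

theorem ev2_tF : ev2 v (tF p o k) =
    Ft (loc p) (nS p) (dk p) (dS0 p) (ev2 v (tD p)) (ev2 v (tC p)) (ev2 v (tB p)) (ev2 v (tβ p))
      (fun i => ev2 v (dcst (cT p i))) (fun b => ev2 v (tX k b)) (eU p o k v) := by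
  unfold tF Ft
  simp only [ev2_dadd, ev2_dmul, ev2_dsum_range, ev2_tF0, ev2_tPc]
  rw [Fin.sum_univ_eq_sum_range (fun b => ev2 v (dcst (cT p b)) * ev2 v (tX k b))]
  rfl

/-! ### The real values -/

theorem fst_ring : ∃ f : DualNumber ℝ →+* ℝ, ∀ x, f x = x.fst :=
  ⟨(TrivSqZeroExt.fstHom ℝ ℝ ℝ).toRingHom, fun _ => rfl⟩

theorem eval_tG (t : Tm) : (tG p o k (dcst t)).1.eval v =
    Gt (loc p) (nS p) (dk p) ((tD p).1.eval v) ((tC p).1.eval v) ((tB p).1.eval v)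
      (fun b => v b) (fun a => (tU p o k a).1.eval v) (t.eval v) := by
  obtain ⟨f, hf⟩ := fst_ring
  have h := congrArg f (ev2_tG p o k v (dcst t))
  rw [Gt_map] at h
  simp only [hf, ev2_fst, eU] at h
  exact h

theorem eval_tF : (tF p o k).1.eval v =
    Ft (loc p) (nS p) (dk p) (dS0 p) ((tD p).1.eval v) ((tC p).1.eval v) ((tB p).1.eval v)
      ((tβ p).1.eval v) (fun i => (cT p i).eval v) (fun b => v b)
      (fun a => (tU p o k a).1.eval v) := by
  obtain ⟨f, hf⟩ := fst_ring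
  have h := congrArg f (ev2_tF p o k v)
  rw [Ft_map] at h
  simp only [hf, ev2_fst, eU] at h
  exact h

end Pool.Agent.T9h94.Iso
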