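import Pool.Agent.T9h94.Iso.Main
import Pool.Agent.T9h94.Iso.Def

/-!
# Completeness
-/

set_option autoImplicit false

namespace Pool.Agent.T9h94.Iso.Red

open Pool.Agent.NPC Pool.Agent.NPC.ER

/-- **The reduction**, for the problem with well-formed inputs. -/
theorem reduction' (h3 : StmtM3) (p : List ℕ × Fm) : EAR p ↔ IPE (inst p) := by
  have h1 := reduction p
  have h2 : InDim (inst p).1.length (inst p).2 := by
    change InDim (List.replicate (dim p) ()).length (fS p)
    rw [List.length_replicate]
    exact h3 p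
  exact h1.trans ⟨fun h => ⟨h2, h⟩, fun h => h.2⟩

theorem hard' (h3 : StmtM3) : EARHard (lang IPE) :=
  EARHard.of_poly (F := inst) Pool.Agent.NPC.T9h75Iso.poly_inst (reduction' h3)

/-- **Completeness.** -/
theorem complete (h1 : StmtM1) (h2 : StmtM2) (h3 : StmtM3) : EARComplete (lang IPE) :=
  ⟨inEAR_of h1 h2, hard' h3⟩

end Pool.Agent.T9h94.Iso.Red
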