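import Pool.Agent.T9h94.Iso.NF2

/-!
# The polynomials of the reduction, over any commutative ring
-/

set_option autoImplicit false

namespace Pool.Agent.T9h94.Iso

open Finset Pool.Agent.NPC Pool.Agent.R537.RN

section ring

variable {R R' : Type} [CommRing R] [CommRing R']
variable {n l : ℕ} (loc : ℕ → Fin n ⊕ (Fin 0 ⊕ Fin l)) (S : List ER.Con)

/-- The entries of the chain of squares. -/
def hc (l : ℕ) (y : ℕ → R) (j : ℕ) : R := if j = 0 then y 0 else y (l + 1 + j)

/-- The number of the universally quantified variables. -/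
def qd (l κ : ℕ) : ℕ := l + κ + 2

/-- The penalty. -/
def pen (l κ : ℕ) (y : ℕ → R) (t : R) : R :=
  (∑ a ∈ range (qd l κ), y a ^ 2 - (qd l κ : R) * t ^ 2) ^ 2 +
    ∑ j ∈ range κ, (hc l y (j + 1) * t - hc l y j ^ 2) ^ 2

/-- The homogeneous form of the main polynomial. -/
def Gt (κ : ℕ) (D C B : R) (X : Fin n → R) (y : ℕ → R) (t : R) : R :=
  t ^ 4 + C * (D * qsum (pick loc (fun j => y 0 * (D * X j)) (fun _ => 0)
    (fun j : Fin l => y (j + 1))) (y 0) S - hc l y κ * t ^ 3 + B * pen l κ y t)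

/-- The linear form with the direction `s`. -/
def zs (q s : ℕ) (y : ℕ → R) : R := ∑ b ∈ range q, (s : R) ^ b * y b

/-- The factor `1` or `y a`. -/
def mn (a : ℕ) (y : ℕ → R) : R := if a = 0 then 1 else y a

/-- The perturbation. -/
def Pc (q J S0 : ℕ) (c : ℕ → R) (y : ℕ → R) : R :=
  ∑ s ∈ range S0, ∑ a ∈ range q, ∑ d ∈ range (2 * J),
    c ((s * q + a) * (2 * J) + d) * (mn a y * zs q s y ^ d)

/-- The part without the parameters. -/
def F0 (κ : ℕ) (D C B β : R) (X : Fin n → R) (y : ℕ → R) : R :=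
  Gt loc S κ D C B X y 1 + β * ∑ a ∈ range (qd l κ), y a ^ (2 * n + 4) - ∑ b, X b ^ 2

/-- The perturbed polynomial. -/
def Ft (κ S0 : ℕ) (D C B β : R) (c : ℕ → R) (X : Fin n → R) (y : ℕ → R) : R :=
  F0 loc S κ D C B β X y + (∑ b : Fin n, c b * X b +
    Pc (qd l κ) (n + 1) S0 (fun i => c (n + i)) y)

variable (f : R →+* R')

theorem hc_map (y : ℕ → R) (j : ℕ) : f (hc l y j) = hc l (fun a => f (y a)) j := by
  unfold hc; split_ifs <;> rfl

theorem pen_map (κ : ℕ) (y : ℕ → R) (t : R) :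
    f (pen l κ y t) = pen l κ (fun a => f (y a)) (f t) := by
  simp only [pen, map_add, map_sub, map_mul, map_pow, map_sum, hc_map, map_natCast]

theorem Gt_map (κ : ℕ) (D C B : R) (X : Fin n → R) (y : ℕ → R) (t : R) :
    f (Gt loc S κ D C B X y t) =
      Gt loc S κ (f D) (f C) (f B) (fun b => f (X b)) (fun a => f (y a)) (f t) := by
  simp only [Gt, map_add, map_sub, map_mul, map_pow, qsum_map, pick_map, map_zero, hc_map,
    pen_map]

theorem zs_map (q s : ℕ) (y : ℕ → R) : f (zs q s y) = zs q s (fun a => f (y a)) := by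
  simp only [zs, map_sum, map_mul, map_pow, map_natCast]

theorem mn_map (a : ℕ) (y : ℕ → R) : f (mn a y) = mn a (fun a => f (y a)) := by
  unfold mn; split_ifs <;> simp

theorem Pc_map (q J S0 : ℕ) (c : ℕ → R) (y : ℕ → R) :
    f (Pc q J S0 c y) = Pc q J S0 (fun i => f (c i)) (fun a => f (y a)) := by
  simp only [Pc, map_sum, map_mul, map_pow, zs_map, mn_map]

theorem F0_map (κ : ℕ) (D C B β : R) (X : Fin n → R) (y : ℕ → R) :
    f (F0 loc S κ D C B β X y) =
      F0 loc S κ (f D) (f C) (f B) (f β) (fun b => f (X b)) (fun a => f (y a)) := by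
  simp only [F0, map_add, map_sub, map_mul, map_pow, map_sum, Gt_map, map_one]

theorem Ft_map (κ S0 : ℕ) (D C B β : R) (c : ℕ → R) (X : Fin n → R) (y : ℕ → R) :
    f (Ft loc S κ S0 D C B β c X y) =
      Ft loc S κ S0 (f D) (f C) (f B) (f β) (fun i => f (c i)) (fun b => f (X b))
        (fun a => f (y a)) := by
  simp only [Ft, map_add, map_mul, map_sum, F0_map, Pc_map]

/-! Only the first values of `y` matter. -/

theorem Gt_congr (κ : ℕ) (D C B : R) (X : Fin n → R) (y y' : ℕ → R) (t : R)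
    (h : ∀ a < qd l κ, y a = y' a) : Gt loc S κ D C B X y t = Gt loc S κ D C B X y' t := by
  have h0 : y 0 = y' 0 := h 0 (by unfold qd; omega)
  have hj : (fun j : Fin l => y (j + 1)) = fun j : Fin l => y' (j + 1) := by
    funext j
    exact h _ (by unfold qd; omega)
  have hh : ∀ j ≤ κ, hc l y j = hc l y' j := by
    intro j hj
    unfold hc
    split_ifs
    · exact h0
    · exact h _ (by unfold qd; omega)
  have s1 : ∑ a ∈ range (qd l κ), y a ^ 2 = ∑ a ∈ range (qd l κ), y' a ^ 2 :=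
    Finset.sum_congr rfl fun a ha => by rw [h a (mem_range.1 ha)]
  have s2 : ∑ j ∈ range κ, (hc l y (j + 1) * t - hc l y j ^ 2) ^ 2 =
      ∑ j ∈ range κ, (hc l y' (j + 1) * t - hc l y' j ^ 2) ^ 2 :=
    Finset.sum_congr rfl fun j hj' => by
      rw [hh (j + 1) (by have := mem_range.1 hj'; omega),
        hh j (by have := mem_range.1 hj'; omega)]
  unfold Gt pen
  rw [h0, hj, hh κ le_rfl, s1, s2]

theorem zs_congr (q s : ℕ) (y y' : ℕ → R) (h : ∀ a < q, y a = y' a) : zs q s y = zs q s y' :=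
  Finset.sum_congr rfl fun b hb => by rw [h b (mem_range.1 hb)]

theorem mn_congr (a : ℕ) (y y' : ℕ → R) (h : y a = y' a) : mn a y = mn a y' := by
  unfold mn; split_ifs <;> simp [h]

theorem Pc_congr (q J S0 : ℕ) (c : ℕ → R) (y y' : ℕ → R) (h : ∀ a < q, y a = y' a) :
    Pc q J S0 c y = Pc q J S0 c y' :=
  Finset.sum_congr rfl fun s _ => Finset.sum_congr rfl fun a ha =>
    Finset.sum_congr rfl fun d _ => by
      rw [zs_congr q s y y' h, mn_congr a y y' (h a (mem_range.1 ha))]

/-- The homogeneity. -/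
theorem Gt_scale (κ : ℕ) (D C B : R) (X : Fin n → R) (y : ℕ → R) (t lam : R) :
    Gt loc S κ D C B X (fun a => lam * y a) (lam * t) = lam ^ 4 * Gt loc S κ D C B X y t := by
  have hh : ∀ j, hc l (fun a => lam * y a) j = lam * hc l y j := by
    intro j; unfold hc; split_ifs <;> rfl
  have e1 : (pick loc (fun j => lam * y 0 * (D * X j)) (fun _ => 0)
      (fun j : Fin l => lam * y (j + 1))) = fun i => lam * pick loc
      (fun j => y 0 * (D * X j)) (fun _ => 0) (fun j : Fin l => y (j + 1)) i := by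
    funext i
    rw [pick_scale]
    congr 1
    · funext j; ring
    · funext j; ring
  have e2 : pen l κ (fun a => lam * y a) (lam * t) = lam ^ 4 * pen l κ y t := by
    unfold pen
    simp only [hh]
    have a1 : ∑ a ∈ range (qd l κ), (lam * y a) ^ 2 = lam ^ 2 * ∑ a ∈ range (qd l κ), y a ^ 2 := by
      rw [Finset.mul_sum]
      exact Finset.sum_congr rfl fun _ _ => by ring
    have a2 : ∑ j ∈ range κ, (lam * hc l y (j + 1) * (lam * t) - (lam * hc l y j) ^ 2) ^ 2 =
        lam ^ 4 * ∑ j ∈ range κ, (hc l y (j + 1) * t - hc l y j ^ 2) ^ 2 := by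
      rw [Finset.mul_sum]
      exact Finset.sum_congr rfl fun _ _ => by ring
    rw [a1, a2]
    ring
  unfold Gt
  rw [e1, e2, qsum_scale, hh]
  ring

end ring

end Pool.Agent.T9h94.Iso
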