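import Pool.Agent.T9h94.Iso.Sent

/-!
# The meaning of the formula of the reduction
-/

set_option autoImplicit false

namespace Pool.Agent.T9h94.Iso.Red

open Pool.Agent.NPC Pool.Agent.NPC.ER Pool.Agent.NPC.H612
open Pool.Agent.NPC.R537HD (numT sqT subT eval_numT eval_sqT eval_subT)
open Pool.Agent.R537.RN (pick qsum cerr Gx kap)

theorem Ft_congr {R : Type} [CommRing R] {n l : ℕ} (loc : ℕ → Fin n ⊕ (Fin 0 ⊕ Fin l))
    (S : List ER.Con) (κ S0 : ℕ) (D C B β : R) (c c' : ℕ → R) (X : Fin n → R) (y y' : ℕ → R)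
    (hy : ∀ a < qd l κ, y a = y' a)
    (hc : ∀ k < n + S0 * qd l κ * (2 * (n + 1)), c k = c' k) :
    Ft loc S κ S0 D C B β c X y = Ft loc S κ S0 D C B β c' X y' := by
  unfold Ft
  have e1 : F0 loc S κ D C B β X y = F0 loc S κ D C B β X y' := by
    unfold F0
    rw [Gt_congr loc S κ D C B X y y' 1 hy, Finset.sum_congr rfl fun a ha => by
      rw [hy a (Finset.mem_range.1 ha)]]
  have e2 : ∑ b : Fin n, c b * X b = ∑ b : Fin n, c' b * X b :=
    Finset.sum_congr rfl fun b _ => by rw [hc b (by have := b.2; omega)]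
  have e3 : Pc (qd l κ) (n + 1) S0 (fun i => c (n + i)) y =
      Pc (qd l κ) (n + 1) S0 (fun i => c' (n + i)) y' := by
    rw [Pc_congr _ _ _ _ y y' hy]
    unfold Pc
    refine Finset.sum_congr rfl fun s hs => Finset.sum_congr rfl fun a ha =>
      Finset.sum_congr rfl fun d hd => ?_
    have hs' := Finset.mem_range.1 hs
    have ha' := Finset.mem_range.1 ha
    have hd' := Finset.mem_range.1 hd
    have h1 : s * qd l κ + a < S0 * qd l κ := by
      calc s * qd l κ + a < s * qd l κ + qd l κ := by omega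
        _ = (s + 1) * qd l κ := by ring
        _ ≤ S0 * qd l κ := Nat.mul_le_mul_right _ hs'
    have h2 : (s * qd l κ + a) * (2 * (n + 1)) + d < S0 * qd l κ * (2 * (n + 1)) := by
      calc (s * qd l κ + a) * (2 * (n + 1)) + d
          < (s * qd l κ + a) * (2 * (n + 1)) + 2 * (n + 1) := by omega
        _ = (s * qd l κ + a + 1) * (2 * (n + 1)) := by ring
        _ ≤ S0 * qd l κ * (2 * (n + 1)) := Nat.mul_le_mul_right _ h1
    have h3 : n + ((s * qd l κ + a) * (2 * (n + 1)) + d) <
        n + S0 * qd l κ * (2 * (n + 1)) := by omega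
    dsimp only
    rw [hc _ h3]
  rw [e1, e2, e3]

variable (p : Inp) (v : ℕ → ℝ)

/-- The constants, the bits and the bounds. -/
structure Cst : Prop where
  hA : ∀ j ≤ U2 p + 2, v (iA p + j) = 2 ^ 2 ^ j
  hB : ∀ j ≤ U4 p, v (iB p + j) = (1 / 2) ^ 2 ^ j
  hP : ∀ r ≤ dnb p, v (iP p + r) = 2 ^ r
  hC : ∀ r < dL p * dnb p, v (iC p + r) ^ 2 = v (iC p + r)
  hX : ∀ b < dn p, v b ^ 2 ≤ 4

theorem holds_chain (b k : ℕ) :
    (∀ φ ∈ chain b k, φ.Holds v) ↔ ∀ j < k, v (b + j + 1) = v (b + j) ^ 2 := by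
  simp [chain, Fm.Holds, Tm.eval]

theorem holds_dbl (b k : ℕ) :
    (∀ φ ∈ dbl b k, φ.Holds v) ↔ ∀ j < k, v (b + j + 1) = v (b + j) + v (b + j) := by
  simp [dbl, Fm.Holds, Tm.eval]

theorem chain_val (b k : ℕ) (c : ℝ) : ((v b = c) ∧ ∀ j < k, v (b + j + 1) = v (b + j) ^ 2) ↔
    ∀ j ≤ k, v (b + j) = c ^ 2 ^ j := by
  constructor
  · rintro ⟨h0, h⟩ j
    induction j with
    | zero => intro _; simpa using h0
    | succ j ih =>
      intro hj
      have h1 := h j (by omega)
      rw [show b + (j + 1) = b + j + 1 by ring, h1, ih (by omega), ← pow_mul]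
      congr 1
  · intro h
    refine ⟨by simpa using h 0 (Nat.zero_le _), fun j hj => ?_⟩
    rw [show b + j + 1 = b + (j + 1) by ring, h (j + 1) (by omega), h j (by omega), ← pow_mul]
    congr 1

theorem dbl_val (b k : ℕ) : ((v b = 1) ∧ ∀ j < k, v (b + j + 1) = v (b + j) + v (b + j)) ↔
    ∀ j ≤ k, v (b + j) = 2 ^ j := by
  constructor
  · rintro ⟨h0, h⟩ j
    induction j with
    | zero => intro _; simpa using h0
    | succ j ih =>
      intro hj
      have h1 := h j (by omega)
      rw [show b + (j + 1) = b + j + 1 by ring, h1, ih (by omega), pow_succ]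
      ring
  · intro h
    refine ⟨by simpa using h 0 (Nat.zero_le _), fun j hj => ?_⟩
    rw [show b + j + 1 = b + (j + 1) by ring, h (j + 1) (by omega), h j (by omega), pow_succ]
    ring

theorem holds_fC : (∀ φ ∈ fC p, φ.Holds v) ↔ Cst p v := by
  have e1 : (v (iA p) = 1 + 1 ∧ ∀ j < U2 p + 2, v (iA p + j + 1) = v (iA p + j) ^ 2) ↔
      ∀ j ≤ U2 p + 2, v (iA p + j) = 2 ^ 2 ^ j := by
    have := chain_val v (iA p) (U2 p + 2) 2
    rw [← this]
    norm_num
  have e2 : (v (iB p) + v (iB p) = 1 ∧ ∀ j < U4 p, v (iB p + j + 1) = v (iB p + j) ^ 2) ↔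
      ∀ j ≤ U4 p, v (iB p + j) = (1 / 2) ^ 2 ^ j := by
    rw [← chain_val v (iB p) (U4 p) (1 / 2)]
    have : v (iB p) + v (iB p) = 1 ↔ v (iB p) = 1 / 2 := by
      constructor <;> intro h <;> linarith
    rw [this]
  have e3 := dbl_val v (iP p) (dnb p)
  unfold fC
  simp only [List.forall_mem_cons, List.forall_mem_append, holds_chain, holds_dbl, Fm.Holds,
    Tm.eval, List.forall_mem_map, List.mem_range, eval_sqT, eval_numT]
  constructor
  · rintro ⟨h1, h2, h3, h4, h5, h6, h7, h8⟩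
    exact ⟨e1.1 ⟨h1, h2⟩, e2.1 ⟨h3, h4⟩, e3.1 ⟨h5, h6⟩, h7, fun b hb => by
      have := h8 b hb; push_cast at this; exact this⟩
  · rintro ⟨h1, h2, h3, h4, h5⟩
    obtain ⟨a1, a2⟩ := e1.2 h1
    obtain ⟨a3, a4⟩ := e2.2 h2
    obtain ⟨a5, a6⟩ := e3.2 h3
    exact ⟨a1, a2, a3, a4, a5, a6, h4, fun b hb => by
      have := h5 b hb; push_cast; exact this⟩

/-- The parameters. -/
noncomputable def cv (k : ℕ) : ℝ := (cT p k).eval v

theorem cv_eq (h : Cst p v) (k : ℕ) : cv p v k = (1 / 2) ^ 2 ^ U4 p *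
    ∑ r ∈ Finset.range (dnb p), 2 ^ r * v (iC p + k * dnb p + r) := by
  unfold cv cT
  simp only [Tm.eval, eval_sumT, List.map_map]
  rw [h.hB _ le_rfl]
  congr 1
  rw [← sum_range_list]
  congr 1
  refine List.map_congr_left fun r hr => ?_
  simp only [Function.comp, Tm.eval]
  rw [h.hP r (List.mem_range.1 hr).le]

/-- The points. -/
def aX (b : Fin (dn p)) : ℝ := v b

/-- The points. -/
def aY (i : ℕ) (a : Fin (dq p)) : ℝ := v (dn p + i * dq p + a)

theorem eval_tA (h : Cst p v) : (tD p).1.eval v = (dat p).D ∧ (tC p).1.eval v = (dat p).C ∧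
    (tB p).1.eval v = (dat p).B ∧ (tβ p).1.eval v = (dat p).β := by
  have hU : U1 p ≤ U2 p := by
    unfold U2 u2 q2
    exact le_trans (by unfold U1; omega) ((le_Gx _ _).trans (le_Gx _ _))
  refine ⟨?_, ?_, ?_, ?_⟩
  · change v (iA p + U1 p) = _
    rw [h.hA _ (by omega)]; rfl
  · change v (iA p + U2 p) + v (iA p + U2 p) = _
    rw [h.hA _ (by omega)]
    change _ = 2 * 2 ^ 2 ^ U2 p
    ring
  · change v (iA p + (U2 p + 2)) = _
    rw [h.hA _ le_rfl]; rfl
  · change v (iB p + U3 p) = _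
    rw [h.hB _ (by unfold U4; omega)]; rfl

theorem ex_aY {a : ℕ} (ha : a < dq p) (i : ℕ) :
    ex (q := (dat p).q) (aY p v i) a = v (dn p + i * dq p + a) := by
  change (if h : a < dq p then (aY p v i) ⟨a, h⟩ else 0) = _
  rw [dif_pos ha]
  rfl

/-- Dual numbers of the variables. -/
theorem eval_tF_dual (h : Cst p v) (i k : ℕ) (U : Fin (dn p) → ℝ) (W : ℕ → ℝ)
    (hU : ∀ b : Fin (dn p), U b = if (b : ℕ) = k then 1 else 0)
    (hW : ∀ a < dq p, W a = if dn p + a = k then 1 else 0) :
    (tF p (some i) k).2.eval v = (dat p).dF (cv p v) U W (aX p v) (aY p v i) := by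
  obtain ⟨h1, h2, h3, h4⟩ := eval_tA p v h
  have e := congrArg TrivSqZeroExt.snd (ev2_tF p (some i) k v)
  rw [ev2_snd] at e
  rw [e]
  unfold Dat.dF
  congr 1
  have eD : ev2 v (tD p) = TrivSqZeroExt.inl (dat p).D := by
    rw [← h1]; exact ev2_dcst _ _
  have eC : ev2 v (tC p) = TrivSqZeroExt.inl (dat p).C := by
    rw [← h2]; exact ev2_dcst _ _
  have eB : ev2 v (tB p) = TrivSqZeroExt.inl (dat p).B := by
    rw [← h3]; exact ev2_dcst _ _
  have eβ : ev2 v (tβ p) = TrivSqZeroExt.inl (dat p).β := by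
    rw [← h4]; exact ev2_dcst _ _
  have eX : (fun b : Fin (dn p) => ev2 v (tX k b)) =
      fun b => TrivSqZeroExt.inl (aX p v b) + TrivSqZeroExt.inr (U b) := by
    funext b
    rw [hU]
    unfold ev2 tX aX
    simp only [Tm.eval]
    congr 2
    split_ifs <;> rfl
  rw [eD, eC, eB, eβ, eX]
  refine Ft_congr _ _ _ _ _ _ _ _ _ _ _ _ _ (fun a ha => ?_) (fun k _ => ?_)
  · have ha' : a < dq p := ha
    unfold eU ev2 tU tY
    simp only [Tm.eval]
    have e5 := ex_aY p v ha' i
    rw [e5, hW a ha']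
    congr 2
    split_ifs <;> rfl
  · rw [ev2_dcst]
    rfl

theorem eval_tF_val (h : Cst p v) (i k : ℕ) :
    (tF p (some i) k).1.eval v = (dat p).F (cv p v) (aX p v) (aY p v i) := by
  obtain ⟨h1, h2, h3, h4⟩ := eval_tA p v h
  rw [eval_tF, h1, h2, h3, h4]
  unfold Dat.F
  refine Ft_congr _ _ _ _ _ _ _ _ _ _ _ _ _ (fun a ha => ?_) (fun k _ => rfl)
  have ha' : a < dq p := ha
  have e5 := ex_aY p v ha' i
  rw [e5]
  rfl

theorem eval_tF_dX (h : Cst p v) (i : ℕ) (b : Fin (dn p)) :
    (tF p (some i) b).2.eval v = (dat p).dX (cv p v) b (aX p v) (aY p v i) := by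
  refine eval_tF_dual p v h i b _ _ (fun b' => ?_) fun a _ => ?_
  · by_cases hb : b' = b
    · exact (if_pos hb).trans (if_pos (by rw [hb])).symm
    · exact (if_neg hb).trans (if_neg (fun h => hb (Fin.ext h))).symm
  · rw [if_neg]
    have := b.2
    omega

theorem eval_tF_dY (h : Cst p v) (i a : ℕ) :
    (tF p (some i) (dn p + a)).2.eval v = (dat p).dY (cv p v) a (aX p v) (aY p v i) := by
  refine eval_tF_dual p v h i _ _ _ (fun b' => ?_) fun a' _ => ?_
  · rw [if_neg]
    have := b'.2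
    omega
  · simp only [Nat.add_left_cancel_iff]

/-- The critical system at the assignment. -/
structure Crit (j : ℕ) : Prop where
  sol : (dat p).Sol (cv p v) j (aX p v) (v (iV p)) (fun i => aY p v i) (fun i => v (iW p + i))
  w0 : ∀ i, j < i → i ≤ dn p → v (iW p + i) = 0
  y0 : ∀ i, j < i → i ≤ dn p → ∀ a < dq p, v (dn p + i * dq p + a) = 0

theorem holds_fJ (h : Cst p v) (j : ℕ) (hj : j ≤ dn p) :
    (∀ φ ∈ fJ p j, φ.Holds v) ↔ Crit p v j := by
  have hsum : ∀ f : ℕ → ℝ, (∀ i, j < i → i ≤ dn p → f i = 0) →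
      ∑ i ∈ Finset.range (dn p + 1), f i = ∑ i : Fin (j + 1), f i := by
    intro f hf
    rw [Fin.sum_univ_eq_sum_range f (j + 1)]
    symm
    refine Finset.sum_subset (Finset.range_subset_range.2 (by omega)) fun i hi hi' => ?_
    rw [Finset.mem_range] at hi hi'
    exact hf i (by omega) (by omega)
  unfold fJ
  simp only [List.forall_mem_cons, List.forall_mem_append, List.forall_mem_map, List.mem_range,
    Fm.Holds, Tm.eval, eval_sumT, List.map_map]
  have e0 : ((List.range (dn p + 1)).map (Tm.eval v ∘ fun i => Tm.var (iW p + i))).sum =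
      ∑ i ∈ Finset.range (dn p + 1), v (iW p + i) := sum_range_list _ _
  have e1 : ∀ b, ((List.range (dn p + 1)).map (Tm.eval v ∘ fun i =>
      Tm.mul (Tm.var (iW p + i)) (tF p (some i) b).2)).sum =
      ∑ i ∈ Finset.range (dn p + 1), v (iW p + i) * (tF p (some i) b).2.eval v :=
    fun b => sum_range_list _ _
  rw [e0]
  simp only [e1]
  constructor
  · rintro ⟨h1, h2, h3⟩
    have hw0 : ∀ i, j < i → i ≤ dn p → v (iW p + i) = 0 := by
      intro i h4 h5
      have h6 := h2 i (by omega)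
      rw [if_neg (by omega), holds_conj, List.forall_mem_cons] at h6
      exact h6.1
    have hy0 : ∀ i, j < i → i ≤ dn p → ∀ a < dq p, v (dn p + i * dq p + a) = 0 := by
      intro i h4 h5 a ha
      have h6 := h2 i (by omega)
      rw [if_neg (by omega), holds_conj, List.forall_mem_cons] at h6
      have h7 := h6.2 _ (List.mem_map.2 ⟨a, List.mem_range.2 ha, rfl⟩)
      exact h7
    refine ⟨⟨?_, ?_, ?_, ?_⟩, hw0, hy0⟩
    · rw [← hsum (fun i => v (iW p + i)) hw0]
      exact h1
    · intro i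
      have hi := i.2
      have h6 := h2 i (by omega)
      rw [if_pos (by omega), holds_conj, List.forall_mem_cons] at h6
      rw [← eval_tF_val p v h]
      exact h6.1
    · intro i a ha
      have hi := i.2
      have h6 := h2 i (by omega)
      rw [if_pos (by omega), holds_conj, List.forall_mem_cons] at h6
      rw [← eval_tF_dY p v h]
      exact h6.2 _ (List.mem_map.2 ⟨a, List.mem_range.2 ha, rfl⟩)
    · intro b
      have h7 := h3 b b.2
      rw [hsum (fun i => v (iW p + i) * (tF p (some i) b).2.eval v) fun i h8 h9 => by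
        rw [hw0 i h8 h9, zero_mul]] at h7
      rw [← h7]
      refine Finset.sum_congr rfl fun i _ => ?_
      exact congrArg (v (iW p + i) * ·) (eval_tF_dX p v h i b).symm
  · rintro ⟨⟨h1, h2, h3, h4⟩, hw0, hy0⟩
    refine ⟨?_, ?_, ?_⟩
    · rw [hsum (fun i => v (iW p + i)) hw0]
      exact h1
    · intro i hi
      split_ifs with hij
      · rw [holds_conj, List.forall_mem_cons]
        refine ⟨?_, ?_⟩
        · change (tF p (some i) (dn p + dq p)).1.eval v = v (iV p)
          rw [eval_tF_val p v h]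
          exact h2 ⟨i, by omega⟩
        · simp only [List.forall_mem_map, List.mem_range]
          intro a ha
          change (tF p (some i) (dn p + a)).2.eval v = 0
          rw [eval_tF_dY p v h]
          exact h3 ⟨i, by omega⟩ a ha
      · rw [holds_conj, List.forall_mem_cons]
        refine ⟨hw0 i (by omega) (by omega), ?_⟩
        simp only [List.forall_mem_map, List.mem_range]
        intro a ha
        exact hy0 i (by omega) (by omega) a ha
    · intro b hb
      rw [hsum (fun i => v (iW p + i) * (tF p (some i) b).2.eval v) fun i h8 h9 => by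
        rw [hw0 i h8 h9, zero_mul]]
      have h7 := h4 ⟨b, hb⟩
      rw [← h7]
      refine Finset.sum_congr rfl fun i _ => ?_
      exact congrArg (v (iW p + i) * ·) (eval_tF_dX p v h i ⟨b, hb⟩)

theorem holds_fD : (fD p).Holds v ↔
    Cst p v ∧ ∃ j ≤ dn p, v (iM p) = j ∧ Crit p v j := by
  unfold fD
  rw [holds_conj]
  simp only [List.forall_mem_cons, List.forall_mem_append, List.forall_mem_map, List.mem_range,
    Fm.Holds, Tm.eval, eval_prodT, List.map_map, holds_fC, holds_conj, eval_numT]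
  constructor
  · rintro ⟨h1, h2, h3⟩
    refine ⟨h1, ?_⟩
    rw [List.prod_eq_zero_iff, List.mem_map] at h2
    obtain ⟨j, hj, h4⟩ := h2
    have hj' := List.mem_range.1 hj
    simp only [Function.comp, eval_subT, Tm.eval, eval_numT] at h4
    have h5 : v (iM p) = j := by linarith
    refine ⟨j, by omega, h5, ?_⟩
    rw [← holds_fJ p v h1 j (by omega)]
    rcases h3 j hj' with h6 | h6
    · exact absurd h5 h6
    · exact h6
  · rintro ⟨h1, j, hj, h2, h3⟩
    refine ⟨h1, ?_, ?_⟩
    · rw [List.prod_eq_zero_iff, List.mem_map]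
      refine ⟨j, List.mem_range.2 (by omega), ?_⟩
      simp only [Function.comp, eval_subT, Tm.eval, eval_numT]
      rw [h2]; ring
    · intro j' hj'
      by_cases h4 : v (iM p) = (j' : ℝ)
      · right
        have h5 : j' = j := by
          have : (j' : ℝ) = j := by rw [← h4, h2]
          exact_mod_cast this
        rw [h5]
        exact (holds_fJ p v h1 j hj).2 h3
      · left
        exact h4

theorem holds_fK (h : Cst p v) : (fK p).Holds v ↔
    (v (iT p) = 0 ∧ ∀ a < dq p, v (iZ p + a) = 0) ∨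
    (0 < v (iT p) ∧ (dat p).G2 (aX p v) (fun a => v (iZ p + a)) (v (iT p)) ≤ 0 ∧
      ∀ a < dq p, v (iZ p + a) ^ 2 ≤ dq p * v (iT p) ^ 2) := by
  obtain ⟨h1, h2, h3, h4⟩ := eval_tA p v h
  have e := eval_tG p none (dn p + dq p) v (Tm.var (iT p))
  rw [h1, h2, h3] at e
  have e' : (tG p none (dn p + dq p) (dcst (Tm.var (iT p)))).1.eval v =
    (dat p).G2 (aX p v) (fun a => v (iZ p + a)) (v (iT p)) := e
  unfold fK
  simp only [Fm.Holds, holds_conj, List.forall_mem_cons, List.forall_mem_map, List.mem_range,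
    Tm.eval, e', eval_sqT, eval_numT]

end Pool.Agent.T9h94.Iso.Red
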