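import Pool.Agent.T9h94.Iso.Top3
import Pool.Agent.T9h85.Iso.P0
import Pool.Agent.T9h85.Iso.P1
import Pool.Agent.T9h46.Iso.P3
import Pool.Agent.T9h75.Iso.PolyT

/-!
# Deciding whether a semialgebraic set has an isolated point is `∃∀ℝ`-hard
-/

set_option autoImplicit false

namespace Pool.Agent.T9h94.Iso

open Pool.Agent.NPC Pool.Agent.NPC.ER Red

/-- The reduction. -/
theorem reduction (p : List ℕ × Fm) : EAR p ↔ IsolatedPointExistence (inst p) :=
  inst_iff p (stmtParams stmtDeg) (Dat.sol stmtDeriv stmtCont)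

/-- **Hardness.** -/
theorem hard : EARHard (lang IsolatedPointExistence) :=
  EARHard.of_poly (F := inst) Pool.Agent.NPC.T9h75Iso.poly_inst reduction

end Pool.Agent.T9h94.Iso

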