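import Pool.Agent.R537.RN.NFEff

/-!
# An effective compact normal form for sentences `∃ x ∀ z ¬ S`
-/

set_option autoImplicit false

namespace Pool.Agent.T9h94.Iso

open Finset Filter Topology Pool.Agent.H612 Pool.Agent.NPC Pool.Agent.R537.RN

variable {n l : ℕ} (loc : ℕ → Fin n ⊕ (Fin 0 ⊕ Fin l)) (S : List ER.Con)

/-- The sentence `∃ x ∀ z ¬ S`. -/
def TrueS : Prop := ∃ x : Fin n → ℝ, ∀ z : Fin l → ℝ,
  ¬ ER.SysHolds (pick loc x (fun _ => (0 : ℝ)) z) S

/-- The exponent. -/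
def kp (l s : ℕ) : ℕ := kap l s

/-- The exponent of the first constant. -/
def q1 (n l s : ℕ) : ℕ := Gx n (Gx (l + 1) (kp l s + s + 6))

/-- The form. -/
def Fs {R : Type} [CommRing R] (σ : R) (X : Fin n → R) (h : R) (Y : Fin l → R) : R :=
  qsum (pick loc (fun j => h * X j) (fun _ => 0) (fun j => σ * Y j)) (σ * h) S -
    σ ^ 5 * h ^ (2 ^ kp l S.length)

theorem Fs_map {R R' : Type} [CommRing R] [CommRing R'] (f : R →+* R') (σ : R) (X : Fin n → R)
    (h : R) (Y : Fin l → R) :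
    f (Fs loc S σ X h Y) = Fs loc S (f σ) (fun j => f (X j)) (f h) (fun j => f (Y j)) := by
  simp only [Fs, map_sub, map_mul, map_pow, qsum_map, pick_map, map_zero]

/-- The compact form with a parameter. -/
def G1 (σ : ℝ) : Prop := ∃ X ∈ cube n, ∀ U ∈ cube (l + 1),
  0 ≤ Fs loc S σ X (U 0) (fun j => U j.succ)

theorem two_le_kp (l s : ℕ) : 1 ≤ kp l s := by
  unfold kp kap Gx
  nlinarith [Nat.zero_le l, Nat.zero_le s]

theorem even_pow_kp (l s : ℕ) : Even (2 ^ kp l s) := by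
  rw [Nat.even_pow]
  exact ⟨even_two, by have := two_le_kp l s; omega⟩

theorem G1_of_true (h : TrueS loc S) : ∃ σ : ℝ, 0 < σ ∧ σ ≤ 1 ∧ G1 loc S σ := by
  obtain ⟨x, hx⟩ := h
  obtain ⟨c, hc0, hc⟩ := L1 loc S x (fun _ => (0 : ℝ)) (by
    rintro ⟨z, hz⟩
    exact hx z hz)
  obtain ⟨t, ht0, ht1, htx, -⟩ := exists_scale x 0
  have hσ0 : 0 < min c t := lt_min hc0 ht0
  refine ⟨min c t, hσ0, (min_le_right _ _).trans ht1.le, fun j => min c t * x j, ?_, ?_⟩
  · intro j
    have h1 := (htx j).le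
    rw [abs_mul, abs_of_pos ht0] at h1
    rw [abs_mul, abs_of_pos hσ0]
    exact (mul_le_mul_of_nonneg_right (min_le_right _ _) (abs_nonneg _)).trans h1
  · intro U hU
    set σ := min c t with hσ
    have key : ∀ (h : ℝ) (Y : Fin l → ℝ), 0 ≤ h → h ≤ 1 → Y ∈ cube l →
        σ ^ 5 * h ^ (2 ^ kp l S.length) ≤
        qsum (pick loc (fun j => h * (σ * x j)) (fun _ => 0) (fun j => σ * Y j)) (σ * h) S := by
      intro h Y h0 h1 hY
      have h2 := hc Y hY h h0 h1
      have h3 : (pick loc (fun j => h * (σ * x j)) (fun _ => 0) (fun j => σ * Y j)) =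
          fun i => σ * pick loc (fun j => h * x j) (fun _ => h * 0) Y i := by
        funext i
        rw [pick_scale]
        congr 1
        · funext j; ring
        · funext j; ring
      rw [h3, qsum_scale]
      have h4 : σ * h ^ (2 ^ kp l S.length) ≤ c * h ^ (2 ^ kp l S.length) :=
        mul_le_mul_of_nonneg_right (min_le_left _ _) (by positivity)
      have h5 : 0 ≤ σ ^ 4 := by positivity
      have h6 : c * h ^ (2 ^ kp l S.length) ≤
          qsum (pick loc (fun j => h * x j) (fun _ => h * 0) Y) h S := h2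
      calc σ ^ 5 * h ^ (2 ^ kp l S.length) = σ ^ 4 * (σ * h ^ (2 ^ kp l S.length)) := by ring
        _ ≤ σ ^ 4 * _ := mul_le_mul_of_nonneg_left (h4.trans h6) h5
    unfold Fs
    rcases le_total 0 (U 0) with h0 | h0
    · have := key (U 0) (fun j => U j.succ) h0 ((le_abs_self _).trans (hU 0))
        (fun j => hU j.succ)
      linarith
    · have h7 := key (-U 0) (fun j => -U j.succ) (by linarith)
        ((neg_le_abs _).trans (hU 0)) (fun j => by rw [abs_neg]; exact hU j.succ)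
      have h3 : (pick loc (fun j => -U 0 * (σ * x j)) (fun _ => 0)
          (fun j => σ * -U j.succ)) =
          fun i => -1 * pick loc (fun j => U 0 * (σ * x j)) (fun _ => 0)
            (fun j => σ * U j.succ) i := by
        funext i
        rw [pick_scale]
        congr 1
        · funext j; ring
        · funext j; ring
        · funext j; ring
      have h8 : σ * -U 0 = -1 * (σ * U 0) := by ring
      rw [h3, h8, qsum_scale, (even_pow_kp l S.length).neg_pow] at h7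
      linarith

theorem step1 {K : Type} [CommRing K] [Nontrivial K] {T : Type} [TopologicalSpace T]
    (L : Lvl K T) (nr : RNorm K) (hpos : ∀ c : K, c ≠ 0 → 1 ≤ nr.ν c) (σ : K)
    (hσ : nr.ν σ ≤ 2) :
    ∃ Q : Polynomial K, Q ≠ 0 ∧ nr.poly.ν Q ≤ 2 ^ 2 ^ q1 n l S.length ∧
      ∃ b : T → ℝ, Continuous b ∧ (∀ t, Q.eval₂ (L.φ t) (b t) = 0) ∧
        ∀ t, G1 loc S (L.φ t σ) ↔ b t ≤ 0 := by
  obtain ⟨κ, hκ⟩ : ∃ κ, κ = kp l S.length := ⟨_, rfl⟩
  obtain ⟨F, hFdef⟩ : ∃ F : MvPolynomial (Fin (l + 1)) (MvPolynomial (Fin n) K), F =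
      Fs loc S (MvPolynomial.C (MvPolynomial.C σ))
        (fun j => MvPolynomial.C (MvPolynomial.X j)) (MvPolynomial.X 0)
        (fun j => MvPolynomial.X j.succ) := ⟨_, rfl⟩
  have hF : ∀ s, ((L.ext n).ext (l + 1)).φ s F =
      Fs loc S (L.φ s.1.1 σ) s.1.2 (s.2 0) (fun j => s.2 j.succ) := by
    intro s
    rw [hFdef, Fs_map]
    simp only [ext_φ_C, ext_φ_X]
  have hFν : (wm (wm nr n) (l + 1)).ν F ≤
      188743680 * S.length + 65536 * 4 ^ 2 ^ κ + 32 * 4 ^ 2 ^ 0 := by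
    rw [hFdef]
    simp only [Fs]
    rw [← hκ]
    have hX : ∀ j, (wm (wm nr n) (l + 1)).ν (MvPolynomial.X j) ≤ 2 := fun j => wm_X _ _
    have hσ' : (wm (wm nr n) (l + 1)).ν (MvPolynomial.C (MvPolynomial.C σ)) ≤ 2 := by
      rw [wm_C, wm_C]; exact hσ
    have hXn : ∀ j : Fin n, (wm (wm nr n) (l + 1)).ν (MvPolynomial.C (MvPolynomial.X j)) ≤ 2 := by
      intro j
      rw [wm_C]; exact wm_X _ _
    have hmul : ∀ (a b : MvPolynomial (Fin (l + 1)) (MvPolynomial (Fin n) K)) (p q : ℕ),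
        (wm (wm nr n) (l + 1)).ν a ≤ p → (wm (wm nr n) (l + 1)).ν b ≤ q →
        (wm (wm nr n) (l + 1)).ν (a * b) ≤ p * q :=
      fun a b p q h1 h2 => (RNorm.mul _ _ _).trans (Nat.mul_le_mul h1 h2)
    refine (RNorm.sub _ _ _).trans ?_
    have e1 : (wm (wm nr n) (l + 1)).ν (qsum (pick loc
        (fun j => MvPolynomial.X 0 * MvPolynomial.C (MvPolynomial.X j)) (fun _ => 0)
        (fun j => MvPolynomial.C (MvPolynomial.C σ) * MvPolynomial.X j.succ))
        (MvPolynomial.C (MvPolynomial.C σ) * MvPolynomial.X 0) S) ≤ 9 * 4 ^ 4 * S.length := by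
      apply qsum_ν
      · apply pick_ν
        · intro j; exact hmul _ _ 2 2 (hX 0) (hXn j)
        · intro j; exact j.elim0
        · intro j; exact hmul _ _ 2 2 hσ' (hX _)
      · exact hmul _ _ 2 2 hσ' (hX 0)
    have e2 : (wm (wm nr n) (l + 1)).ν
        ((MvPolynomial.C (MvPolynomial.C σ)) ^ 5 * (MvPolynomial.X 0) ^ 2 ^ κ) ≤
        2 ^ 5 * 2 ^ 2 ^ κ := hmul _ _ _ _ (ν_pow _ _ _ _ hσ') (ν_pow _ _ _ _ (hX 0))
    have e3 : (2 : ℕ) ^ 2 ^ κ ≤ 4 ^ 2 ^ κ := Nat.pow_le_pow_left (by norm_num) _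
    omega
  obtain ⟨h, hh⟩ : ∃ h : (T × (Fin n → ℝ)) × (Fin (l + 1) → ℝ) → ℝ,
      ∀ s, h s = -((L.ext n).ext (l + 1)).φ s F := ⟨_, fun s => rfl⟩
  have hc : Continuous h := by
    have : h = fun s => -((L.ext n).ext (l + 1)).φ s F := funext hh
    rw [this]
    exact (((L.ext n).ext (l + 1)).cont F).neg
  have hP0 : Polynomial.X + Polynomial.C F ≠ 0 := (Polynomial.monic_X_add_C F).ne_zero
  have hB : (wm (wm nr n) (l + 1)).poly.ν (Polynomial.X + Polynomial.C F) ≤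
      2 ^ 2 ^ (κ + S.length + 6) := by
    refine (ν_X_add_C _ F).trans ?_
    have h1 := bound_B S.length κ 0
    simp only [add_zero] at h1
    omega
  have p1 := wm_pos nr hpos (N := n)
  obtain ⟨Q, hQ0, hQν, hQ⟩ := (L.ext n).step (wm nr n) p1
    (Polynomial.X + Polynomial.C F) hP0 _ hB
    Nat.one_le_two_pow h hc (fun s => by
      rw [Polynomial.eval₂_add, Polynomial.eval₂_X, Polynomial.eval₂_C, hh]; ring)
  have hQν' := (flip_ν (wm nr n) Q).trans
    (hQν.trans (bndL_le (l + 1) (κ + S.length + 6) _ (le_refl _)))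
  obtain ⟨h1, hh1⟩ : ∃ h1 : T × (Fin n → ℝ) → ℝ, ∀ s, h1 s = -bmax h s := ⟨_, fun s => rfl⟩
  have hc1 : Continuous h1 := by
    have : h1 = fun s => -bmax h s := funext hh1
    rw [this]
    exact (continuous_bmax hc).neg
  obtain ⟨Q1, hQ10, hQ1ν, hQ1⟩ := L.step nr hpos (flip Q) (flip_ne_zero Q hQ0) _ hQν'
    Nat.one_le_two_pow h1 hc1 (fun s => by
      rw [flip_eval, hh1, neg_neg]
      exact hQ s)
  have hQ1ν' : nr.poly.ν (flip Q1) ≤ 2 ^ 2 ^ q1 n l S.length := by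
    have h1 := (flip_ν nr Q1).trans (hQ1ν.trans (bndL_le n _ _ (le_refl _)))
    unfold q1
    rw [← hκ]
    exact h1
  refine ⟨flip Q1, flip_ne_zero Q1 hQ10, hQ1ν', fun s => -bmax h1 s, (continuous_bmax hc1).neg,
    fun s => ?_, ?_⟩
  · rw [flip_eval, neg_neg]
    exact hQ1 s
  · intro t
    constructor
    · rintro ⟨x, hx, hU⟩
      have e1 := le_bmax hc1 t hx
      rw [hh1] at e1
      obtain ⟨U, hUc, hU2⟩ := exists_bmax hc (t, x)
      rw [← hU2, hh, hF] at e1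
      have e2 := hU U hUc
      simp only [Left.neg_nonpos_iff]
      linarith
    · intro hb
      simp only [Left.neg_nonpos_iff] at hb
      obtain ⟨x, hx, hx2⟩ := exists_bmax hc1 t
      refine ⟨x, hx, fun U hU => ?_⟩
      have e1 := le_bmax hc (t, x) hU
      rw [hh, hF] at e1
      rw [← hx2, hh1] at hb
      linarith

theorem G1_mono {σ σ' : ℝ} (h0 : 0 < σ') (h1 : σ' ≤ σ) (h : G1 loc S σ) : G1 loc S σ' := by
  obtain ⟨x, hx, hU⟩ := h
  have hσ : 0 < σ := lt_of_lt_of_le h0 h1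
  have hq : σ' / σ ≤ 1 := (div_le_one hσ).2 h1
  have hq0 : 0 < σ' / σ := by positivity
  refine ⟨fun j => σ' / σ * x j, ?_, ?_⟩
  · intro j
    rw [abs_mul, abs_of_pos hq0]
    have := hx j
    nlinarith [abs_nonneg (x j)]
  · intro U hU'
    have h2 := hU U hU'
    unfold Fs at h2 ⊢
    have h3 : (pick loc (fun j => U 0 * (σ' / σ * x j)) (fun _ => 0)
        (fun j => σ' * U j.succ)) = fun i => σ' / σ * pick loc (fun j => U 0 * x j) (fun _ => 0)
        (fun j => σ * U j.succ) i := by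
      funext i
      rw [pick_scale]
      congr 1
      · funext j; ring
      · funext j; ring
      · funext j; field_simp
    have h4 : σ' * U 0 = σ' / σ * (σ * U 0) := by field_simp
    rw [h3, h4, qsum_scale]
    set A := qsum (pick loc (fun j => U 0 * x j) (fun _ => 0) (fun j => σ * U j.succ)) (σ * U 0) S
    have hp : 0 ≤ (U 0) ^ (2 ^ kp l S.length) := (even_pow_kp l S.length).pow_nonneg _
    have h5 : σ' ^ 5 * (U 0) ^ (2 ^ kp l S.length) =
        (σ' / σ) ^ 4 * (σ' / σ * (σ ^ 5 * (U 0) ^ (2 ^ kp l S.length))) := by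
      field_simp
    rw [h5, ← mul_sub]
    have h6 : 0 ≤ (σ' / σ) ^ 4 := by positivity
    have h7 : σ' / σ * (σ ^ 5 * (U 0) ^ (2 ^ kp l S.length)) ≤
        1 * (σ ^ 5 * (U 0) ^ (2 ^ kp l S.length)) :=
      mul_le_mul_of_nonneg_right hq (by positivity)
    refine mul_nonneg h6 ?_
    linarith

theorem G1_eff (h : TrueS loc S) : G1 loc S ((1 / 2) ^ (2 ^ q1 n l S.length)) := by
  obtain ⟨Q, hQ0, hQν, b, hbc, hQ, hgood⟩ := step1 loc S (Lvl.int.ext 1) (wm RNorm.int 1)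
    (wm_pos RNorm.int int_pos) (MvPolynomial.X 0) (wm_X _ _)
  obtain ⟨σ₁, hσ0, hσ1, hσ⟩ := G1_of_true loc S h
  have e : ∀ σ : ℝ, (Lvl.int.ext 1).φ ((), fun _ => σ) (MvPolynomial.X 0) = σ := fun σ => by
    rw [ext_φ_X]
  obtain ⟨σ, h10, h11, h12, h13⟩ := gap_int Q hQ0 _ hQν (fun σ => b ((), fun _ => σ))
    (hbc.comp (by fun_prop)) (fun s => hQ _) σ₁ hσ0 hσ1 (by
      rw [← hgood, e]
      exact hσ)
  rw [← hgood, e] at h13
  refine G1_mono loc S (by positivity) ?_ h13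
  push_cast at h12
  rw [one_div, inv_pow, inv_le_iff_one_le_mul₀ (by positivity), mul_comm]
  exact h12

/-- **First part of the normal form**: for `D = 2 ^ 2 ^ q1`, a true sentence has a point `x` in
`[-D, D]ⁿ` with `h ^ K ≤ D * A(x; h, Y)` on the cube. -/
theorem exists_point_of_true (h : TrueS loc S) :
    ∃ x : Fin n → ℝ, (∀ j, |x j| ≤ 2 ^ 2 ^ q1 n l S.length) ∧ ∀ (h : ℝ) (Y : Fin l → ℝ),
      |h| ≤ 1 → (∀ j, |Y j| ≤ 1) → h ^ (2 ^ kp l S.length) ≤ 2 ^ 2 ^ q1 n l S.length *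
        qsum (pick loc (fun j => h * x j) (fun _ => 0) Y) h S := by
  obtain ⟨X, hX, hU⟩ := G1_eff loc S h
  set σ : ℝ := (1 / 2) ^ (2 ^ q1 n l S.length) with hσ
  have hσ0 : 0 < σ := by positivity
  have hD : (2 : ℝ) ^ 2 ^ q1 n l S.length = σ⁻¹ := by
    rw [hσ, one_div, inv_pow, inv_inv]
  rw [hD]
  refine ⟨fun j => σ⁻¹ * X j, ?_, ?_⟩
  · intro j
    rw [abs_mul, abs_of_pos (inv_pos.2 hσ0)]
    have := hX j
    have h1 : 0 < σ⁻¹ := inv_pos.2 hσ0
    nlinarith
  · intro h Y hh hY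
    have h1 := hU (Fin.cons h Y) (by
      intro j
      refine Fin.cases ?_ (fun j => ?_) j
      · simpa using hh
      · simpa using hY j)
    simp only [Fin.cons_zero, Fin.cons_succ, Fs] at h1
    have h3 : (pick loc (fun j => h * X j) (fun _ => 0) (fun j => σ * Y j)) =
        fun i => σ * pick loc (fun j => h * (σ⁻¹ * X j)) (fun _ => 0) Y i := by
      funext i
      rw [pick_scale]
      congr 1
      · funext j; field_simp
      · funext j; ring
    rw [h3, qsum_scale] at h1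
    set A := qsum (pick loc (fun j => h * (σ⁻¹ * X j)) (fun _ => 0) Y) h S
    have h4 : σ ^ 5 * h ^ (2 ^ kp l S.length) ≤ σ ^ 5 * (σ⁻¹ * A) := by
      have : σ ^ 5 * (σ⁻¹ * A) = σ ^ 4 * A := by field_simp
      rw [this]
      linarith
    exact le_of_mul_le_mul_left h4 (by positivity)

end Pool.Agent.T9h94.Iso
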