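import Pool.Agent.T9h94.Iso.NF1

/-!
# The gap of the normal form
-/

set_option autoImplicit false

namespace Pool.Agent.T9h94.Iso

open Finset Filter Topology Pool.Agent.H612 Pool.Agent.NPC Pool.Agent.R537.RN

variable {n l : ℕ} (loc : ℕ → Fin n ⊕ (Fin 0 ⊕ Fin l)) (S : List ER.Con)

theorem true_of_point (D : ℝ) (x : Fin n → ℝ) (h : ∀ (h : ℝ) (Y : Fin l → ℝ),
      |h| ≤ 1 → (∀ j, |Y j| ≤ 1) → h ^ (2 ^ kp l S.length) ≤ D *
        qsum (pick loc (fun j => h * x j) (fun _ => 0) Y) h S) : TrueS loc S := by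
  refine ⟨x, fun z hz => ?_⟩
  obtain ⟨t, ht0, ht1, htz, -⟩ := exists_scale z 0
  have h1 := h t (fun j => t * z j) (by rw [abs_of_pos ht0]; exact ht1.le)
    (fun j => (htz j).le)
  have h2 : (pick loc (fun j => t * x j) (fun _ => 0) (fun j => t * z j)) =
      fun i => t * pick loc x (fun _ => 0) z i := by
    funext i
    rw [pick_scale]
    congr 1
    funext j; ring
  have h3 := qsum_scale t (pick loc x (fun _ => 0) z) 1 S
  rw [mul_one] at h3
  rw [h2, h3, (qsum_one_iff _ _).2 hz, mul_zero, mul_zero] at h1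
  have : 0 < t ^ (2 ^ kp l S.length) := by positivity
  linarith

/-- The exponent of the gap. -/
def q2 (n l s u : ℕ) : ℕ := Gx n (Gx (l + 1) (u + kp l s + s + 6))

/-- The form with an integer constant. -/
def Fd {R : Type} [CommRing R] (D : R) (X : Fin n → R) (h : R) (Y : Fin l → R) : R :=
  D * qsum (pick loc (fun j => h * (D * (2 * X j))) (fun _ => 0) Y) h S -
    h ^ (2 ^ kp l S.length)

theorem Fd_map {R R' : Type} [CommRing R] [CommRing R'] (f : R →+* R') (D : R) (X : Fin n → R)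
    (h : R) (Y : Fin l → R) :
    f (Fd loc S D X h Y) = Fd loc S (f D) (fun j => f (X j)) (f h) (fun j => f (Y j)) := by
  simp only [Fd, map_sub, map_mul, map_pow, qsum_map, pick_map, map_zero, map_ofNat]

theorem bound_F (s κ u : ℕ) :
    1 + ((2 ^ 2 ^ u) * (9 * (8 * 2 ^ 2 ^ u) ^ 4 * s) + 2 ^ 2 ^ κ) ≤ 2 ^ 2 ^ (u + κ + s + 6) := by
  have h2 : ∀ k : ℕ, k + 1 ≤ 2 ^ k := fun k => Nat.lt_two_pow_self
  have hT : 2 ^ (u + κ + s + 6) = 64 * 2 ^ (u + κ + s) := by rw [pow_add]; ring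
  set T := 2 ^ (u + κ + s) with hTd
  have h1 : 1 ≤ T := Nat.one_le_two_pow
  have hκ : 2 ^ κ ≤ T := Nat.pow_le_pow_right (by norm_num) (by omega)
  have hu : 2 ^ u ≤ T := Nat.pow_le_pow_right (by norm_num) (by omega)
  have hs : s ≤ 2 ^ T := by
    have h3 : 2 ^ s ≤ T := Nat.pow_le_pow_right (by norm_num) (by omega)
    have := h2 s
    have := h2 T
    omega
  have e1 : (2 : ℕ) ^ 2 ^ u ≤ 2 ^ T := Nat.pow_le_pow_right (by norm_num) hu
  have e2 : (2 : ℕ) ^ 2 ^ κ ≤ 2 ^ T := Nat.pow_le_pow_right (by norm_num) hκ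
  have e3 : (8 * 2 ^ 2 ^ u) ^ 4 ≤ (8 * 2 ^ T) ^ 4 :=
    Nat.pow_le_pow_left (Nat.mul_le_mul_left _ e1) _
  have e4 : (2 ^ 2 ^ u) * (9 * (8 * 2 ^ 2 ^ u) ^ 4 * s) ≤
      2 ^ T * (9 * (8 * 2 ^ T) ^ 4 * 2 ^ T) :=
    Nat.mul_le_mul e1 (Nat.mul_le_mul (Nat.mul_le_mul_left _ e3) hs)
  rw [hT]
  have e5 : 2 ^ T * (9 * (8 * 2 ^ T) ^ 4 * 2 ^ T) = 36864 * 2 ^ (6 * T) := by
    rw [show (6 * T) = T * 6 by ring, pow_mul]; ring
  have e6 : (2 : ℕ) ^ T ≤ 2 ^ (6 * T) := Nat.pow_le_pow_right (by norm_num) (by omega)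
  have e7 : 1 ≤ (2 : ℕ) ^ (6 * T) := Nat.one_le_two_pow
  calc 1 + ((2 ^ 2 ^ u) * (9 * (8 * 2 ^ 2 ^ u) ^ 4 * s) + 2 ^ 2 ^ κ)
      ≤ 2 ^ 16 * 2 ^ (6 * T) := by omega
    _ = 2 ^ (16 + 6 * T) := (pow_add _ _ _).symm
    _ ≤ 2 ^ (64 * T) := Nat.pow_le_pow_right (by norm_num) (by omega)

/-- **Second part of the normal form**: the gap. -/
theorem gap_of_false (hS : ¬ TrueS loc S) (u : ℕ) (X : Fin n → ℝ) (hX : ∀ j, |X j| ≤ 2) :
    ∃ (h : ℝ) (Y : Fin l → ℝ), |h| ≤ 1 ∧ (∀ j, |Y j| ≤ 1) ∧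
      2 ^ 2 ^ u * qsum (pick loc (fun j => h * (2 ^ 2 ^ u * X j)) (fun _ => 0) Y) h S -
        h ^ (2 ^ kp l S.length) ≤ -(1 / 2) ^ (2 ^ q2 n l S.length u) := by
  obtain ⟨κ, hκ⟩ : ∃ κ, κ = kp l S.length := ⟨_, rfl⟩
  obtain ⟨D, hD⟩ : ∃ D : ℤ, D = 2 ^ 2 ^ u := ⟨_, rfl⟩
  have hDr : ((D : ℤ) : ℝ) = 2 ^ 2 ^ u := by rw [hD]; push_cast; rfl
  have hDν : RNorm.int.ν D = 2 ^ 2 ^ u := by
    change D.natAbs = _
    rw [hD, Int.natAbs_pow]; rfl
  obtain ⟨F, hFdef⟩ : ∃ F : MvPolynomial (Fin (l + 1)) (MvPolynomial (Fin n) ℤ), F =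
      Fd loc S (MvPolynomial.C (MvPolynomial.C D))
        (fun j => MvPolynomial.C (MvPolynomial.X j)) (MvPolynomial.X 0)
        (fun j => MvPolynomial.X j.succ) := ⟨_, rfl⟩
  have hF : ∀ s, ((Lvl.int.ext n).ext (l + 1)).φ s F =
      Fd loc S (D : ℝ) s.1.2 (s.2 0) (fun j => s.2 j.succ) := by
    intro s
    rw [hFdef, Fd_map]
    simp only [ext_φ_C, ext_φ_X]
    rfl
  have hFν : (wm (wm RNorm.int n) (l + 1)).ν F ≤
      (2 ^ 2 ^ u) * (9 * (8 * 2 ^ 2 ^ u) ^ 4 * S.length) + 2 ^ 2 ^ κ := by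
    rw [hFdef]
    simp only [Fd]
    rw [← hκ]
    have hX : ∀ j, (wm (wm RNorm.int n) (l + 1)).ν (MvPolynomial.X j) ≤ 2 := fun j => wm_X _ _
    have hD' : (wm (wm RNorm.int n) (l + 1)).ν (MvPolynomial.C (MvPolynomial.C D)) ≤
        2 ^ 2 ^ u := by
      rw [wm_C, wm_C, hDν]
    have hXn : ∀ j : Fin n, (wm (wm RNorm.int n) (l + 1)).ν
        (MvPolynomial.C (MvPolynomial.X j)) ≤ 2 := by
      intro j
      rw [wm_C]; exact wm_X _ _
    have h2 : (wm (wm RNorm.int n) (l + 1)).ν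
        (2 : MvPolynomial (Fin (l + 1)) (MvPolynomial (Fin n) ℤ)) ≤ 2 := by
      have : (2 : MvPolynomial (Fin (l + 1)) (MvPolynomial (Fin n) ℤ)) =
        MvPolynomial.C (MvPolynomial.C 2) := by rw [map_ofNat, map_ofNat]
      rw [this, wm_C, wm_C]
      rfl
    have hmul : ∀ (a b : MvPolynomial (Fin (l + 1)) (MvPolynomial (Fin n) ℤ)) (p q : ℕ),
        (wm (wm RNorm.int n) (l + 1)).ν a ≤ p → (wm (wm RNorm.int n) (l + 1)).ν b ≤ q →
        (wm (wm RNorm.int n) (l + 1)).ν (a * b) ≤ p * q :=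
      fun a b p q h1 h2 => (RNorm.mul _ _ _).trans (Nat.mul_le_mul h1 h2)
    have h8 : 2 ≤ 8 * 2 ^ 2 ^ u := by
      have : 1 ≤ 2 ^ 2 ^ u := Nat.one_le_two_pow
      omega
    refine (RNorm.sub _ _ _).trans (Nat.add_le_add (hmul _ _ _ _ hD' ?_) (ν_pow _ _ _ _ (hX 0)))
    apply qsum_ν
    · apply pick_ν
      · intro j
        refine (hmul _ _ _ _ (hX 0) (hmul _ _ _ _ hD' (hmul _ _ _ _ h2 (hXn j)))).trans ?_
        apply le_of_eq; ring
      · intro j; exact j.elim0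
      · intro j; exact (hX _).trans h8
    · exact (hX 0).trans h8
  obtain ⟨h, hh⟩ : ∃ h : (Unit × (Fin n → ℝ)) × (Fin (l + 1) → ℝ) → ℝ,
      ∀ s, h s = -((Lvl.int.ext n).ext (l + 1)).φ s F := ⟨_, fun s => rfl⟩
  have hc : Continuous h := by
    have : h = fun s => -((Lvl.int.ext n).ext (l + 1)).φ s F := funext hh
    rw [this]
    exact (((Lvl.int.ext n).ext (l + 1)).cont F).neg
  have hP0 : Polynomial.X + Polynomial.C F ≠ 0 := (Polynomial.monic_X_add_C F).ne_zero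
  have hB : (wm (wm RNorm.int n) (l + 1)).poly.ν (Polynomial.X + Polynomial.C F) ≤
      2 ^ 2 ^ (u + κ + S.length + 6) := by
    refine (ν_X_add_C _ F).trans ?_
    have h1 := bound_F S.length κ u
    omega
  have p1 := wm_pos RNorm.int int_pos (N := n)
  obtain ⟨Q, hQ0, hQν, hQ⟩ := (Lvl.int.ext n).step (wm RNorm.int n) p1
    (Polynomial.X + Polynomial.C F) hP0 _ hB
    Nat.one_le_two_pow h hc (fun s => by
      rw [Polynomial.eval₂_add, Polynomial.eval₂_X, Polynomial.eval₂_C, hh]; ring)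
  have hQν' := (flip_ν (wm RNorm.int n) Q).trans
    (hQν.trans (bndL_le (l + 1) (u + κ + S.length + 6) _ (le_refl _)))
  obtain ⟨h1, hh1⟩ : ∃ h1 : Unit × (Fin n → ℝ) → ℝ, ∀ s, h1 s = -bmax h s := ⟨_, fun s => rfl⟩
  have hc1 : Continuous h1 := by
    have : h1 = fun s => -bmax h s := funext hh1
    rw [this]
    exact (continuous_bmax hc).neg
  obtain ⟨Q1, hQ10, hQ1ν, hQ1⟩ := Lvl.int.step RNorm.int int_pos (flip Q) (flip_ne_zero Q hQ0)
    _ hQν' Nat.one_le_two_pow h1 hc1 (fun s => by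
      rw [flip_eval, hh1, neg_neg]
      exact hQ s)
  have hQ1ν' : RNorm.int.poly.ν (flip Q1) ≤ 2 ^ 2 ^ q2 n l S.length u := by
    have h1 := (flip_ν RNorm.int Q1).trans (hQ1ν.trans (bndL_le n _ _ (le_refl _)))
    unfold q2
    rw [← hκ]
    exact h1
  -- the value of the game is negative
  have hval : ∀ s : Fin n → ℝ, s ∈ cube n → ∃ U ∈ cube (l + 1),
      Fd loc S (D : ℝ) s (U 0) (fun j => U j.succ) < 0 := by
    intro s hs
    by_contra hcon
    push Not at hcon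
    apply hS
    refine true_of_point loc S (D : ℝ) (fun j => (D : ℝ) * (2 * s j)) fun h Y hh hY => ?_
    have h2 := hcon (Fin.cons h Y) (by
      intro j
      refine Fin.cases ?_ (fun j => ?_) j
      · simpa using hh
      · simpa using hY j)
    simp only [Fin.cons_zero, Fin.cons_succ, Fd] at h2
    linarith
  have hneg : bmax h1 () < 0 := by
    obtain ⟨x, hx, hx2⟩ := exists_bmax hc1 ()
    obtain ⟨U, hU, hU2⟩ := hval x hx
    have e1 := le_bmax hc ((), x) hU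
    rw [hh, hF] at e1
    rw [← hx2, hh1]
    linarith
  have hroot : (flip Q1).eval₂ (Int.castRingHom ℝ) (-bmax h1 ()) = 0 := by
    rw [flip_eval, neg_neg]
    exact hQ1 ()
  have hε : bmax h1 () ≤ -(1 / 2) ^ (2 ^ q2 n l S.length u) := by
    rcases le_total (-bmax h1 ()) 1 with h2 | h2
    · have h3 := root_bound (flip Q1) (flip_ne_zero Q1 hQ10) _ hQ1ν' (-bmax h1 ()) (by linarith)
        h2 hroot
      push_cast at h3
      have h4 : ((1 : ℝ) / 2) ^ (2 ^ q2 n l S.length u) ≤ -bmax h1 () := by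
        rw [one_div, inv_pow, inv_le_iff_one_le_mul₀ (by positivity), mul_comm]
        exact h3
      linarith
    · have h4 : ((1 : ℝ) / 2) ^ (2 ^ q2 n l S.length u) ≤ 1 :=
        pow_le_one₀ (by norm_num) (by norm_num)
      linarith
  -- the point
  have hX2 : (fun j => X j / 2) ∈ cube n := by
    intro j
    rw [abs_div, abs_of_pos (by norm_num : (0 : ℝ) < 2)]
    have := hX j
    linarith
  have e2 := le_bmax hc1 () hX2
  rw [hh1] at e2
  obtain ⟨U, hU, hU2⟩ := exists_bmax hc ((), fun j => X j / 2)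
  rw [← hU2, hh, hF, neg_neg] at e2
  refine ⟨U 0, fun j => U j.succ, hU 0, fun j => hU j.succ, ?_⟩
  have e3 := e2.trans hε
  simp only [Fd] at e3
  rw [hDr] at e3
  have e4 : (fun j : Fin n => U 0 * (2 ^ 2 ^ u * (2 * (X j / 2)))) =
      fun j : Fin n => U 0 * (2 ^ 2 ^ u * X j) := by
    funext j; ring
  rw [e4] at e3
  exact e3

end Pool.Agent.T9h94.Iso
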