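import Pool.Agent.T9h94.Iso.Eval

/-!
# The sentence and its normal form
-/

set_option autoImplicit false

namespace Pool.Agent.T9h94.Iso

open Pool.Agent.NPC Pool.Agent.NPC.ER Pool.Agent.NPC.H612
open Pool.Agent.R537.RN (pick qsum cerr Gx kap)

theorem ear_iff_trueS (p : Inp) : EAR p ↔ TrueS (loc p) (nS p) := by
  rw [ear_iff_sys]
  obtain ⟨E, φ⟩ := p
  set p : Inp := (E, φ) with hp
  have hloc : ∀ (x : Fin (dn p) → ℝ) (z : Fin (dl p) → ℝ) (i : ℕ),
      pick (loc p) x (fun _ => 0) z i =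
        if h : i % 2 = 0 ∧ i / 2 ∈ E then x ⟨E.idxOf (i / 2), List.idxOf_lt_length_iff.2 h.2⟩
        else z ⟨(vS p).idxOf i, Nat.lt_succ_of_le List.idxOf_le_length⟩ := by
    intro x z i
    unfold pick loc
    by_cases h1 : i % 2 = 0 ∧ i / 2 ∈ p.1
    · rw [dif_pos h1, dif_pos h1]
      rfl
    · rw [dif_neg h1, dif_neg h1]
      rfl
  constructor
  · rintro ⟨x, hx⟩
    refine ⟨fun j => x (E.get j), fun z hz => ?_⟩
    refine hx (fun i => pick (loc p) (fun j => x (E.get j)) (fun _ => 0) z i) ?_ hz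
    intro i hi
    have e : 2 * i / 2 = i := by omega
    rw [hloc, dif_pos ⟨by omega, by rw [e]; exact hi⟩]
    have h5 : E.get ⟨E.idxOf (2 * i / 2), List.idxOf_lt_length_iff.2 (by rw [e]; exact hi)⟩ =
        i := by
      rw [List.get_eq_getElem]
      exact (List.getElem_idxOf _).trans e
    exact congrArg x h5
  · rintro ⟨x', hx'⟩
    have hX0 : ∀ i (hi : i ∈ E),
        (fun i => if h : i ∈ E then x' ⟨E.idxOf i, List.idxOf_lt_length_iff.2 h⟩ else 0) i =
        x' ⟨E.idxOf i, List.idxOf_lt_length_iff.2 hi⟩ := by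
      intro i hi
      dsimp only
      split_ifs
      rfl
    refine ⟨fun i => if h : i ∈ E then x' ⟨E.idxOf i, List.idxOf_lt_length_iff.2 h⟩ else 0,
      fun v hv hs => ?_⟩
    refine hx' (fun j => v ((vS p).getD j 0)) fun c hc => ?_
    refine (Con.holds_congr fun i hi => ?_).2 (hs c hc)
    have him : i ∈ vS p := List.mem_flatMap.2 ⟨c, hc, hi⟩
    rw [hloc]
    split_ifs with h1
    · have h3 : i = 2 * (i / 2) := by omega
      conv_rhs => rw [h3, hv _ h1.2]
      exact (hX0 _ h1.2).symm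
    · have h3 : (vS p).getD ((vS p).idxOf i) 0 = i := by
        rw [List.getD_eq_getElem _ _ (List.idxOf_lt_length_iff.2 him)]
        exact List.getElem_idxOf _
      simp only
      rw [h3]

/-- The normal form for a false sentence. -/
theorem dat_false (p : Inp) (h : ¬ EAR p) (X : Fin (dn p) → ℝ) (hX : ∀ j, X j ^ 2 ≤ 4) :
    ∃ y : ℕ → ℝ, (∀ a < dq p, y a ^ 2 ≤ dq p) ∧ (dat p).G2 X y 1 ≤ 0 := by
  rw [ear_iff_trueS] at h
  exact F_part (loc p) (nS p) h X fun j => abs_le.2 (abs_le_of_sq_le_sq'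
    (by have := hX j; norm_num; linarith) (by norm_num : (0:ℝ) ≤ 2))

/-- The normal form for a true sentence. -/
theorem dat_true (p : Inp) (h : EAR p) :
    ∃ X₀ : Fin (dn p) → ℝ, ∑ b, X₀ b ^ 2 ≤ 1 / 64 ∧ ∀ y : ℕ → ℝ, 1 / 2 ≤ (dat p).G2 X₀ y 1 := by
  rw [ear_iff_trueS] at h
  exact T_part (loc p) (nS p) h

end Pool.Agent.T9h94.Iso
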