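import Mathlib

/-! Polynomial functions, a relation by counting, and a grid point. -/

set_option autoImplicit false

namespace Pool.Agent.T9h94.Iso

/-- `f` is a polynomial function of total degree at most `d`. -/
def PF {ι : Type} (d : ℕ) (f : (ι → ℝ) → ℝ) : Prop :=
  ∃ p : MvPolynomial ι ℝ, p.totalDegree ≤ d ∧ ∀ a, MvPolynomial.eval a p = f a

/-- (A1) closure properties -/
theorem PF.mono {ι : Type} {d e : ℕ} {f : (ι → ℝ) → ℝ} (h : PF d f) (hde : d ≤ e) : PF e f := sorry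
theorem PF.const {ι : Type} (d : ℕ) (c : ℝ) : PF d (fun _ : ι → ℝ => c) := sorry
theorem PF.coord {ι : Type} {d : ℕ} (hd : 1 ≤ d) (i : ι) : PF d (fun a : ι → ℝ => a i) := sorry
theorem PF.add {ι : Type} {d : ℕ} {f g : (ι → ℝ) → ℝ} (hf : PF d f) (hg : PF d g) :
    PF d (fun a => f a + g a) := sorry
theorem PF.sub {ι : Type} {d : ℕ} {f g : (ι → ℝ) → ℝ} (hf : PF d f) (hg : PF d g) :
    PF d (fun a => f a - g a) := sorry
theorem PF.neg {ι : Type} {d : ℕ} {f : (ι → ℝ) → ℝ} (hf : PF d f) : PF d (fun a => -f a) := sorry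
theorem PF.mul {ι : Type} {d e : ℕ} {f g : (ι → ℝ) → ℝ} (hf : PF d f) (hg : PF e g) :
    PF (d + e) (fun a => f a * g a) := sorry
theorem PF.pow {ι : Type} {d : ℕ} {f : (ι → ℝ) → ℝ} (hf : PF d f) (k : ℕ) :
    PF (d * k) (fun a => f a ^ k) := sorry
theorem PF.sum {ι σ : Type} (s : Finset σ) {d : ℕ} {f : σ → (ι → ℝ) → ℝ}
    (hf : ∀ i ∈ s, PF d (f i)) : PF d (fun a => ∑ i ∈ s, f i a) := sorry
theorem PF.det {ι m : Type} [Fintype m] [DecidableEq m] {d : ℕ} {M : (ι → ℝ) → Matrix m m ℝ}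
    (hM : ∀ i j, PF d (fun a => M a i j)) : PF (Fintype.card m * d) (fun a => (M a).det) := sorry
theorem PF.adj {ι m : Type} [Fintype m] [DecidableEq m] {d : ℕ} {M : (ι → ℝ) → Matrix m m ℝ}
    (hM : ∀ i j, PF d (fun a => M a i j)) (i j : m) :
    PF (Fintype.card m * d) (fun a => (M a).adjugate i j) := sorry

/-- (A2) more functions than variables are related, by counting monomials (exponents `≤ T` in each
of the `κ`-variables against exponents `≤ δ * card κ * T` in each of the `ι`-variables, with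
`T = (δ * card κ + 1) ^ card ι`). -/
theorem exists_relation {ι κ : Type} [Fintype ι] [Fintype κ]
    (hκ : Fintype.card κ = Fintype.card ι + 1) (δ : ℕ)
    (N : κ → (ι → ℝ) → ℝ) (hN : ∀ k, PF δ (N k)) (D : (ι → ℝ) → ℝ) (hD : PF δ D) :
    ∃ Q : MvPolynomial κ ℝ, Q ≠ 0 ∧
      (∀ k, Q.degreeOf k ≤ (δ * Fintype.card κ + 1) ^ Fintype.card ι) ∧
      ∀ a, D a ≠ 0 → ∀ c : κ → ℝ, (∀ k, c k * D a = N k a) → MvPolynomial.eval c Q = 0 := sorry

/-- (A3) a grid point which is not a zero of the leading coefficients. -/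
theorem exists_grid {Λ ι : Type} [Fintype Λ] [Fintype ι] (T N : ℕ)
    (hN : Fintype.card ι * T < N) (Q : ι → MvPolynomial (Option Λ) ℝ) (hQ : ∀ i, Q i ≠ 0)
    (hT : ∀ i k, (Q i).degreeOf k ≤ T) (η : ℝ) (hη : η ≠ 0) :
    ∃ m : Λ → ℕ, (∀ k, m k < N) ∧ ∀ i,
      {x : ℝ | MvPolynomial.eval (fun o : Option Λ => o.elim x (fun k => η * m k)) (Q i) = 0}.Finite :=
  sorry

end Pool.Agent.T9h94.Iso
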