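import Mathlib

/-! Fritz John conditions, Hermite interpolation, separating directions. -/

set_option autoImplicit false

open Filter Topology

namespace Pool.Agent.T9h94.Iso

/-- (B) First order conditions for a maximum of a minimum (Danskin, separation, Caratheodory
`convexHull_eq_union`). Proof: if `0` is not in the convex hull of the compact set
`{dF X₀ y : y ∈ K, F X₀ y = v}`, a direction `u` has `∑ dF X₀ y b * u b ≥ δ > 0` on it; take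
`y_t ∈ K` with `F (X₀ + t u) y_t ≤ v ≤ F X₀ y_t`, the mean value theorem and a cluster point. -/
theorem fritz_john {n q : ℕ} (F : (Fin n → ℝ) → (Fin q → ℝ) → ℝ)
    (dF : (Fin n → ℝ) → (Fin q → ℝ) → Fin n → ℝ)
    (hF : Continuous fun p : (Fin n → ℝ) × (Fin q → ℝ) => F p.1 p.2)
    (hdF : ∀ b, Continuous fun p : (Fin n → ℝ) × (Fin q → ℝ) => dF p.1 p.2 b)
    (hd : ∀ X y (u : Fin n → ℝ) (t : ℝ),
      HasDerivAt (fun t => F (X + t • u) y) (∑ b, dF (X + t • u) y b * u b) t)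
    (K : Set (Fin q → ℝ)) (hK : IsCompact K) (X₀ : Fin n → ℝ) (v : ℝ)
    (h1 : ∀ y ∈ K, v ≤ F X₀ y) (h2 : ∀ᶠ X in 𝓝 X₀, ∃ y ∈ K, F X y ≤ v) :
    ∃ (j : ℕ) (y : Fin (j + 1) → Fin q → ℝ) (c : Fin (j + 1) → ℝ), j ≤ n ∧
      Function.Injective y ∧ (∀ i, y i ∈ K ∧ F X₀ (y i) = v) ∧ (∀ i, 0 < c i) ∧
      ∑ i, c i = 1 ∧ ∀ b, ∑ i, c i * dF X₀ (y i) b = 0 := sorry

/-- (D1) Uniqueness of Hermite interpolation. -/
theorem hermite_inj (j q : ℕ) (z : Fin j → ℝ) (hz : Function.Injective z)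
    (y : Fin j → Fin q → ℝ) (p0 : Fin (2 * j) → ℝ) (p : Fin q → Fin j → ℝ)
    (h0 : ∀ i, ∑ d, p0 d * z i ^ (d : ℕ) + ∑ a, ∑ d, p a d * (y i a * z i ^ (d : ℕ)) = 0)
    (h1 : ∀ i, ∑ d, p0 d * ((d : ℕ) * z i ^ ((d : ℕ) - 1)) +
      ∑ a, ∑ d, p a d * (y i a * ((d : ℕ) * z i ^ ((d : ℕ) - 1))) = 0)
    (h2 : ∀ i a, ∑ d, p a d * z i ^ (d : ℕ) = 0) : (∀ d, p0 d = 0) ∧ ∀ a d, p a d = 0 := sorry

/-- (D2) One of the directions `(1, s, s², …)` separates the points. -/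
theorem exists_dir (j q S : ℕ) (hS : j * j * q < S) (y : Fin j → Fin q → ℝ)
    (hy : Function.Injective y) :
    ∃ s < S, Function.Injective fun i => ∑ b : Fin q, (s : ℝ) ^ (b : ℕ) * y i b := sorry

end Pool.Agent.T9h94.Iso
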