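import Pool.Agent.T9h94.Iso.Form
import Pool.Agent.T9h85.Iso.A
import Pool.Agent.T9h46.Iso.B

/-!
# The critical system
-/

set_option autoImplicit false

namespace Pool.Agent.T9h94.Iso

open Finset Pool.Agent.NPC Pool.Agent.R537.RN

/-- Extension by zero. -/
def ex {q : ℕ} (y : Fin q → ℝ) (a : ℕ) : ℝ := if h : a < q then y ⟨a, h⟩ else 0

/-- The data. -/
structure Dat where
  /-- number of existential variables -/
  n : ℕ
  /-- number of universal variables -/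
  l : ℕ
  loc : ℕ → Fin n ⊕ (Fin 0 ⊕ Fin l)
  S : List ER.Con
  /-- the number of directions -/
  S0 : ℕ
  D : ℝ
  C : ℝ
  B : ℝ
  β : ℝ

namespace Dat

variable (G : Dat)

/-- The exponent of the normal form. -/
def κ : ℕ := kp G.l G.S.length

/-- The number of the variables `y`. -/
def q : ℕ := qd G.l G.κ

/-- The number of the parameters. -/
def L : ℕ := G.n + G.S0 * G.q * (2 * (G.n + 1))

/-- The main polynomial. -/
def G2 (X : Fin G.n → ℝ) (y : ℕ → ℝ) (t : ℝ) : ℝ :=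
  Gt G.loc G.S G.κ G.D G.C G.B X y t

/-- The perturbed polynomial. -/
def F (c : ℕ → ℝ) (X : Fin G.n → ℝ) (y : Fin G.q → ℝ) : ℝ :=
  Ft G.loc G.S G.κ G.S0 G.D G.C G.B G.β c X (ex y)

/-- The derivative of the perturbed polynomial in the direction `(U, W)`, by dual numbers. -/
noncomputable def dF (c : ℕ → ℝ) (U : Fin G.n → ℝ) (W : ℕ → ℝ) (X : Fin G.n → ℝ)
    (y : Fin G.q → ℝ) : ℝ :=
  (Ft (R := DualNumber ℝ) G.loc G.S G.κ G.S0 (TrivSqZeroExt.inl G.D) (TrivSqZeroExt.inl G.C)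
    (TrivSqZeroExt.inl G.B) (TrivSqZeroExt.inl G.β) (fun i => TrivSqZeroExt.inl (c i))
    (fun b => TrivSqZeroExt.inl (X b) + TrivSqZeroExt.inr (U b))
    (fun a => TrivSqZeroExt.inl (ex y a) + TrivSqZeroExt.inr (W a))).snd

/-- The partial derivative with respect to `X b`. -/
noncomputable def dX (c : ℕ → ℝ) (b : Fin G.n) (X : Fin G.n → ℝ) (y : Fin G.q → ℝ) : ℝ :=
  G.dF c (fun b' => if b' = b then 1 else 0) (fun _ => 0) X y

/-- The partial derivative with respect to `y a`. -/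
noncomputable def dY (c : ℕ → ℝ) (a : ℕ) (X : Fin G.n → ℝ) (y : Fin G.q → ℝ) : ℝ :=
  G.dF c (fun _ => 0) (fun a' => if a' = a then 1 else 0) X y

/-- The critical system with `j + 1` points. -/
structure Sol (c : ℕ → ℝ) (j : ℕ) (X : Fin G.n → ℝ) (v : ℝ) (y : Fin (j + 1) → Fin G.q → ℝ)
    (w : Fin (j + 1) → ℝ) : Prop where
  sum : ∑ i, w i = 1
  val : ∀ i, G.F c X (y i) = v
  gy : ∀ i, ∀ a < G.q, G.dY c a X (y i) = 0
  gX : ∀ b, ∑ i, w i * G.dX c b X (y i) = 0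

/-- The number of the bits of the parameters. -/
def nbits : ℕ :=
  G.L * (((G.n + 1) * (G.q + 1) * (2 * G.n + 2) + 2 * G.n + 40) * (G.L + 1) + 1) +
    (G.n + 1) * G.S0 * (G.n + 1 + (G.n + 1) * (G.q + 1)) + 1

/-! ### The statements of the parts -/

/-- (P0) derivatives along lines -/
def StmtDeriv : Prop := ∀ (G : Dat) (c : ℕ → ℝ) (X U : Fin G.n → ℝ) (y W : Fin G.q → ℝ) (t : ℝ),
    HasDerivAt (fun t : ℝ => G.F c (X + t • U) (y + t • W))
      (∑ b, G.dX c b (X + t • U) (y + t • W) * U b +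
        ∑ a : Fin G.q, G.dY c a (X + t • U) (y + t • W) * W a) t

/-- (P0) continuity -/
def StmtCont : Prop := ∀ (G : Dat) (c : ℕ → ℝ),
    (Continuous fun p : (Fin G.n → ℝ) × (Fin G.q → ℝ) => G.F c p.1 p.2) ∧
    (∀ b, Continuous fun p : (Fin G.n → ℝ) × (Fin G.q → ℝ) => G.dX c b p.1 p.2) ∧
    ∀ a, Continuous fun p : (Fin G.n → ℝ) × (Fin G.q → ℝ) => G.dY c a p.1 p.2

/-- (P0) degrees of the parts without parameters -/
def StmtDeg : Prop := ∀ (G : Dat) (ι : Type) (eX : Fin G.n → ι) (eY : Fin G.q → ι),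
    PF (2 * G.n + 20) (fun a : ι → ℝ => G.F 0 (fun b => a (eX b)) (fun k => a (eY k))) ∧
    (∀ b, PF (2 * G.n + 20)
      (fun a : ι → ℝ => G.dX 0 b (fun b => a (eX b)) (fun k => a (eY k)))) ∧
    ∀ k < G.q, PF (2 * G.n + 20)
      (fun a : ι → ℝ => G.dY 0 k (fun b => a (eX b)) (fun k => a (eY k)))

/-- (P1) for some parameters on the grid, the critical systems have finitely many solutions whose
points are separated by one of the directions -/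
def StmtParams : Prop := ∀ (G : Dat) (nb : ℕ), G.nbits ≤ nb → ∀ η : ℝ, η ≠ 0 →
    ∃ m : ℕ → ℕ, (∀ k, m k < 2 ^ nb) ∧ ∀ j ≤ G.n, ∀ s < G.S0,
      {w : (Fin G.n → ℝ) × ℝ × (Fin (j + 1) → Fin G.q → ℝ) × (Fin (j + 1) → ℝ) |
        G.Sol (fun k => η * m k) j w.1 w.2.1 w.2.2.1 w.2.2.2 ∧
        Function.Injective fun i => ∑ b : Fin G.q, (s : ℝ) ^ (b : ℕ) * w.2.2.1 i b}.Finite

/-- (P3) existence of a solution of the critical system: `hT` is the normal form, `hc` the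
smallness of the perturbation -/
def StmtSol : Prop := ∀ (G : Dat) (c : ℕ → ℝ) (X₀ : Fin G.n → ℝ), ∑ b, X₀ b ^ 2 ≤ 1 / 64 →
    0 ≤ G.C → 0 ≤ G.B → 0 ≤ G.D → 1 ≤ G.S0 →
    (∀ y : ℕ → ℝ, 1 / 2 ≤ G.G2 X₀ y 1) →
    0 < G.β → G.β * (G.q * (G.q : ℝ) ^ (G.n + 2)) ≤ 1 / 16 →
    ∀ θ : ℝ, θ ≤ G.β → θ ≤ 1 / 64 →
    (∀ k < G.L, |c k| * (G.L * ((G.q : ℝ) * (G.S0 : ℝ) ^ G.q + 1) ^ (2 * (G.n + 1))) ≤ θ) →
    ∃ j ≤ G.n, ∃ X v y w, G.Sol c j X v y w ∧ Function.Injective y ∧ (∀ b, X b ^ 2 < 4) ∧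
      ∀ z : ℕ → ℝ, (∀ a < G.q, z a ^ 2 ≤ G.q) → 0 < G.G2 X z 1

end Dat

end Pool.Agent.T9h94.Iso
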