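import Pool.Agent.T9h94.Iso.Holds

/-!
# The equivalence
-/

set_option autoImplicit false

namespace Pool.Agent.T9h94.Iso.Red

open Pool.Agent.NPC Pool.Agent.NPC.ER Pool.Agent.NPC.H612
open Pool.Agent.NPC.R537HD (asg semi numT sqT subT eval_numT eval_sqT eval_subT)
open Topology Filter

/-- The semialgebraic set given by `φ` in `ℝⁿ` has an isolated point. -/
def HasIso (n : ℕ) (φ : Fm) : Prop :=
  ∃ x ∈ semi n φ, ∃ ε : ℝ, 0 < ε ∧ ∀ y ∈ semi n φ, dist y x < ε → y = x

/-- ISOLATED-POINT-EXISTENCE -/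
def IsolatedPointExistence (I : IInst) : Prop := HasIso I.1.length I.2

theorem continuous_asg (n : ℕ) : Continuous (asg : EuclideanSpace ℝ (Fin n) → ℕ → ℝ) := by
  refine continuous_pi fun i => ?_
  unfold asg
  split_ifs
  · exact (EuclideanSpace.proj (𝕜 := ℝ) _).continuous
  · exact continuous_const

/-- The point with the given coordinates. -/
noncomputable def toP (n : ℕ) (v : ℕ → ℝ) : EuclideanSpace ℝ (Fin n) :=
  WithLp.toLp 2 fun i : Fin n => v i

theorem continuous_toP (n : ℕ) : Continuous (toP n) :=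
  (PiLp.continuous_toLp 2 _).comp (continuous_pi fun _ => continuous_apply _)

theorem asg_toP {n : ℕ} {v : ℕ → ℝ} (h : ∀ i, n ≤ i → v i = 0) : asg (toP n v) = v := by
  funext i
  unfold asg toP
  split_ifs with hi
  · rfl
  · exact (h i (by omega)).symm

theorem asg_supp {n : ℕ} (x : EuclideanSpace ℝ (Fin n)) (i : ℕ) (hi : n ≤ i) : asg x i = 0 := by
  unfold asg
  rw [dif_neg (by omega)]

theorem asg_inj {n : ℕ} {x y : EuclideanSpace ℝ (Fin n)} (h : asg x = asg y) : x = y := by
  ext i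
  have := congrFun h i
  unfold asg at this
  simpa [i.2] using this

theorem hasIso_of_nhds {n : ℕ} {φ : Fm} (v : ℕ → ℝ) (h : ∀ i, n ≤ i → v i = 0)
    (h1 : φ.Holds v) (h2 : ∀ᶠ w in 𝓝 v, (∀ i, n ≤ i → w i = 0) → φ.Holds w → w = v) :
    HasIso n φ := by
  refine ⟨toP n v, ?_, ?_⟩
  · change φ.Holds (asg (toP n v))
    rwa [asg_toP h]
  · have h3 : ∀ᶠ y in 𝓝 (toP n v), (∀ i, n ≤ i → asg y i = 0) → φ.Holds (asg y) → asg y = v := by
      have h5 := (continuous_asg n).continuousAt (x := toP n v)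
      unfold ContinuousAt at h5
      rw [asg_toP h] at h5
      exact h5.eventually h2
    obtain ⟨ε, hε, h4⟩ := Metric.eventually_nhds_iff.1 h3
    refine ⟨ε, hε, fun y hy hd => asg_inj ?_⟩
    rw [asg_toP h]
    exact h4 hd (asg_supp y) hy

theorem HasIso.curve {n : ℕ} {φ : Fm} (H : HasIso n φ) :
    ∃ v : ℕ → ℝ, (∀ i, n ≤ i → v i = 0) ∧ φ.Holds v ∧
      ∀ u : ℝ → ℕ → ℝ, (∀ i, Continuous fun δ => u δ i) → u 0 = v →
        (∀ δ i, n ≤ i → u δ i = 0) → ∃ δ > 0, φ.Holds (u δ) → u δ = v := by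
  obtain ⟨x, hx, ε, hε, h⟩ := H
  refine ⟨asg x, asg_supp x, hx, fun u hu h0 hs => ?_⟩
  have hc : Continuous fun δ => toP n (u δ) := (continuous_toP n).comp (continuous_pi hu)
  have hx0 : toP n (u 0) = x := asg_inj (by rw [asg_toP (hs 0), h0])
  have h1 : ∀ᶠ δ in 𝓝 (0:ℝ), dist (toP n (u δ)) x < ε := by
    have h2 := hc.continuousAt (x := 0)
    have h3 := Metric.tendsto_nhds.1 h2 ε hε
    simpa only [hx0] using h3
  have h2 : ∀ᶠ δ in 𝓝[>] (0:ℝ), dist (toP n (u δ)) x < ε := h1.filter_mono nhdsWithin_le_nhds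
  obtain ⟨δ, hδ, hδ0⟩ := (h2.and self_mem_nhdsWithin).exists
  refine ⟨δ, hδ0, fun h3 => ?_⟩
  have h4 := h (toP n (u δ)) (by change φ.Holds (asg _); rwa [asg_toP (hs δ)]) hδ
  rw [← h4, asg_toP (hs δ)]

/-! ### Only the first parameters matter -/

section congr

variable (G : Dat) {c c' : ℕ → ℝ} (hc : ∀ k < G.L, c k = c' k)

include hc

theorem F_cc (X : Fin G.n → ℝ) (y : Fin G.q → ℝ) : G.F c X y = G.F c' X y :=
  Ft_congr _ _ _ _ _ _ _ _ _ _ _ _ _ (fun _ _ => rfl) hc

theorem dF_cc (U : Fin G.n → ℝ) (W : ℕ → ℝ) (X : Fin G.n → ℝ) (y : Fin G.q → ℝ) :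
    G.dF c U W X y = G.dF c' U W X y := by
  unfold Dat.dF
  congr 1
  refine Ft_congr _ _ _ _ _ _ _ _ _ _ _ _ _ (fun _ _ => rfl) fun k hk => ?_
  rw [hc k hk]

theorem Sol_cc {j : ℕ} {X : Fin G.n → ℝ} {v : ℝ} {y : Fin (j + 1) → Fin G.q → ℝ}
    {w : Fin (j + 1) → ℝ} (h : G.Sol c j X v y w) : G.Sol c' j X v y w := by
  refine ⟨h.sum, fun i => ?_, fun i a ha => ?_, fun b => ?_⟩
  · rw [← F_cc G hc]; exact h.val i
  · have := h.gy i a ha
    unfold Dat.dY at this ⊢
    rwa [← dF_cc G hc]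
  · have := h.gX b
    unfold Dat.dX at this ⊢
    simpa only [← dF_cc G hc] using this

end congr

theorem G2_scale (G : Dat) (X : Fin G.n → ℝ) (y : ℕ → ℝ) (t lam : ℝ) :
    G.G2 X (fun a => lam * y a) (lam * t) = lam ^ 4 * G.G2 X y t :=
  Gt_scale _ _ _ _ _ _ _ _ _ _

theorem G2_congr (G : Dat) (X : Fin G.n → ℝ) (y y' : ℕ → ℝ) (t : ℝ)
    (h : ∀ a < G.q, y a = y' a) : G.G2 X y t = G.G2 X y' t :=
  Gt_congr _ _ _ _ _ _ _ _ _ _ h

variable (p : Inp)

/-! ### The indices -/

theorem dq_pos : 0 < dq p := by unfold dq qd; omega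

theorem iY_lt {i a : ℕ} (hi : i ≤ dn p) (ha : a < dq p) : dn p + i * dq p + a < iV p := by
  unfold iV
  have : i * dq p + dq p ≤ (dn p + 1) * dq p := by
    calc i * dq p + dq p = (i + 1) * dq p := by ring
      _ ≤ (dn p + 1) * dq p := Nat.mul_le_mul_right _ (by omega)
  omega

theorem iC_lt {k r : ℕ} (hk : k < dL p) (hr : r < dnb p) :
    iC p + k * dnb p + r < iP p := by
  unfold iP
  have : k * dnb p + dnb p ≤ dL p * dnb p := by
    calc k * dnb p + dnb p = (k + 1) * dnb p := by ring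
      _ ≤ dL p * dnb p := Nat.mul_le_mul_right _ (by omega)
  omega

theorem dn_le_iV : dn p ≤ iV p := by unfold iV; omega
theorem iV_lt_iW : iV p < iW p := by unfold iW; omega
theorem iW_le_iA : iW p + dn p < iA p := by unfold iA; omega
theorem iA_le_iB : iA p + (U2 p + 2) < iB p := by unfold iB; omega
theorem iB_le_iC : iB p + U4 p < iC p := by unfold iC; omega
theorem iC_le_iP : iC p ≤ iP p := by unfold iP; omega
theorem iP_le_iM : iP p + dnb p < iM p := by unfold iM; omega
theorem iM_lt_iT : iM p < iT p := by unfold iT; omega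
theorem iT_lt_iZ : iT p < iZ p := by unfold iZ; omega
theorem iZ_le_dim : iZ p + dq p = dim p := rfl

/-- Agreement below the height. -/
theorem Cst_congr {v w : ℕ → ℝ} (h : ∀ i < iT p, v i = w i) (hv : Cst p v) : Cst p w := by
  have a1 := dn_le_iV p
  have a2 := iV_lt_iW p
  have a3 := iW_le_iA p
  have a4 := iA_le_iB p
  have a5 := iB_le_iC p
  have a6 := iC_le_iP p
  have a7 := iP_le_iM p
  have a8 := iM_lt_iT p
  refine ⟨fun j hj => ?_, fun j hj => ?_, fun r hr => ?_, fun r hr => ?_, fun b hb => ?_⟩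
  · rw [← h _ (by omega)]; exact hv.hA j hj
  · rw [← h _ (by omega)]; exact hv.hB j hj
  · rw [← h _ (by omega)]; exact hv.hP r hr
  · have : iC p + r < iP p := by unfold iP; omega
    rw [← h _ (by omega)]; exact hv.hC r hr
  · rw [← h _ (by omega)]; exact hv.hX b hb

theorem cv_congr {v w : ℕ → ℝ} (h : ∀ i < iT p, v i = w i) (hv : Cst p v) (k : ℕ)
    (hk : k < dL p) : cv p v k = cv p w k := by
  rw [cv_eq p v hv, cv_eq p w (Cst_congr p h hv)]
  congr 1
  refine Finset.sum_congr rfl fun r hr => ?_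
  rw [h]
  have := iC_lt p hk (Finset.mem_range.1 hr)
  have a7 := iP_le_iM p
  have a8 := iM_lt_iT p
  omega

theorem Crit_congr {v w : ℕ → ℝ} (h : ∀ i < iT p, v i = w i) (hv : Cst p v) {j : ℕ}
    (hj : j ≤ dn p) (hc : Crit p v j) : Crit p w j := by
  have a1 := dn_le_iV p
  have a2 := iV_lt_iW p
  have a3 := iW_le_iA p
  have a4 := iA_le_iB p
  have a5 := iB_le_iC p
  have a6 := iC_le_iP p
  have a7 := iP_le_iM p
  have a8 := iM_lt_iT p
  obtain ⟨h1, h2, h3⟩ := hc
  refine ⟨?_, fun i hi hi' => ?_, fun i hi hi' a ha => ?_⟩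
  · have h4 := Sol_cc (dat p) (c' := cv p w) (fun k hk => cv_congr p h hv k hk) h1
    have e1 : aX p v = aX p w := funext fun b => h _ (by have := b.2; omega)
    have e2 : (fun i : Fin (j + 1) => aY p v i) = fun i : Fin (j + 1) => aY p w i := by
      funext i a
      refine h _ ?_
      have := iY_lt p (i := i) (a := a) (by omega) a.2
      omega
    have e3 : (fun i : Fin (j + 1) => v (iW p + i)) = fun i : Fin (j + 1) => w (iW p + i) := by
      funext i
      exact h _ (by omega)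
    rw [e1, e2, e3, h (iV p) (by omega)] at h4
    exact h4
  · rw [← h _ (by omega)]; exact h2 i hi hi'
  · have := iY_lt p (i := i) (a := a) hi' ha
    rw [← h _ (by omega)]; exact h3 i hi hi' a ha

theorem fD_congr {v w : ℕ → ℝ} (h : ∀ i < iT p, v i = w i) (hv : (fD p).Holds v) :
    (fD p).Holds w := by
  rw [holds_fD] at hv ⊢
  obtain ⟨h1, j, hj, h2, h3⟩ := hv
  exact ⟨Cst_congr p h h1, j, hj, by rw [← h _ (iM_lt_iT p)]; exact h2,
    Crit_congr p h h1 hj h3⟩

/-! ### The false sentences -/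

theorem not_iso_of_false (h : ¬ EAR p) : ¬ HasIso (dim p) (fS p) := by
  intro H
  obtain ⟨v, hv0, hv, hcur⟩ := H.curve
  have hv' : (fD p).Holds v ∧ (fK p).Holds v := hv
  obtain ⟨hD, hK⟩ := hv'
  have hC : Cst p v := ((holds_fD p v).1 hD).1
  have hK' := (holds_fK p v hC).1 hK
  have b1 := iT_lt_iZ p
  have b2 := iZ_le_dim p
  have b3 := dn_le_iV p
  have b4 : iV p < iT p := by
    have a2 := iV_lt_iW p
    have a3 := iW_le_iA p
    have a4 := iA_le_iB p
    have a5 := iB_le_iC p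
    have a6 := iC_le_iP p
    have a7 := iP_le_iM p
    have a8 := iM_lt_iT p
    omega
  rcases hK' with ⟨hT, hZ⟩ | ⟨hT, hG, hZ⟩
  · obtain ⟨y, hy1, hy2⟩ := dat_false p h (aX p v) fun b => hC.hX b b.2
    let u : ℝ → ℕ → ℝ := fun δ i => v i + (if i = iT p then δ else
      if iZ p ≤ i ∧ i < dim p then δ * y (i - iZ p) else 0)
    obtain ⟨δ, hδ, h1⟩ := hcur u (fun i => by
        simp only [u]
        split_ifs <;> fun_prop) (by
        funext i
        simp [u]) (fun δ i hi => by
        simp only [u]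
        rw [if_neg (by omega), if_neg (by omega), hv0 i hi, add_zero])
    have hlow : ∀ i < iT p, v i = u δ i := fun i hi => by
      simp only [u]
      rw [if_neg (by omega), if_neg (by omega), add_zero]
    have huT : u δ (iT p) = δ := by
      simp only [u, if_true]
      rw [hT, zero_add]
    have huZ : ∀ a < dq p, u δ (iZ p + a) = δ * y a := fun a ha => by
      simp only [u]
      rw [if_neg (by omega), if_pos (by omega), hZ a ha, zero_add, Nat.add_sub_cancel_left]
    have h2 : (fS p).Holds (u δ) := by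
      refine ⟨fD_congr p hlow hD, ?_⟩
      rw [holds_fK p _ (Cst_congr p hlow hC)]
      right
      refine ⟨by rw [huT]; exact hδ, ?_, fun a ha => ?_⟩
      · have e1 : aX p (u δ) = aX p v := funext fun b => (hlow _ (by have := b.2; omega)).symm
        have e2 : (dat p).G2 (aX p v) (fun a => u δ (iZ p + a)) δ =
            δ ^ 4 * (dat p).G2 (aX p v) y 1 := by
          rw [← G2_scale (dat p) (aX p v) y 1 δ, mul_one]
          exact G2_congr (dat p) _ _ _ _ huZ
        rw [e1, huT, e2]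
        exact mul_nonpos_of_nonneg_of_nonpos (by positivity) hy2
      · rw [huZ a ha, huT, mul_pow, mul_comm]
        exact mul_le_mul_of_nonneg_right (hy1 a ha) (sq_nonneg _)
    have h3 := congrFun (h1 h2) (iT p)
    rw [huT, hT] at h3
    exact hδ.ne' h3
  · let u : ℝ → ℕ → ℝ := fun δ i => v i + (if iT p ≤ i then δ * v i else 0)
    obtain ⟨δ, hδ, h1⟩ := hcur u (fun i => by
        simp only [u]
        split_ifs <;> fun_prop) (by
        funext i
        simp [u]) (fun δ i hi => by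
        simp only [u]
        rw [if_pos (by omega), hv0 i hi, mul_zero, add_zero])
    have hlow : ∀ i < iT p, v i = u δ i := fun i hi => by
      simp only [u]
      rw [if_neg (by omega), add_zero]
    have hhi : ∀ i, iT p ≤ i → u δ i = (1 + δ) * v i := fun i hi => by
      simp only [u]
      rw [if_pos hi]; ring
    have h2 : (fS p).Holds (u δ) := by
      refine ⟨fD_congr p hlow hD, ?_⟩
      rw [holds_fK p _ (Cst_congr p hlow hC)]
      right
      refine ⟨by rw [hhi _ le_rfl]; exact mul_pos (by linarith) hT, ?_, fun a ha => ?_⟩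
      · have e1 : aX p (u δ) = aX p v := funext fun b => (hlow _ (by have := b.2; omega)).symm
        have e2 : (dat p).G2 (aX p v) (fun a => u δ (iZ p + a)) ((1 + δ) * v (iT p)) =
            (1 + δ) ^ 4 * (dat p).G2 (aX p v) (fun a => v (iZ p + a)) (v (iT p)) := by
          rw [← G2_scale (dat p) (aX p v) _ _ (1 + δ)]
          exact G2_congr (dat p) _ _ _ _ fun a ha => hhi _ (by omega)
        rw [e1, hhi _ le_rfl, e2]
        exact mul_nonpos_of_nonneg_of_nonpos (by positivity) hG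
      · rw [hhi _ (by omega), hhi _ le_rfl, mul_pow, mul_pow]
        have := hZ a ha
        nlinarith [mul_le_mul_of_nonneg_left this (sq_nonneg (1 + δ))]
    have h3 := congrFun (h1 h2) (iT p)
    rw [hhi _ le_rfl] at h3
    have : δ * v (iT p) = 0 := by linarith
    rcases mul_eq_zero.1 this with h4 | h4
    · exact hδ.ne' h4
    · exact hT.ne' h4

end Pool.Agent.T9h94.Iso.Red
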