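import Pool.Agent.T9h94.Iso.Top

/-!
# The isolated point of a true sentence
-/

set_option autoImplicit false

namespace Pool.Agent.T9h94.Iso.Red

open Pool.Agent.NPC Pool.Agent.NPC.ER Pool.Agent.NPC.H612
open Pool.Agent.NPC.R537HD (asg semi numT sqT subT eval_numT eval_sqT eval_subT)
open Topology Filter

/-- The binary digits. -/
def bitN (x r : ℕ) : ℕ := x / 2 ^ r % 2

theorem sum_bitN (x n : ℕ) : ∑ r ∈ Finset.range n, 2 ^ r * bitN x r = x % 2 ^ n := by
  induction n with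
  | zero => simp [Nat.mod_one]
  | succ n ih => rw [Finset.sum_range_succ, ih, Nat.mod_pow_succ]; rfl

theorem bitN_lt (x r : ℕ) : bitN x r < 2 := Nat.mod_lt _ (by norm_num)

variable (p : Inp)

/-- The assignment. -/
noncomputable def vst (X : ℕ → ℝ) (vv : ℝ) (y : ℕ → ℕ → ℝ) (w : ℕ → ℝ) (m : ℕ → ℕ) (j : ℕ)
    (i : ℕ) : ℝ :=
  if i < dn p then X i
  else if i < iV p then y ((i - dn p) / dq p) ((i - dn p) % dq p)
  else if i < iW p then vv
  else if i < iA p then w (i - iW p)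
  else if i < iB p then 2 ^ 2 ^ (i - iA p)
  else if i < iC p then (1 / 2) ^ 2 ^ (i - iB p)
  else if i < iP p then (bitN (m ((i - iC p) / dnb p)) ((i - iC p) % dnb p) : ℝ)
  else if i < iM p then 2 ^ (i - iP p)
  else if i < iT p then j
  else 0

section vst

variable (X : ℕ → ℝ) (vv : ℝ) (y : ℕ → ℕ → ℝ) (w : ℕ → ℝ) (m : ℕ → ℕ) (j : ℕ)

theorem vst_X {b : ℕ} (hb : b < dn p) : vst p X vv y w m j b = X b := by
  unfold vst; rw [if_pos hb]

theorem vst_Y {i a : ℕ} (hi : i ≤ dn p) (ha : a < dq p) :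
    vst p X vv y w m j (dn p + i * dq p + a) = y i a := by
  have h1 := iY_lt p hi ha
  have h2 : dn p + i * dq p + a - dn p = a + dq p * i := by
    rw [mul_comm]; omega
  unfold vst
  rw [if_neg (by omega), if_pos h1, h2, Nat.add_mul_div_left _ _ (dq_pos p),
    Nat.add_mul_mod_self_left, Nat.div_eq_of_lt ha, Nat.mod_eq_of_lt ha, zero_add]

theorem vst_V : vst p X vv y w m j (iV p) = vv := by
  have a1 := dn_le_iV p
  have a2 := iV_lt_iW p
  unfold vst
  rw [if_neg (by omega), if_neg (by omega), if_pos (by omega)]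

theorem vst_W {i : ℕ} (hi : i ≤ dn p) : vst p X vv y w m j (iW p + i) = w i := by
  have a1 := dn_le_iV p
  have a2 := iV_lt_iW p
  have a3 := iW_le_iA p
  unfold vst
  rw [if_neg (by omega), if_neg (by omega), if_neg (by omega), if_pos (by omega),
    Nat.add_sub_cancel_left]

theorem vst_A {i : ℕ} (hi : i ≤ U2 p + 2) : vst p X vv y w m j (iA p + i) = 2 ^ 2 ^ i := by
  have a1 := dn_le_iV p
  have a2 := iV_lt_iW p
  have a3 := iW_le_iA p
  have a4 := iA_le_iB p
  unfold vst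
  rw [if_neg (by omega), if_neg (by omega), if_neg (by omega), if_neg (by omega),
    if_pos (by omega), Nat.add_sub_cancel_left]

theorem vst_B {i : ℕ} (hi : i ≤ U4 p) : vst p X vv y w m j (iB p + i) = (1 / 2) ^ 2 ^ i := by
  have a1 := dn_le_iV p
  have a2 := iV_lt_iW p
  have a3 := iW_le_iA p
  have a4 := iA_le_iB p
  have a5 := iB_le_iC p
  unfold vst
  rw [if_neg (by omega), if_neg (by omega), if_neg (by omega), if_neg (by omega),
    if_neg (by omega), if_pos (by omega), Nat.add_sub_cancel_left]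

theorem vst_C {r : ℕ} (hr : r < dL p * dnb p) :
    vst p X vv y w m j (iC p + r) = (bitN (m (r / dnb p)) (r % dnb p) : ℝ) := by
  have a1 := dn_le_iV p
  have a2 := iV_lt_iW p
  have a3 := iW_le_iA p
  have a4 := iA_le_iB p
  have a5 := iB_le_iC p
  have a6 : iC p + r < iP p := by unfold iP; omega
  unfold vst
  rw [if_neg (by omega), if_neg (by omega), if_neg (by omega), if_neg (by omega),
    if_neg (by omega), if_neg (by omega), if_pos (by omega), Nat.add_sub_cancel_left]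

theorem vst_P {r : ℕ} (hr : r ≤ dnb p) : vst p X vv y w m j (iP p + r) = 2 ^ r := by
  have a1 := dn_le_iV p
  have a2 := iV_lt_iW p
  have a3 := iW_le_iA p
  have a4 := iA_le_iB p
  have a5 := iB_le_iC p
  have a6 := iC_le_iP p
  have a7 := iP_le_iM p
  unfold vst
  rw [if_neg (by omega), if_neg (by omega), if_neg (by omega), if_neg (by omega),
    if_neg (by omega), if_neg (by omega), if_neg (by omega), if_pos (by omega),
    Nat.add_sub_cancel_left]

theorem vst_M : vst p X vv y w m j (iM p) = j := by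
  have a1 := dn_le_iV p
  have a2 := iV_lt_iW p
  have a3 := iW_le_iA p
  have a4 := iA_le_iB p
  have a5 := iB_le_iC p
  have a6 := iC_le_iP p
  have a7 := iP_le_iM p
  have a8 := iM_lt_iT p
  unfold vst
  rw [if_neg (by omega), if_neg (by omega), if_neg (by omega), if_neg (by omega),
    if_neg (by omega), if_neg (by omega), if_neg (by omega), if_neg (by omega),
    if_pos (by omega)]

theorem vst_T {i : ℕ} (hi : iT p ≤ i) : vst p X vv y w m j i = 0 := by
  have a1 := dn_le_iV p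
  have a2 := iV_lt_iW p
  have a3 := iW_le_iA p
  have a4 := iA_le_iB p
  have a5 := iB_le_iC p
  have a6 := iC_le_iP p
  have a7 := iP_le_iM p
  have a8 := iM_lt_iT p
  unfold vst
  rw [if_neg (by omega), if_neg (by omega), if_neg (by omega), if_neg (by omega),
    if_neg (by omega), if_neg (by omega), if_neg (by omega), if_neg (by omega),
    if_neg (by omega)]

end vst

/-- Two assignments which agree on every block are equal. -/
theorem ext_of {u v : ℕ → ℝ} (hX : ∀ b < dn p, u b = v b)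
    (hY : ∀ i ≤ dn p, ∀ a < dq p, u (dn p + i * dq p + a) = v (dn p + i * dq p + a))
    (hV : u (iV p) = v (iV p)) (hW : ∀ i ≤ dn p, u (iW p + i) = v (iW p + i))
    (hA : ∀ i ≤ U2 p + 2, u (iA p + i) = v (iA p + i))
    (hB : ∀ i ≤ U4 p, u (iB p + i) = v (iB p + i))
    (hC : ∀ r < dL p * dnb p, u (iC p + r) = v (iC p + r))
    (hP : ∀ r ≤ dnb p, u (iP p + r) = v (iP p + r)) (hM : u (iM p) = v (iM p))
    (hT : u (iT p) = v (iT p)) (hZ : ∀ a < dq p, u (iZ p + a) = v (iZ p + a))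
    (hD : ∀ i, dim p ≤ i → u i = v i) : u = v := by
  funext i
  by_cases h1 : i < dn p
  · exact hX i h1
  by_cases h2 : i < iV p
  · have h3 : (i - dn p) / dq p < dn p + 1 := by
      rw [Nat.div_lt_iff_lt_mul (dq_pos p)]
      unfold iV at h2
      omega
    have h4 := hY ((i - dn p) / dq p) (by omega) ((i - dn p) % dq p) (Nat.mod_lt _ (dq_pos p))
    have h5 : dn p + (i - dn p) / dq p * dq p + (i - dn p) % dq p = i := by
      have := Nat.div_add_mod (i - dn p) (dq p)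
      rw [mul_comm] at this
      omega
    rw [h5] at h4
    exact h4
  by_cases h3 : i < iW p
  · have : i = iV p := by unfold iW at h3; omega
    rw [this]; exact hV
  by_cases h4 : i < iA p
  · have := hW (i - iW p) (by unfold iA at h4; omega)
    rwa [show iW p + (i - iW p) = i by omega] at this
  by_cases h5 : i < iB p
  · have := hA (i - iA p) (by unfold iB at h5; omega)
    rwa [show iA p + (i - iA p) = i by omega] at this
  by_cases h6 : i < iC p
  · have := hB (i - iB p) (by unfold iC at h6; omega)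
    rwa [show iB p + (i - iB p) = i by omega] at this
  by_cases h7 : i < iP p
  · have := hC (i - iC p) (by unfold iP at h7; omega)
    rwa [show iC p + (i - iC p) = i by omega] at this
  by_cases h8 : i < iM p
  · have := hP (i - iP p) (by unfold iM at h8; omega)
    rwa [show iP p + (i - iP p) = i by omega] at this
  by_cases h9 : i < iT p
  · have : i = iM p := by unfold iT at h9; omega
    rw [this]; exact hM
  by_cases h10 : i < iZ p
  · have : i = iT p := by unfold iZ at h10; omega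
    rw [this]; exact hT
  by_cases h11 : i < dim p
  · have := hZ (i - iZ p) (by unfold dim at h11; omega)
    rwa [show iZ p + (i - iZ p) = i by omega] at this
  exact hD i (by omega)

/-! ### The sizes of the constants -/

theorem beta_small : (dat p).β * ((dat p).q * ((dat p).q : ℝ) ^ ((dat p).n + 2)) ≤ 1 / 16 := by
  change (1 / 2 : ℝ) ^ 2 ^ U3 p * ((dq p : ℝ) * (dq p : ℝ) ^ (dn p + 2)) ≤ 1 / 16
  have h1 : (dq p : ℝ) * (dq p : ℝ) ^ (dn p + 2) ≤ 2 ^ (dq p * (dn p + 3)) := by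
    rw [← pow_succ', pow_mul]
    refine pow_le_pow_left₀ (by positivity) ?_ _
    exact_mod_cast (Nat.lt_two_pow_self (n := dq p)).le
  have h2 : (1 / 2 : ℝ) ^ 2 ^ U3 p ≤ (1 / 2) ^ U3 p :=
    pow_le_pow_of_le_one (by norm_num) (by norm_num) (Nat.lt_two_pow_self).le
  have h3 : (1 / 2 : ℝ) ^ U3 p = (1 / 2) ^ (dq p * (dn p + 3)) * (1 / 16) := by
    unfold U3
    rw [pow_add]
    norm_num
  calc (1 / 2 : ℝ) ^ 2 ^ U3 p * ((dq p : ℝ) * (dq p : ℝ) ^ (dn p + 2))
      ≤ ((1 / 2) ^ (dq p * (dn p + 3)) * (1 / 16)) * 2 ^ (dq p * (dn p + 3)) := by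
        rw [← h3]
        exact mul_le_mul h2 h1 (by positivity) (by positivity)
    _ = ((1 / 2) * 2) ^ (dq p * (dn p + 3)) * (1 / 16) := by rw [mul_pow]; ring
    _ = 1 / 16 := by norm_num

theorem beta_le : (dat p).β ≤ 1 / 64 := by
  change (1 / 2 : ℝ) ^ 2 ^ U3 p ≤ 1 / 64
  have h1 : 6 ≤ 2 ^ U3 p := by
    calc 6 ≤ 2 ^ 4 := by norm_num
      _ ≤ 2 ^ U3 p := Nat.pow_le_pow_right (by norm_num) (by unfold U3; omega)
  calc (1 / 2 : ℝ) ^ 2 ^ U3 p ≤ (1 / 2) ^ 6 := pow_le_pow_of_le_one (by norm_num) (by norm_num) h1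
    _ = 1 / 64 := by norm_num

theorem beta_pos : 0 < (dat p).β := by
  change 0 < (1 / 2 : ℝ) ^ 2 ^ U3 p
  positivity

/-- The exponent of the bound. -/
def sA : ℕ := dnb p + dL p + 2 * (dn p + 1) * (dq p + dS0 p * dq p + 1)

theorem par_small {m : ℕ → ℕ} (hm : ∀ k, m k < 2 ^ dnb p) (k : ℕ) :
    |(1 / 2 : ℝ) ^ 2 ^ U4 p * m k| * ((dat p).L * (((dat p).q : ℝ) *
      ((dat p).S0 : ℝ) ^ (dat p).q + 1) ^ (2 * ((dat p).n + 1))) ≤ (dat p).β := by
  change |(1 / 2 : ℝ) ^ 2 ^ U4 p * m k| * ((dL p : ℝ) * ((dq p : ℝ) *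
      (dS0 p : ℝ) ^ dq p + 1) ^ (2 * (dn p + 1))) ≤ (1 / 2 : ℝ) ^ 2 ^ U3 p
  have h1 : (m k : ℝ) ≤ 2 ^ dnb p := by exact_mod_cast (hm k).le
  have h2 : (dL p : ℝ) ≤ 2 ^ dL p := by exact_mod_cast (Nat.lt_two_pow_self (n := dL p)).le
  have h3 : ((dq p : ℝ) * (dS0 p : ℝ) ^ dq p + 1) ≤ 2 ^ (dq p + dS0 p * dq p + 1) := by
    have : dq p * dS0 p ^ dq p + 1 ≤ 2 ^ (dq p + dS0 p * dq p + 1) := by
      have h4 : dq p ≤ 2 ^ dq p := (Nat.lt_two_pow_self).le
      have h5 : dS0 p ^ dq p ≤ 2 ^ (dS0 p * dq p) := by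
        rw [pow_mul]
        exact Nat.pow_le_pow_left (Nat.lt_two_pow_self).le _
      calc dq p * dS0 p ^ dq p + 1 ≤ 2 ^ dq p * 2 ^ (dS0 p * dq p) + 2 ^ dq p * 2 ^ (dS0 p * dq p) :=
            add_le_add (Nat.mul_le_mul h4 h5) (Nat.one_le_iff_ne_zero.2 (by positivity))
        _ = 2 ^ (dq p + dS0 p * dq p + 1) := by rw [pow_succ, pow_add]; ring
    exact_mod_cast this
  have h4 : ((dq p : ℝ) * (dS0 p : ℝ) ^ dq p + 1) ^ (2 * (dn p + 1)) ≤
      2 ^ (2 * (dn p + 1) * (dq p + dS0 p * dq p + 1)) := by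
    calc ((dq p : ℝ) * (dS0 p : ℝ) ^ dq p + 1) ^ (2 * (dn p + 1)) ≤
        (2 ^ (dq p + dS0 p * dq p + 1)) ^ (2 * (dn p + 1)) :=
          pow_le_pow_left₀ (by positivity) h3 _
      _ = 2 ^ (2 * (dn p + 1) * (dq p + dS0 p * dq p + 1)) := by rw [← pow_mul, mul_comm]
  have h5 : (m k : ℝ) * ((dL p : ℝ) * ((dq p : ℝ) * (dS0 p : ℝ) ^ dq p + 1) ^ (2 * (dn p + 1))) ≤
      2 ^ sA p := by
    calc (m k : ℝ) * ((dL p : ℝ) * ((dq p : ℝ) * (dS0 p : ℝ) ^ dq p + 1) ^ (2 * (dn p + 1)))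
        ≤ 2 ^ dnb p * (2 ^ dL p * 2 ^ (2 * (dn p + 1) * (dq p + dS0 p * dq p + 1))) :=
          mul_le_mul h1 (mul_le_mul h2 h4 (pow_nonneg (add_nonneg (mul_nonneg (Nat.cast_nonneg _)
            (pow_nonneg (Nat.cast_nonneg _) _)) zero_le_one) _) (pow_nonneg zero_le_two _))
            (mul_nonneg (Nat.cast_nonneg _) (pow_nonneg (add_nonneg (mul_nonneg (Nat.cast_nonneg _)
            (pow_nonneg (Nat.cast_nonneg _) _)) zero_le_one) _)) (pow_nonneg zero_le_two _)
      _ = 2 ^ sA p := by unfold sA; rw [pow_add, pow_add]; ring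
  rw [abs_of_nonneg (by positivity), mul_assoc]
  have h6 : 2 ^ U3 p + sA p ≤ 2 ^ U4 p := by
    have h7 : U4 p = U3 p + sA p := rfl
    have h8 : sA p + 1 ≤ 2 ^ sA p := Nat.lt_two_pow_self
    have h9 : 1 ≤ 2 ^ U3 p := Nat.one_le_two_pow
    rw [h7, pow_add]
    calc 2 ^ U3 p + sA p ≤ 2 ^ U3 p + 2 ^ U3 p * sA p := by
          have := Nat.mul_le_mul_right (sA p) h9
          omega
      _ = 2 ^ U3 p * (sA p + 1) := by ring
      _ ≤ 2 ^ U3 p * 2 ^ sA p := Nat.mul_le_mul_left _ h8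
  calc (1 / 2 : ℝ) ^ 2 ^ U4 p * (m k * ((dL p : ℝ) * ((dq p : ℝ) *
      (dS0 p : ℝ) ^ dq p + 1) ^ (2 * (dn p + 1))))
      ≤ (1 / 2) ^ (2 ^ U3 p + sA p) * 2 ^ sA p :=
        mul_le_mul (pow_le_pow_of_le_one (by norm_num) (by norm_num) h6) h5 (by positivity)
          (by positivity)
    _ = (1 / 2) ^ 2 ^ U3 p * ((1 / 2) * 2) ^ sA p := by rw [pow_add, mul_pow]; ring
    _ = (1 / 2) ^ 2 ^ U3 p := by norm_num

end Pool.Agent.T9h94.Iso.Red
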