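import Pool.Agent.T9h94.Iso.Top2

/-!
# The isolated point of a true sentence
-/

set_option autoImplicit false

namespace Pool.Agent.T9h94.Iso.Red

open Pool.Agent.NPC Pool.Agent.NPC.ER Pool.Agent.NPC.H612
open Pool.Agent.NPC.R537HD (asg semi numT sqT subT eval_numT eval_sqT eval_subT)
open Topology Filter

variable (p : Inp)

/-- The block of the critical points of an assignment. -/
def tup (j : ℕ) (u : ℕ → ℝ) : (Fin (dn p) → ℝ) × ℝ × (Fin (j + 1) → Fin (dq p) → ℝ) ×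
    (Fin (j + 1) → ℝ) :=
  (aX p u, u (iV p), fun i => aY p u i, fun i => u (iW p + i))

theorem continuous_tup (j : ℕ) : Continuous (tup p j) := by
  unfold tup aX aY
  fun_prop

theorem cv_vst (X : ℕ → ℝ) (vv : ℝ) (y : ℕ → ℕ → ℝ) (w : ℕ → ℝ) (m : ℕ → ℕ) (j : ℕ)
    (hm : ∀ k, m k < 2 ^ dnb p) (u : ℕ → ℝ) (hu : Cst p u)
    (hC : ∀ r < dL p * dnb p, u (iC p + r) = vst p X vv y w m j (iC p + r)) (k : ℕ)
    (hk : k < dL p) : cv p u k = (1 / 2) ^ 2 ^ U4 p * m k := by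
  rw [cv_eq p u hu]
  congr 1
  have h1 : ∀ r ∈ Finset.range (dnb p), (2:ℝ) ^ r * u (iC p + k * dnb p + r) =
      ((2 ^ r * bitN (m k) r : ℕ) : ℝ) := by
    intro r hr
    have hr' := Finset.mem_range.1 hr
    have h2 : k * dnb p + r < dL p * dnb p := by
      calc k * dnb p + r < k * dnb p + dnb p := by omega
        _ = (k + 1) * dnb p := by ring
        _ ≤ dL p * dnb p := Nat.mul_le_mul_right _ hk
    have h3 : (k * dnb p + r) / dnb p = k := by
      rw [mul_comm, Nat.mul_add_div (by omega), Nat.div_eq_of_lt hr', add_zero]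
    have h4 : (k * dnb p + r) % dnb p = r := by
      rw [mul_comm, Nat.mul_add_mod, Nat.mod_eq_of_lt hr']
    rw [add_assoc, hC _ h2, vst_C p X vv y w m j h2, h3, h4]
    push_cast
    ring
  rw [Finset.sum_congr rfl h1, ← Nat.cast_sum, sum_bitN, Nat.mod_eq_of_lt (hm k)]

theorem cone_pos (G : Dat) (X : Fin G.n → ℝ)
    (hpos : ∀ z : ℕ → ℝ, (∀ a < G.q, z a ^ 2 ≤ G.q) → 0 < G.G2 X z 1) {z : ℕ → ℝ} {t : ℝ}
    (ht : 0 < t) (hz : ∀ a < G.q, z a ^ 2 ≤ G.q * t ^ 2) : 0 < G.G2 X z t := by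
  have h4 := hpos (fun a => t⁻¹ * z a) fun a ha => by
    rw [mul_pow, inv_pow, inv_mul_le_iff₀ (by positivity), mul_comm]
    exact hz a ha
  have h6 := G2_scale G X (fun a => t⁻¹ * z a) 1 t
  have h7 : (fun a => t * (t⁻¹ * z a)) = z := by
    funext a
    rw [← mul_assoc, mul_inv_cancel₀ ht.ne', one_mul]
  rw [h7, mul_one] at h6
  rw [h6]
  exact mul_pos (by positivity) h4

theorem iso_of_true (hP : Dat.StmtParams) (hS : Dat.StmtSol) (h : EAR p) :
    HasIso (dim p) (fS p) := by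
  classical
  obtain ⟨X₀, hX₀, hG⟩ := dat_true p h
  obtain ⟨m, hm, hfin⟩ := hP (dat p) (dnb p) le_rfl ((1 / 2) ^ 2 ^ U4 p) (by positivity)
  have hC0 : 0 ≤ (dat p).C := by change (0:ℝ) ≤ 2 * 2 ^ 2 ^ U2 p; positivity
  have hB0 : 0 ≤ (dat p).B := by change (0:ℝ) ≤ 2 ^ 2 ^ (U2 p + 2); positivity
  have hD0 : 0 ≤ (dat p).D := by change (0:ℝ) ≤ 2 ^ 2 ^ U1 p; positivity
  obtain ⟨j, hj, X, vv, y, w, hsol, hyi, hX4, hpos⟩ := hS (dat p)
    (fun k => (1 / 2) ^ 2 ^ U4 p * m k) X₀ hX₀ hC0 hB0 hD0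
    (by change 1 ≤ dS0 p; unfold dS0; omega) hG (beta_pos p) (beta_small p) _ le_rfl
    (beta_le p) (fun k _ => par_small p hm k)
  have hj' : j ≤ dn p := hj
  obtain ⟨s, hs, hsi⟩ := exists_dir (j + 1) (dq p) (dS0 p) (by
    unfold dS0
    have : (j + 1) * (j + 1) * dq p ≤ (dn p + 1) * (dn p + 1) * dq p := by gcongr
    omega) y hyi
  -- the point
  let X' : ℕ → ℝ := fun b => if hb : b < dn p then X ⟨b, hb⟩ else 0
  let y' : ℕ → ℕ → ℝ := fun i a => if hi : i < j + 1 ∧ a < dq p then y ⟨i, hi.1⟩ ⟨a, hi.2⟩ else 0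
  let w' : ℕ → ℝ := fun i => if hi : i < j + 1 then w ⟨i, hi⟩ else 0
  set v := vst p X' vv y' w' m j with hv
  have a1 := dn_le_iV p
  have a2 := iV_lt_iW p
  have a3 := iW_le_iA p
  have a4 := iA_le_iB p
  have a5 := iB_le_iC p
  have a6 := iC_le_iP p
  have a7 := iP_le_iM p
  have a8 := iM_lt_iT p
  have a9 := iT_lt_iZ p
  have a10 := iZ_le_dim p
  have hvX : ∀ b (hb : b < dn p), v b = X ⟨b, hb⟩ := fun b hb => by
    rw [hv, vst_X p _ _ _ _ _ _ hb]
    exact dif_pos hb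
  have hvC : Cst p v := by
    refine ⟨fun i hi => vst_A p _ _ _ _ _ _ hi, fun i hi => vst_B p _ _ _ _ _ _ hi,
      fun r hr => vst_P p _ _ _ _ _ _ hr, fun r hr => ?_, fun b hb => ?_⟩
    · rw [hv, vst_C p _ _ _ _ _ _ hr]
      have := bitN_lt (m (r / dnb p)) (r % dnb p)
      interval_cases (bitN (m (r / dnb p)) (r % dnb p)) <;> norm_num
    · rw [hvX b hb]; exact (hX4 _).le
  have htup : tup p j v = (X, vv, y, w) := by
    unfold tup
    refine Prod.ext_iff.2 ⟨?_, Prod.ext_iff.2 ⟨?_, Prod.ext_iff.2 ⟨?_, ?_⟩⟩⟩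
    · funext b
      exact hvX b b.2
    · change v (iV p) = vv
      exact vst_V p _ _ _ _ _ _
    · funext i a
      have h1 : (aY p v i) a = y' i a := vst_Y p _ _ _ _ _ _ (by omega) a.2
      have h2 : y' i a = y i a := dif_pos ⟨i.2, a.2⟩
      exact h1.trans h2
    · funext i
      have h1 : v (iW p + i) = w' i := vst_W p _ _ _ _ _ _ (by omega)
      have h2 : w' i = w i := dif_pos i.2
      exact h1.trans h2
  have hcv : ∀ k < dL p, cv p v k = (1 / 2) ^ 2 ^ U4 p * m k :=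
    fun k hk => cv_vst p X' vv y' w' m j hm v hvC (fun _ _ => rfl) k hk
  have hvCrit : Crit p v j := by
    refine ⟨?_, fun i hi hi' => ?_, fun i hi hi' a ha => ?_⟩
    · have h1 : (dat p).Sol (fun k => (1 / 2) ^ 2 ^ U4 p * m k) j (tup p j v).1 (tup p j v).2.1
          (tup p j v).2.2.1 (tup p j v).2.2.2 := by rw [htup]; exact hsol
      exact Sol_cc (dat p) (fun k hk => (hcv k hk).symm) h1
    · rw [hv, vst_W p _ _ _ _ _ _ hi']
      exact dif_neg (by omega)
    · rw [hv, vst_Y p _ _ _ _ _ _ hi' ha]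
      exact dif_neg (by omega)
  have hvS : (fS p).Holds v := by
    refine ⟨(holds_fD p v).2 ⟨hvC, j, hj', vst_M p _ _ _ _ _ _, hvCrit⟩,
      (holds_fK p v hvC).2 (Or.inl ⟨vst_T p _ _ _ _ _ _ le_rfl, fun a ha =>
        vst_T p _ _ _ _ _ _ (by omega)⟩)⟩
  refine hasIso_of_nhds v (fun i hi => vst_T p _ _ _ _ _ _ (by omega)) hvS ?_
  -- the finite set
  set A : Set ((Fin (dn p) → ℝ) × ℝ × (Fin (j + 1) → Fin (dq p) → ℝ) × (Fin (j + 1) → ℝ)) :=
    {w | (dat p).Sol (fun k => (1 / 2) ^ 2 ^ U4 p * m k) j w.1 w.2.1 w.2.2.1 w.2.2.2 ∧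
      Function.Injective fun i => ∑ b : Fin (dq p), (s : ℝ) ^ (b : ℕ) * w.2.2.1 i b} with hA
  have hAf : A.Finite := hfin j hj s hs
  have hO : ∀ᶠ u in 𝓝 v, Function.Injective fun i : Fin (j + 1) =>
      ∑ b : Fin (dq p), (s : ℝ) ^ (b : ℕ) * (tup p j u).2.2.1 i b := by
    have h1 : ∀ i i' : Fin (j + 1), i ≠ i' → ∀ᶠ u in 𝓝 v,
        ∑ b : Fin (dq p), (s : ℝ) ^ (b : ℕ) * (tup p j u).2.2.1 i b ≠
        ∑ b : Fin (dq p), (s : ℝ) ^ (b : ℕ) * (tup p j u).2.2.1 i' b := by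
      intro i i' hii
      have hcon : ∀ i : Fin (j + 1), Continuous fun u =>
          ∑ b : Fin (dq p), (s : ℝ) ^ (b : ℕ) * (tup p j u).2.2.1 i b := by
        intro i
        change Continuous fun u : ℕ → ℝ =>
          ∑ b : Fin (dq p), (s : ℝ) ^ (b : ℕ) * u (dn p + i * dq p + b)
        fun_prop
      refine (ContinuousAt.ne_iff_eventually_ne (hcon i).continuousAt
        (hcon i').continuousAt).1 ?_
      rw [htup]
      exact fun h3 => hii (hsi h3)
    have h2 : ∀ᶠ u in 𝓝 v, ∀ i i' : Fin (j + 1), i ≠ i' →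
        ∑ b : Fin (dq p), (s : ℝ) ^ (b : ℕ) * (tup p j u).2.2.1 i b ≠
        ∑ b : Fin (dq p), (s : ℝ) ^ (b : ℕ) * (tup p j u).2.2.1 i' b := by
      rw [eventually_all]
      intro i
      rw [eventually_all]
      intro i'
      by_cases hii : i = i'
      · exact Eventually.of_forall fun u h3 => absurd hii h3
      · exact (h1 i i' hii).mono fun u hu _ => hu
    refine h2.mono fun u hu i i' h3 => ?_
    by_contra h4
    exact hu i i' h4 h3
  have hN : ∀ᶠ u in 𝓝 v, tup p j u ∈ A → tup p j u = tup p j v := by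
    have h1 : ∀ᶠ t in 𝓝 (tup p j v), t ∉ A \ {tup p j v} := by
      refine (hAf.subset Set.sdiff_subset).isClosed.isOpen_compl.mem_nhds ?_
      simp
    refine ((continuous_tup p j).continuousAt.eventually h1).mono fun u hu h2 => ?_
    by_contra h3
    exact hu ⟨h2, h3⟩
  have hnear : ∀ i, ∀ᶠ u in 𝓝 v, |u i - v i| < 1 / 2 := by
    intro i
    have h1 : ContinuousAt (fun u : ℕ → ℝ => u i) v := (continuous_apply i).continuousAt
    have h2 := Metric.tendsto_nhds.1 h1 (1 / 2) (by norm_num)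
    exact h2.mono fun u hu => by rwa [Real.dist_eq] at hu
  have hnear2 : ∀ᶠ u in 𝓝 v, ∀ i < dim p, |u i - v i| < 1 / 2 := by
    have h1 : ∀ᶠ u in 𝓝 v, ∀ i ∈ Finset.range (dim p), |u i - v i| < 1 / 2 :=
      (eventually_all_finset _).2 fun i _ => hnear i
    exact h1.mono fun u hu i hi => hu i (Finset.mem_range.2 hi)
  filter_upwards [hO, hN, hnear2] with u hu1 hu2 hu3 hus huh
  have huh' : (fD p).Holds u ∧ (fK p).Holds u := huh
  obtain ⟨hD, hK⟩ := huh'
  obtain ⟨huC, j', hj1, hj2, huCrit⟩ := (holds_fD p u).1 hD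
  have hjj : j' = j := by
    have h1 := hu3 (iM p) (by omega)
    rw [hj2, hv, vst_M] at h1
    have h2 : |(j' : ℤ) - (j : ℤ)| < 1 := by
      have h3 : (|(j' : ℤ) - (j : ℤ)| : ℝ) < 1 := by push_cast; linarith
      exact_mod_cast h3
    rw [Int.abs_lt_one_iff] at h2
    omega
  subst hjj
  have hCeq : ∀ r < dL p * dnb p, u (iC p + r) = v (iC p + r) := by
    intro r hr
    have h1 := huC.hC r hr
    have h2 := hvC.hC r hr
    have h3 := hu3 (iC p + r) (by
      have : iC p + r < iP p := by unfold iP; omega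
      omega)
    have h4 : u (iC p + r) = 0 ∨ u (iC p + r) = 1 := by
      have : u (iC p + r) * (u (iC p + r) - 1) = 0 := by linarith [h1, sq (u (iC p + r))]
      rcases mul_eq_zero.1 this with h5 | h5
      · exact Or.inl h5
      · exact Or.inr (by linarith)
    have h4' : v (iC p + r) = 0 ∨ v (iC p + r) = 1 := by
      have : v (iC p + r) * (v (iC p + r) - 1) = 0 := by linarith [h2, sq (v (iC p + r))]
      rcases mul_eq_zero.1 this with h5 | h5
      · exact Or.inl h5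
      · exact Or.inr (by linarith)
    rcases h4 with h5 | h5 <;> rcases h4' with h6 | h6 <;> rw [h5, h6] at h3 ⊢ <;>
      norm_num at h3
  have hcu : ∀ k < dL p, cv p u k = (1 / 2) ^ 2 ^ U4 p * m k :=
    fun k hk => cv_vst p X' vv y' w' m j' hm u huC hCeq k hk
  have hT : tup p j' u = tup p j' v := by
    refine hu2 ⟨?_, hu1⟩
    exact Sol_cc (dat p) (fun k hk => hcu k hk) huCrit.sol
  have hTX : aX p u = aX p v := congrArg Prod.fst hT
  have hTV : u (iV p) = v (iV p) := congrArg (fun t => t.2.1) hT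
  have hTY : (fun i : Fin (j' + 1) => aY p u i) = fun i : Fin (j' + 1) => aY p v i :=
    congrArg (fun t => t.2.2.1) hT
  have hTW : (fun i : Fin (j' + 1) => u (iW p + i)) = fun i : Fin (j' + 1) => v (iW p + i) :=
    congrArg (fun t => t.2.2.2) hT
  have hK' := (holds_fK p u huC).1 hK
  have hcone : u (iT p) = 0 ∧ ∀ a < dq p, u (iZ p + a) = 0 := by
    rcases hK' with h1 | ⟨h1, h2, h3⟩
    · exact h1
    · exfalso
      have h5 : aX p u = X := hTX.trans (congrArg Prod.fst htup)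
      rw [h5] at h2
      exact absurd h2 (not_le.2 (cone_pos (dat p) X hpos h1 h3))
  refine ext_of p (fun b hb => congrFun hTX ⟨b, hb⟩) (fun i hi a ha => ?_) hTV (fun i hi => ?_)
    (fun i hi => by rw [huC.hA i hi, hvC.hA i hi]) (fun i hi => by rw [huC.hB i hi, hvC.hB i hi])
    hCeq (fun r hr => by rw [huC.hP r hr, hvC.hP r hr]) (by rw [hj2, hv, vst_M]) ?_
    (fun a ha => ?_) (fun i hi => ?_)
  · by_cases hij : i ≤ j'
    · exact congrFun (congrFun hTY ⟨i, by omega⟩) ⟨a, ha⟩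
    · rw [huCrit.y0 i (by omega) hi a ha, hvCrit.y0 i (by omega) hi a ha]
  · by_cases hij : i ≤ j'
    · exact congrFun hTW ⟨i, by omega⟩
    · rw [huCrit.w0 i (by omega) hi, hvCrit.w0 i (by omega) hi]
  · rw [hcone.1, hv, vst_T _ _ _ _ _ _ _ le_rfl]
  · rw [hcone.2 a ha, hv, vst_T _ _ _ _ _ _ _ (by omega)]
  · rw [hus i hi, hv, vst_T _ _ _ _ _ _ _ (by omega)]

/-- **The equivalence.** -/
theorem inst_iff (hP : Dat.StmtParams) (hS : Dat.StmtSol) :
    EAR p ↔ IsolatedPointExistence (inst p) := by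
  have h1 : IsolatedPointExistence (inst p) ↔ HasIso (dim p) (fS p) := by
    unfold IsolatedPointExistence inst
    rw [List.length_replicate]
  rw [h1]
  constructor
  · exact iso_of_true p hP hS
  · intro h
    by_contra h2
    exact not_iso_of_false p h2 h

end Pool.Agent.T9h94.Iso.Red
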